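import Pool.Agent.Lib_MP_70e04f_nine.Defs

/-!
# Degrees and derivatives of restrictions to the cuspidal cubic (piece CUBFACT)

PAPER PROOFS. A monomial `x ^ a * y ^ b` restricts to `X ^ (2 a + 3 b)`, and `2 a + 3 b ≤ 3 (a + b)`
with equality only for `a = 0`; `2 a + 3 b ≠ 1`. The chain rule:
`derivative (cub F) = 2 X cub (pderiv 0 F) + 3 X ^ 2 cub (pderiv 1 F)` (both sides are derivations
along `cub`; induction on `F`, or compare on monomials).
-/

namespace Pool.MP_70e04f_ag.Nine

open MvPolynomial Pool.MP_70e04f_ag.Hex Pool.MP_70e04f_ag.Add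

lemma cub_eq_sum (F : MvPolynomial (Fin 2) ℝ) :
    cub F = ∑ s ∈ F.support, Polynomial.C (coeff s F) * Polynomial.X ^ (2 * s 0 + 3 * s 1) := by
  conv_lhs => rw [F.as_sum]
  rw [map_sum]
  refine Finset.sum_congr rfl (fun s _ => ?_)
  unfold cub
  rw [aeval_monomial, Finsupp.prod_fintype _ _ (fun _ => pow_zero _), Fin.prod_univ_two]
  simp only [Matrix.cons_val_zero, Matrix.cons_val_one, Polynomial.algebraMap_eq]
  rw [← pow_mul, ← pow_mul, ← pow_add]

lemma coeff_cub (F : MvPolynomial (Fin 2) ℝ) (n : ℕ) :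
    (cub F).coeff n = ∑ s ∈ F.support, if n = 2 * s 0 + 3 * s 1 then coeff s F else 0 := by
  rw [cub_eq_sum, Polynomial.finsetSum_coeff]
  refine Finset.sum_congr rfl (fun s _ => ?_)
  rw [Polynomial.coeff_C_mul_X_pow]

lemma supp_le {F : MvPolynomial (Fin 2) ℝ} {s : Fin 2 →₀ ℕ} (hs : s ∈ F.support) :
    s 0 + s 1 ≤ F.totalDegree := by
  have h := le_totalDegree hs
  rw [Finsupp.sum_fintype _ _ (fun _ => rfl), Fin.sum_univ_two] at h
  exact h

theorem natDegree_cub_le (F : MvPolynomial (Fin 2) ℝ) :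
    (cub F).natDegree ≤ 3 * F.totalDegree := by
  rw [cub_eq_sum]
  refine Polynomial.natDegree_sum_le_of_forall_le _ _ (fun s hs => ?_)
  refine (Polynomial.natDegree_C_mul_X_pow_le _ _).trans ?_
  have := supp_le hs
  omega

theorem coeff_cub_top {k : ℕ} {F : MvPolynomial (Fin 2) ℝ} (h : F.totalDegree ≤ k) :
    (cub F).coeff (3 * k) = coeff (mon 0 k) F := by
  rw [coeff_cub]
  have h1 : ∀ s ∈ F.support, (if 3 * k = 2 * s 0 + 3 * s 1 then coeff s F else 0) =
      if s = mon 0 k then coeff s F else 0 := by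
    intro s hs
    have h2 := (supp_le hs).trans h
    by_cases h3 : s = mon 0 k
    · have h4 : s 0 = 0 := by rw [h3, mon_zero']
      have h5 : s 1 = k := by rw [h3, mon_one']
      rw [if_pos h3, if_pos (by omega)]
    · rw [if_neg h3, if_neg]
      intro h4
      apply h3
      have h5 : s 0 = 0 := by omega
      have h6 : s 1 = k := by omega
      rw [← mon_eta s, h5, h6]
  rw [Finset.sum_congr rfl h1, Finset.sum_ite_eq' F.support (mon 0 k) (fun s => coeff s F)]
  split_ifs with h7
  · rfl
  · exact (notMem_support_iff.1 h7).symm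

theorem coeff_cub_one (F : MvPolynomial (Fin 2) ℝ) : (cub F).coeff 1 = 0 := by
  rw [coeff_cub]
  refine Finset.sum_eq_zero (fun s _ => ?_)
  rw [if_neg (by omega)]

theorem derivative_cub (F : MvPolynomial (Fin 2) ℝ) :
    Polynomial.derivative (cub F) =
      2 * Polynomial.X * cub (pderiv 0 F) + 3 * Polynomial.X ^ 2 * cub (pderiv 1 F) := by
  induction F using MvPolynomial.induction_on with
  | C a =>
    rw [pderiv_C, pderiv_C, map_zero, mul_zero, mul_zero, add_zero]
    have : cub (C a : MvPolynomial (Fin 2) ℝ) = Polynomial.C a := by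
      simp [cub]
    rw [this, Polynomial.derivative_C]
  | add p q hp hq =>
    simp only [map_add, hp, hq]
    ring
  | mul_X p i hp =>
    have h0 : cub (X 0 : MvPolynomial (Fin 2) ℝ) = Polynomial.X ^ 2 := by simp [cub]
    have h1 : cub (X 1 : MvPolynomial (Fin 2) ℝ) = Polynomial.X ^ 3 := by simp [cub]
    have e01 : (pderiv 0 (X 1 : MvPolynomial (Fin 2) ℝ)) = 0 := by
      rw [pderiv_X_of_ne]; decide
    have e10 : (pderiv 1 (X 0 : MvPolynomial (Fin 2) ℝ)) = 0 := by
      rw [pderiv_X_of_ne]; decide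
    have d2 : Polynomial.derivative (Polynomial.X ^ 2 : Polynomial ℝ) = 2 * Polynomial.X := by
      rw [Polynomial.derivative_X_pow]
      norm_num
      rfl
    have d3 : Polynomial.derivative (Polynomial.X ^ 3 : Polynomial ℝ) = 3 * Polynomial.X ^ 2 := by
      rw [Polynomial.derivative_X_pow]
      norm_num
      rfl
    rw [map_mul, Polynomial.derivative_mul, hp, pderiv_mul, pderiv_mul, map_add, map_add,
      map_mul, map_mul, map_mul, map_mul]
    fin_cases i
    · simp only [Fin.zero_eta, Fin.isValue, pderiv_X_self, e10, map_one, map_zero, h0, d2]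
      ring
    · simp only [Fin.mk_one, Fin.isValue, pderiv_X_self, e01, map_one, map_zero, h1, d3]
      ring

end Pool.MP_70e04f_ag.Nine
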