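import Pool.Agent.Lib_MP_70e04f_nine.Defs

/-!
# Curves with given restriction to the cuspidal cubic (piece CUBSUR)

PAPER PROOF. Let `Z` be the space of real polynomials `w` with support in `{0, ..., 3 k}` without
`1`, divisible by `(X - C (e t)) ^ c t` for all `t`. As in the proof of `finrank_cub`
(`Lib_MP_70e04f_add/CubA.lean`): choose `y > 0` different from the `e t`; an element of `Z`
divisible by `(X - C y) ^ s`, `s = 3 k - ∑ c t`, is zero by Descartes (`row_zero`), so
`finrank Z ≤ s`. Let `W = (Lsys (k + 1) c (cpt e)).map cub`; `W ≤ Z` (`CubA.support_cub` gives the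
cardinality only, its proof gives the support; `CubA.dvd_cub`). Now
`finrank W = hT (k + 1) c - finrank (kernel)`, the kernel has dimension at most
`hT (k + 1 - 3) (c - 1)` (`finrank_cub_ker`), and
`2 hT (k + 1) c ≥ (k + 1) (k + 2) - ∑ c (c + 1)` (`hT_ge`),
`2 hT (k - 2) (c - 1) + ∑ (c - 1) c ≤ (k - 2) (k - 1)`: if at least three `c t` are not zero this is
`Std.sub` and `Std.hT_le` (`Lib_MP_70e04f_add/Cubic.lean`, `Std (k + 1) c` holds); otherwise it is
`hT_two` with the set `U` of the `t` with `c t ≠ 0`: `∑ t ∈ U, (c t - 1) ≤ k - 2` since the sum of two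
is at most `k`, resp. `c t ≤ k - 1` if there is only one, because `c t ^ 2 < k ^ 2`. (If `k = 1` then
all `c t = 0` because of `∑ c t ^ 2 < 1`.) Hence `finrank W ≥ 3 k - ∑ c t ≥ finrank Z`, `W = Z`.
-/

namespace Pool.MP_70e04f_ag.Nine

open MvPolynomial Pool.MP_70e04f_ag.Hex Pool.MP_70e04f_ag.Add

/-- The space of the possible restrictions. -/
noncomputable def cubSpace {τ : Type*} (e : τ → ℝ) (k : ℕ) (c : τ → ℕ) :
    Submodule ℝ (Polynomial ℝ) where
  carrier := {w | w.natDegree ≤ 3 * k ∧ w.coeff 1 = 0 ∧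
    ∀ t, (Polynomial.X - Polynomial.C (e t)) ^ c t ∣ w}
  add_mem' := by
    rintro v w ⟨h1, h2, h3⟩ ⟨h1', h2', h3'⟩
    refine ⟨(Polynomial.natDegree_add_le _ _).trans (max_le h1 h1'), ?_, fun t => ?_⟩
    · rw [Polynomial.coeff_add, h2, h2', add_zero]
    · exact dvd_add (h3 t) (h3' t)
  zero_mem' := ⟨by simp, by simp, fun t => dvd_zero _⟩
  smul_mem' := by
    rintro a w ⟨h1, h2, h3⟩
    refine ⟨(Polynomial.natDegree_smul_le _ _).trans h1, ?_, fun t => ?_⟩
    · rw [Polynomial.coeff_smul, h2, smul_zero]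
    · rw [Polynomial.smul_eq_C_mul]
      exact Dvd.dvd.mul_left (h3 t) _

lemma mem_cubSpace {τ : Type*} {e : τ → ℝ} {k : ℕ} {c : τ → ℕ} {w : Polynomial ℝ} :
    w ∈ cubSpace e k c ↔ w.natDegree ≤ 3 * k ∧ w.coeff 1 = 0 ∧
      ∀ t, (Polynomial.X - Polynomial.C (e t)) ^ c t ∣ w := Iff.rfl

lemma cubSpace_finrank {τ : Type*} [Fintype τ] {e : τ → ℝ} (he : Function.Injective e)
    (he0 : ∀ t, 0 < e t) {k : ℕ} (hk : 1 ≤ k) {c : τ → ℕ} (hK : ∑ t, c t ≤ 3 * k) :
    Module.Finite ℝ ↥(cubSpace e k c) ∧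
      Module.finrank ℝ ↥(cubSpace e k c) + ∑ t, c t ≤ 3 * k := by
  classical
  set s : ℕ := 3 * k - ∑ t, c t with hs
  set y : ℝ := ∑ t, e t + 1 with hy
  have hy0 : 0 < y := by
    have : 0 ≤ ∑ t, e t := Finset.sum_nonneg fun t _ => (he0 t).le
    linarith
  have hye : ∀ t, e t ≠ y := by
    intro t
    have : e t ≤ ∑ t, e t := Finset.single_le_sum (fun t _ => (he0 t).le) (Finset.mem_univ t)
    intro h
    linarith
  let T : Polynomial ℝ →ₗ[ℝ] (Fin s → ℝ) :=
    LinearMap.pi fun i => (Polynomial.lcoeff ℝ i).comp (Polynomial.taylor y)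
  have hT : ∀ f i, T f i = (Polynomial.taylor y f).coeff i := fun f i => rfl
  have hker : ∀ f ∈ cubSpace e k c, T f = 0 → f = 0 := by
    intro f hf hTf
    obtain ⟨hf1, hf2, hf3⟩ := mem_cubSpace.1 hf
    have h1 : (Polynomial.X - Polynomial.C y) ^ s ∣ f := by
      rw [Polynomial.X_sub_C_pow_dvd_iff, Polynomial.X_pow_dvd_iff]
      intro d hd
      have := congrFun hTf ⟨d, hd⟩
      rw [hT] at this
      exact this
    have hsupp : f.support.card ≤ 3 * k := by
      have h2 : f.support ⊆ (Finset.range (3 * k + 1)).erase 1 := by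
        intro n hn
        rw [Finset.mem_erase, Finset.mem_range]
        refine ⟨?_, ?_⟩
        · rintro rfl
          exact (Polynomial.mem_support_iff.1 hn) hf2
        · exact Nat.lt_succ_of_le ((Polynomial.le_natDegree_of_mem_supp n hn).trans hf1)
      refine (Finset.card_le_card h2).trans ?_
      rw [Finset.card_erase_of_mem (by rw [Finset.mem_range]; omega), Finset.card_range]
      omega
    exact row_zero e he0 he y hy0 hye f Finset.univ c (fun t _ => hf3 t) s h1
      (hsupp.trans (by omega))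
  have hinj : Function.Injective (T.domRestrict (cubSpace e k c)) := by
    rw [← LinearMap.ker_eq_bot, LinearMap.ker_eq_bot']
    intro f hf
    apply Subtype.ext
    exact hker f.1 f.2 hf
  refine ⟨Module.Finite.of_injective _ hinj, ?_⟩
  have h1 := LinearMap.finrank_le_finrank_of_injective hinj
  rw [Module.finrank_fintype_fun_eq_card, Fintype.card_fin] at h1
  omega

/-- The restriction of a polynomial of degree at most `k`. -/
lemma cub_natDegree {k : ℕ} {F : MvPolynomial (Fin 2) ℝ}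
    (h : F ∈ LinearMap.range (toPS (tri (k + 1)))) :
    (cub F).natDegree ≤ 3 * k ∧ (cub F).coeff 1 = 0 := by
  have key : ∀ n, (3 * k < n ∨ n = 1) → (cub F).coeff n = 0 := by
    intro n hn
    obtain ⟨v, rfl⟩ := h
    rw [toPS, Fintype.linearCombination_apply, map_sum, Polynomial.finsetSum_coeff]
    apply Finset.sum_eq_zero
    intro q _
    have h2 := mem_tri.1 q.2
    have h3 : cub ((v q) • (X 0 ^ q.1.1 * X 1 ^ q.1.2 : MvPolynomial (Fin 2) ℝ)) =
        (v q) • Polynomial.X ^ (2 * q.1.1 + 3 * q.1.2) := by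
      rw [map_smul, map_mul, map_pow, map_pow, pow_add, pow_mul, pow_mul]
      simp [cub]
    rw [h3, Polynomial.coeff_smul, Polynomial.coeff_X_pow, if_neg, smul_zero]
    omega
  refine ⟨?_, key 1 (Or.inr rfl)⟩
  rw [Polynomial.natDegree_le_iff_coeff_eq_zero]
  intro n hn
  exact key n (Or.inl hn)

/-- The dimension of the kernel is at most the expected one. -/
lemma cub_ker_le {τ : Type*} [Fintype τ] {e : τ → ℝ} (he : Function.Injective e)
    (he0 : ∀ t, 0 < e t) {k : ℕ} {c : τ → ℕ} (h3 : ∀ U : Finset τ, U.card ≤ 3 → ∑ t ∈ U, c t ≤ k)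
    (hK : ∑ t, c t ≤ 3 * k) (hsq : ∑ t, c t ^ 2 < k ^ 2) :
    2 * hT (k - 2) (fun t => c t - 1) (cpt e) + ∑ t, (c t - 1) * (c t - 1 + 1) ≤
      (k - 2) * (k - 2 + 1) := by
  classical
  have hq : Function.Injective (cpt e) := by
    intro t t' htt
    apply he
    have h1 : e t ^ 2 = e t' ^ 2 := congrFun htt 0
    exact (sq_eq_sq₀ (he0 t).le (he0 t').le).1 h1
  have hstd : Std (k + 1) c :=
    ⟨fun U hU => by have := h3 U hU; omega, by omega⟩
  have hlt : ∀ t, c t < k := by
    intro t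
    have h1 : c t ^ 2 ≤ ∑ t, c t ^ 2 :=
      Finset.single_le_sum (f := fun t => c t ^ 2) (fun t _ => Nat.zero_le _) (Finset.mem_univ t)
    exact lt_of_pow_lt_pow_left₀ 2 (Nat.zero_le _) (h1.trans_lt hsq)
  set U := Finset.univ.filter (fun t => c t ≠ 0) with hU
  rcases Nat.lt_or_ge U.card 3 with h4 | h4
  · apply hT_two hq (k - 2) (fun t => c t - 1) U (Nat.le_of_lt_succ h4)
    · intro t ht
      by_contra hcon
      apply ht
      rw [hU, Finset.mem_filter]
      refine ⟨Finset.mem_univ t, ?_⟩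
      intro h0
      apply hcon
      show c t - 1 = 0
      omega
    · have hsum1 : ∑ t ∈ U, (c t - 1) + U.card = ∑ t ∈ U, c t := by
        rw [Finset.card_eq_sum_ones, ← Finset.sum_add_distrib]
        refine Finset.sum_congr rfl fun t ht => ?_
        rw [hU, Finset.mem_filter] at ht
        omega
      have h5 := h3 U (by omega)
      rcases Nat.lt_or_ge U.card 2 with h6 | h6
      · rcases Nat.lt_or_ge U.card 1 with h7 | h7
        · have h8 : U = ∅ := Finset.card_eq_zero.1 (by omega)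
          rw [h8]
          simp
        · obtain ⟨t, ht⟩ := Finset.card_eq_one.1 (show U.card = 1 by omega)
          rw [ht, Finset.sum_singleton]
          have := hlt t
          omega
      · omega
  · have h5 := hstd.sub h4
    rw [show k + 1 - 3 = k - 2 by omega] at h5
    exact h5.2.hT_le he he0

/-- Curves with given restriction to the cuspidal cubic. -/
theorem exists_cub_eq {τ : Type*} [Fintype τ] {e : τ → ℝ} (he : Function.Injective e)
    (he0 : ∀ t, 0 < e t) {k : ℕ} {c : τ → ℕ} (h3 : ∀ U : Finset τ, U.card ≤ 3 → ∑ t ∈ U, c t ≤ k)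
    (hK : ∑ t, c t ≤ 3 * k) (hsq : ∑ t, c t ^ 2 < k ^ 2) (w : Polynomial ℝ)
    (hw : w.natDegree ≤ 3 * k) (hw1 : w.coeff 1 = 0)
    (hdvd : ∀ t, (Polynomial.X - Polynomial.C (e t)) ^ c t ∣ w) :
    ∃ f ∈ Lsys (k + 1) c (cpt e), cub f = w := by
  classical
  have hk : 1 ≤ k := by
    rcases Nat.eq_zero_or_pos k with h0 | h0
    · subst h0
      simp at hsq
    · exact h0
  obtain ⟨hfin, hZ⟩ := cubSpace_finrank he he0 hk hK
  set W := (Lsys (k + 1) c (cpt e)).map cub.toLinearMap with hW
  have hle : W ≤ cubSpace e k c := by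
    rintro _ ⟨F, hF, rfl⟩
    obtain ⟨hF1, hF2⟩ := Submodule.mem_inf.1 hF
    rw [mem_vanish] at hF2
    obtain ⟨a1, a2⟩ := cub_natDegree hF1
    exact ⟨a1, a2, fun t => CubA.dvd_cub (hF2 t)⟩
  have hker := cub_ker_le he he0 h3 hK hsq
  have h5 := finrank_cub_ker he0 (N := k + 1) c
  rw [show k + 1 - 3 = k - 2 by omega] at h5
  have : Module.Finite ℝ ↥(Lsys (k + 1) c (cpt e)) := by
    have h1 : Module.Finite ℝ ↥(LinearMap.range (toPS (tri (k + 1)))) := inferInstance
    rw [Lsys]
    exact Submodule.finiteDimensional_inf_left _ _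
  have h6 : hT (k + 1) c (cpt e) ≤ Module.finrank ℝ ↥W +
      Module.finrank ℝ ↥(Lsys (k + 1) c (cpt e) ⊓ LinearMap.ker cub.toLinearMap) := by
    have h7 := LinearMap.finrank_range_add_finrank_ker
      (cub.toLinearMap.domRestrict (Lsys (k + 1) c (cpt e)))
    rw [LinearMap.range_domRestrict, ← hW] at h7
    have h8 : Module.finrank ℝ
        ↥(LinearMap.ker (cub.toLinearMap.domRestrict (Lsys (k + 1) c (cpt e)))) ≤
        Module.finrank ℝ ↥(Lsys (k + 1) c (cpt e) ⊓ LinearMap.ker cub.toLinearMap) := by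
      have : Module.Finite ℝ ↥(Lsys (k + 1) c (cpt e) ⊓ LinearMap.ker cub.toLinearMap) :=
        Submodule.finiteDimensional_inf_left _ _
      apply LinearMap.finrank_le_finrank_of_injective
        (f := (((Lsys (k + 1) c (cpt e)).subtype).domRestrict
          (LinearMap.ker (cub.toLinearMap.domRestrict (Lsys (k + 1) c (cpt e))))).codRestrict
          (Lsys (k + 1) c (cpt e) ⊓ LinearMap.ker cub.toLinearMap) (fun x => ⟨x.1.2, x.2⟩))
      intro x y hxy
      have := congrArg Subtype.val hxy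
      exact Subtype.ext (Subtype.ext this)
    unfold hT
    omega
  have h7 := hT_ge (k + 1) c (cpt e)
  have h8 := sum_sub_one c
  have hdim : 3 * k ≤ Module.finrank ℝ ↥W + ∑ t, c t := by
    rw [h8] at h7
    rcases Nat.lt_or_ge k 2 with h9 | h9
    · have h10 : k = 1 := by omega
      subst h10
      omega
    · obtain ⟨x, rfl⟩ : ∃ x, k = x + 2 := ⟨k - 2, by omega⟩
      rw [show x + 2 - 2 = x by omega] at hker h5
      nlinarith
  have heq : W = cubSpace e k c :=
    Submodule.eq_of_le_of_finrank_le hle (by omega)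
  have hwm : w ∈ W := by
    rw [heq]
    exact ⟨hw, hw1, hdvd⟩
  obtain ⟨F, hF, hFw⟩ := hwm
  exact ⟨F, hF, hFw⟩

end Pool.MP_70e04f_ag.Nine
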