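import Pool.Agent.Lib_MP_70e04f_nine.PosRoot
import Pool.Agent.Lib_MP_70e04f_nine.CubSur
import Pool.Agent.Lib_MP_70e04f_nine.CubFact

/-!
# An irreducible curve of the given class (piece CURVE)

PAPER PROOF. Let `s = 3 k - ∑ c t - 1` and `v = posProd e c s`, `natDegree v = 3 k - 1 ≥ 1`. By
`coeff_posProd` `ρ = - v.coeff 0 / v.coeff 1 > 0`, and `w = v * (X + C ρ)` has degree `3 k`, leading
coefficient `1`, `w.coeff 1 = v.coeff 0 + ρ * v.coeff 1 = 0`, and is divisible by
`(X - C (e t)) ^ c t`. Take `f` from `exists_cub_eq`, `cub f = w`, and `P = ![(-ρ) ^ 2, (-ρ) ^ 3]`.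

`top`: `coeff_cub_top`: the coefficient is `w.coeff (3 k) = 1`; `deg`: `totalDegree f ≤ k`
(`mem_range_tri`), and `mon 0 k` is in the support. `exact`: otherwise
`(X - C (e t)) ^ (c t + 1) ∣ w` (`CubA.dvd_cub`); cancel `(X - C (e t)) ^ c t` and evaluate at
`e t`: the other factors `e t - e t'`, `e t - 1`, `e t + ρ` are not zero. `zero`: `CubA.eval_cub`.
`smooth`: if both partial derivatives vanish at `P` then `derivative w` vanishes at `-ρ`
(`derivative_cub`, `CubA.eval_cub`), but `derivative w = derivative v * (X + C ρ) + v` has the value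
`v.eval (-ρ) ≠ 0` (all roots of `v` are positive).

`irr`: `f` is not a unit (it vanishes at `P`). Let `f = g * h`. Then
`totalDegree g + totalDegree h = k` (`totalDegree_mul_of_isDomain`),
`natDegree (cub g) + natDegree (cub h) = 3 k`, so `natDegree_cub_le` is an equality for both.
`X + C ρ` is prime, so it divides `cub g` or `cub h`; if `cub g = (X + C ρ) * g'` then
`g' * cub h = v`, so `cub h ∣ v`, and `coeff_cub_one`, `natDegree_eq_zero_of_dvd` give
`natDegree (cub h) = 0`, so `totalDegree h = 0` and `h` is a nonzero constant, a unit. The other case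
is symmetric.
-/

namespace Pool.MP_70e04f_ag.Nine

open MvPolynomial Pool.MP_70e04f_ag.Hex Pool.MP_70e04f_ag.Add

/-- One half of the irreducibility. -/
private lemma curve_unit {τ : Type*} [Fintype τ] {e : τ → ℝ} (he : Function.Injective e)
    (he1 : ∀ t, 1 < e t) {c : τ → ℕ} {s : ℕ} {ρ : ℝ} {g h : MvPolynomial (Fin 2) ℝ}
    (hgh : cub g * cub h = posProd e c s * (Polynomial.X + Polynomial.C ρ))
    (hg : (Polynomial.X + Polynomial.C ρ) ∣ cub g)
    (hh0 : h ≠ 0) (hdeg : (cub h).natDegree = 3 * h.totalDegree) : IsUnit h := by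
  obtain ⟨g', hg'⟩ := hg
  have hX : (Polynomial.X + Polynomial.C ρ : Polynomial ℝ) ≠ 0 :=
    (Polynomial.monic_X_add_C ρ).ne_zero
  have h1 : g' * cub h = posProd e c s := by
    apply mul_left_cancel₀ hX
    rw [← mul_assoc, ← hg', hgh, mul_comm]
  have h2 : cub h ∣ posProd e c s := ⟨g', by rw [← h1, mul_comm]⟩
  have h3 := natDegree_eq_zero_of_dvd he he1 h2 (coeff_cub_one h)
  have h4 : h.totalDegree = 0 := by omega
  rw [totalDegree_eq_zero_iff_eq_C] at h4
  rw [h4]
  have h5 : coeff 0 h ≠ 0 := by
    intro h6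
    apply hh0
    rw [h4, h6, C_0]
  exact (isUnit_iff_ne_zero.mpr h5).map C

/-- An irreducible curve of the given class, smooth at a point. -/
theorem exists_curve {τ : Type*} [Fintype τ] {e : τ → ℝ} (he : Function.Injective e)
    (he1 : ∀ t, 1 < e t) {k : ℕ} {c : τ → ℕ} (h3 : ∀ U : Finset τ, U.card ≤ 3 → ∑ t ∈ U, c t ≤ k)
    (hK : ∑ t, c t + 1 ≤ 3 * k) (hsq : ∑ t, c t ^ 2 < k ^ 2) :
    ∃ (f : MvPolynomial (Fin 2) ℝ) (P : Fin 2 → ℝ), IsCurve k c (cpt e) f P := by
  classical
  have hk : 1 ≤ k := by
    rcases Nat.eq_zero_or_pos k with h | h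
    · subst h
      simp at hsq
    · exact h
  obtain ⟨s, hs⟩ : ∃ s : ℕ, ∑ t, c t + s = 3 * k - 1 := ⟨3 * k - 1 - ∑ t, c t, by omega⟩
  set v : Polynomial ℝ := posProd e c s with hv
  have hvmonic : v.Monic := by
    rw [hv, posProd]
    refine Polynomial.Monic.mul ?_ ((Polynomial.monic_X_sub_C 1).pow s)
    exact Polynomial.monic_prod_of_monic _ _ (fun t _ => (Polynomial.monic_X_sub_C (e t)).pow _)
  have hv01 := coeff_posProd he1 c s (by omega : 1 ≤ ∑ t, c t + s)
  rw [← hv] at hv01
  have hv1 : v.coeff 1 ≠ 0 := by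
    intro h
    rw [h, mul_zero] at hv01
    exact lt_irrefl _ hv01
  have hvdeg : v.natDegree = 3 * k - 1 := by rw [hv, natDegree_posProd, hs]
  obtain ⟨ρ, hρ⟩ : ∃ ρ : ℝ, ρ = - v.coeff 0 / v.coeff 1 := ⟨_, rfl⟩
  have hρ0 : 0 < ρ := by
    have h1 : ρ = -(v.coeff 0 * v.coeff 1) / (v.coeff 1) ^ 2 := by
      rw [hρ]
      field_simp
    rw [h1]
    apply div_pos (by linarith)
    positivity
  set w : Polynomial ℝ := v * (Polynomial.X + Polynomial.C ρ) with hw
  have hwmonic : w.Monic := hvmonic.mul (Polynomial.monic_X_add_C ρ)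
  have hwdeg : w.natDegree = 3 * k := by
    rw [hw, hvmonic.natDegree_mul (Polynomial.monic_X_add_C ρ), hvdeg,
      Polynomial.natDegree_X_add_C]
    omega
  have hw1 : w.coeff 1 = 0 := by
    rw [hw, mul_add, Polynomial.coeff_add, Polynomial.coeff_mul_C,
      show (1 : ℕ) = 0 + 1 from rfl, Polynomial.coeff_mul_X, hρ]
    field_simp
    ring
  have hdvd : ∀ t, (Polynomial.X - Polynomial.C (e t)) ^ c t ∣ w := by
    intro t
    rw [hw, hv, posProd]
    exact ((Finset.dvd_prod_of_mem (fun t => (Polynomial.X - Polynomial.C (e t)) ^ c t)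
      (Finset.mem_univ t)).mul_right _).mul_right _
  obtain ⟨f, hf, hfw⟩ := exists_cub_eq he (fun t => zero_lt_one.trans (he1 t)) h3 (by omega) hsq w
    hwdeg.le hw1 hdvd
  have hfdeg : f.totalDegree ≤ k := mem_range_tri.1 (Submodule.mem_inf.1 hf).1
  have htop : coeff (mon 0 k) f = 1 := by
    rw [← coeff_cub_top hfdeg, hfw, ← hwdeg]
    exact hwmonic
  have hveval : v.eval (-ρ) ≠ 0 := by
    rw [hv, posProd, Polynomial.eval_mul, Polynomial.eval_prod, Polynomial.eval_pow]
    refine mul_ne_zero (Finset.prod_ne_zero_iff.mpr ?_) (pow_ne_zero _ ?_)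
    · intro t _
      rw [Polynomial.eval_pow]
      apply pow_ne_zero
      rw [Polynomial.eval_sub, Polynomial.eval_X, Polynomial.eval_C]
      have := he1 t
      intro h
      linarith
    · rw [Polynomial.eval_sub, Polynomial.eval_X, Polynomial.eval_C]
      intro h
      linarith
  refine ⟨f, ![(-ρ) ^ 2, (-ρ) ^ 3], hf, ?_, ?_, ?_, ?_, ?_, ?_⟩
  · -- irreducible
    refine ⟨?_, ?_⟩
    · intro hu
      have h1 : IsUnit (cub f) := hu.map cub
      rw [hfw] at h1
      have h2 := Polynomial.natDegree_eq_zero_of_isUnit h1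
      omega
    · intro g h hgh
      have hf0 : f ≠ 0 := by
        rintro rfl
        simp at htop
      have hg0 : g ≠ 0 := by
        rintro rfl
        exact hf0 (by rw [hgh, zero_mul])
      have hh0 : h ≠ 0 := by
        rintro rfl
        exact hf0 (by rw [hgh, mul_zero])
      have hmul : cub g * cub h = w := by rw [← map_mul, ← hgh, hfw]
      have hw0 : w ≠ 0 := hwmonic.ne_zero
      have hcg : cub g ≠ 0 := by
        intro h0
        rw [h0, zero_mul] at hmul
        exact hw0 hmul.symm
      have hch : cub h ≠ 0 := by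
        intro h0
        rw [h0, mul_zero] at hmul
        exact hw0 hmul.symm
      have hd1 : (cub g).natDegree + (cub h).natDegree = 3 * k := by
        rw [← Polynomial.natDegree_mul hcg hch, hmul, hwdeg]
      have hd2 : g.totalDegree + h.totalDegree ≤ k := by
        rw [← totalDegree_mul_of_isDomain hg0 hh0, ← hgh]
        exact hfdeg
      have hd3 := natDegree_cub_le g
      have hd4 := natDegree_cub_le h
      have hprime : Prime (Polynomial.X + Polynomial.C ρ : Polynomial ℝ) := by
        have := Polynomial.prime_X_sub_C (-ρ)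
        rwa [map_neg, sub_neg_eq_add] at this
      have hdiv : (Polynomial.X + Polynomial.C ρ : Polynomial ℝ) ∣ cub g * cub h := by
        rw [hmul, hw]
        exact Dvd.intro_left _ rfl
      rcases hprime.dvd_or_dvd hdiv with h1 | h1
      · right
        exact curve_unit he he1 (by rw [hmul, hw]) h1 hh0 (by omega)
      · left
        exact curve_unit he he1 (by rw [mul_comm, hmul, hw]) h1 hg0 (by omega)
  · -- degree
    apply le_antisymm hfdeg
    have h1 : mon 0 k ∈ f.support := by
      rw [mem_support_iff, htop]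
      exact one_ne_zero
    have h2 := le_totalDegree h1
    have h4 : (mon 0 k).sum (fun _ e => e) = (mon 0 k).degree := rfl
    rw [h4, degree_mon, zero_add] at h2
    exact h2
  · rw [htop]
    exact one_ne_zero
  · -- exact multiplicities
    intro t ht
    have h1 : (Polynomial.X - Polynomial.C (e t)) ^ (c t + 1) ∣ cub f := CubA.dvd_cub ht
    rw [hfw, hw, hv, posProd, ← Finset.mul_prod_erase Finset.univ _ (Finset.mem_univ t), pow_succ,
      mul_assoc, mul_assoc] at h1
    have h2 := (mul_dvd_mul_iff_left (pow_ne_zero _ (Polynomial.X_sub_C_ne_zero (e t)))).1 h1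
    rw [Polynomial.dvd_iff_isRoot, Polynomial.IsRoot.def, Polynomial.eval_mul,
      Polynomial.eval_prod, Polynomial.eval_mul, Polynomial.eval_pow] at h2
    revert h2
    refine mul_ne_zero (Finset.prod_ne_zero_iff.mpr ?_) (mul_ne_zero (pow_ne_zero _ ?_) ?_)
    · intro t' ht'
      rw [Polynomial.eval_pow]
      apply pow_ne_zero
      rw [Polynomial.eval_sub, Polynomial.eval_X, Polynomial.eval_C]
      intro h
      exact (Finset.ne_of_mem_erase ht') (he (by linarith))
    · rw [Polynomial.eval_sub, Polynomial.eval_X, Polynomial.eval_C]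
      have := he1 t
      intro h
      linarith
    · rw [Polynomial.eval_add, Polynomial.eval_X, Polynomial.eval_C]
      have := he1 t
      intro h
      linarith
  · -- the point
    rw [← CubA.eval_cub, hfw, hw, Polynomial.eval_mul, Polynomial.eval_add, Polynomial.eval_X,
      Polynomial.eval_C, neg_add_cancel, mul_zero]
  · -- smooth
    by_contra hcon
    push Not at hcon
    have h1 := congrArg (Polynomial.eval (-ρ)) (derivative_cub f)
    rw [hfw, hw] at h1
    simp only [Polynomial.derivative_mul, Polynomial.derivative_add, Polynomial.derivative_X,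
      Polynomial.derivative_C, Polynomial.eval_add, Polynomial.eval_mul, Polynomial.eval_X,
      Polynomial.eval_C, Polynomial.eval_pow, add_zero, mul_one, CubA.eval_cub] at h1
    rw [hcon.1, hcon.2] at h1
    simp only [mul_zero, add_zero, neg_add_cancel, zero_add] at h1
    exact hveval h1

end Pool.MP_70e04f_ag.Nine
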