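import Pool.Agent.Lib_MP_70e04f_nine.Rows2
import Pool.Agent.Lib_MP_70e04f_nine.Curve
import Pool.Agent.Lib_MP_70e04f_hex.Generic

/-!
# Adding small points along a curve of any standard class

`D = (M + 1) C + F` on the large points `T`, with `C` and `F` in standard position and
`C ^ 2 > 7 m + s`.
-/

namespace Pool.MP_70e04f_ag.Nine

open MvPolynomial Pool.MP_70e04f_ag.Hex Pool.MP_70e04f_ag.Add

/-- A set of exponents with constant slopes in the first rows. -/
theorem ok_of_rows {n : ℕ} (m s M σ N : ℕ) (mm : Fin n → ℕ) (Q : Finset (ℕ × ℕ))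
    (h7 : 7 * m + s < σ) (hM : 2 * m ≤ M) (hmm : ∀ i, mm i ≤ M)
    (hs : (Finset.univ.filter (fun i => m < mm i)).card ≤ s)
    (hex : ∀ j, j < M → rowc Q j = rowc Q (j + 1) + σ)
    (hup2 : ∀ j, 1 ≤ rowc Q (j + 1) → rowc Q (j + 1) + 2 * m ≤ rowc Q j)
    (hbig : ∀ j, N ≤ j → rowc Q j = 0) (hMN : M + 1 ≤ N) (hMrow : 0 < rowc Q (M + 1)) :
    OK Q mm := by
  classical
  obtain ⟨J, hJ⟩ : ∃ J, J = Nat.findGreatest (fun j => 0 < rowc Q j) N := ⟨_, rfl⟩
  have hMJ : M + 1 ≤ J := by
    rw [hJ]
    exact Nat.le_findGreatest hMN hMrow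
  have hJrow : 0 < rowc Q J := by
    have := Nat.findGreatest_spec (P := fun j => 0 < rowc Q j) hMN hMrow
    rw [← hJ] at this
    exact this
  have hJzero : ∀ j, J < j → rowc Q j = 0 := by
    intro j hj
    rcases Nat.lt_or_ge N j with h | h
    · exact hbig j h.le
    · have := Nat.findGreatest_is_greatest (P := fun j => 0 < rowc Q j) (n := N) (k := j)
        (by rw [← hJ]; exact hj) h
      omega
  have hrowpos : ∀ x j, j + x = J → 0 < rowc Q j := by
    intro x
    induction x with
    | zero => intro j h; rw [show j = J by omega]; exact hJrow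
    | succ x ih =>
      intro j h
      have h1 := ih (j + 1) (by omega)
      have h2 := hup2 j h1
      omega
  have hhopf : ∀ j, j < J → rowc Q (j + 1) + 2 * m + 0 ≤ rowc Q j := by
    intro j hj
    have h1 : 0 < rowc Q (j + 1) := hrowpos (J - (j + 1)) (j + 1) (by omega)
    have h2 := hup2 j h1
    omega
  have hact := fun j => act_le mm m j s hs
  have hact0 : ∀ j, M ≤ j → act mm m j = 0 := by
    intro j hj
    unfold act
    rw [Finset.card_eq_zero, Finset.filter_eq_empty_iff]
    intro i _ h
    have := hmm i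
    omega
  have hslope : ∀ j, j < J → rowc Q (j + 1) + 2 * m + act mm m j ≤ rowc Q j := by
    intro j hj
    rcases Nat.lt_or_ge j M with h1 | h1
    · have := hex j h1
      have := hact j
      omega
    · rw [hact0 j h1]
      exact hhopf j hj
  obtain ⟨b, c, g1, -, g3⟩ := fill_abstract mm m J (rowc Q) (by omega)
    (fun i => (hmm i).trans (by omega)) hJzero
    (by
      have h1 := peak_aux mm m M (rowc Q) (2 * m) (fun j _ hj => by
          have := hex j hj
          have := hact j
          omega) hmm (M - 2 * m) (2 * m) le_rfl (by omega)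
      have h2 := hslope M (by omega)
      omega)
    (by
      intro j hj
      have h1 := hslope j hj
      unfold act at h1
      omega)
    (by
      intro j hj
      have h1 := hex j (by omega)
      have h2 := hact j
      unfold act at h2
      omega)
    (by
      intro j hj
      have h1 := hex j (by omega)
      have h2 := hex (j + 1) (by omega)
      have e : j + 1 + 1 = j + 2 := rfl
      rw [e] at h2
      omega)
  exact OK.of_front Q mm b c g1 g3

/-- Adding small points along a curve. -/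
theorem class_small {τ : Type*} [Fintype τ] {n : ℕ} (k m s M N σ : ℕ) (mT c : τ → ℕ)
    (q : τ → Fin 2 → ℝ) (f : MvPolynomial (Fin 2) ℝ) (P : Fin 2 → ℝ) (hf : IsCurve k c q f P)
    (mm : Fin n → ℕ) (hk : 1 ≤ k) (h7 : 7 * m + s < σ) (hM : 2 * m ≤ M)
    (hmm : ∀ i, mm i ≤ M) (hs : (Finset.univ.filter (fun i => m < mm i)).card ≤ s)
    (hC : 2 * m + 2 ≤ hT (k + 1) c q)
    (hex : ∀ j, j < M → hT (N - j * k) (fun t => mT t - j * c t) q +
        hT (N - (j + 2) * k) (fun t => mT t - (j + 2) * c t) q =
      2 * hT (N - (j + 1) * k) (fun t => mT t - (j + 1) * c t) q + σ)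
    (hMN : (M + 1) * k < N)
    (hpos : 0 < hT (N - (M + 1) * k) (fun t => mT t - (M + 1) * c t) q)
    (h0 : 2 * hT N mT q + ∑ t, mT t * (mT t + 1) = N * (N + 1)) :
    OK (tri N) (Sum.elim mT mm) := by
  classical
  obtain ⟨Q, hQ0, hQ1, hQ2, hQ3⟩ := exists_rows2 (N := N) hk (m := mT) hf (by omega)
  have hdown : ∀ j, 1 ≤ rowc Q (j + 1) → rowc Q (j + 1) + 2 * m ≤ rowc Q j := by
    intro j hj
    have := hQ2 j hj
    omega
  have hbig : ∀ j, N ≤ j → rowc Q j = 0 := by
    intro j hj
    have h1 := hQ1 j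
    have h2 : N ≤ j * k := hj.trans (Nat.le_mul_of_pos_right j hk)
    have h3 : hT (N - j * k) (fun t => mT t - j * c t) q = 0 := by
      rw [show N - j * k = 0 by omega, hT_zero]
    omega
  have hup : ∀ j x, rowc Q j = 0 → rowc Q (j + x) = 0 := by
    intro j x
    induction x with
    | zero => intro h; exact h
    | succ x ih =>
      intro h
      have h1 := ih h
      by_contra hcon
      have := hQ2 (j + x) (by
        have e : j + x + 1 = j + (x + 1) := rfl
        rw [e]; omega)
      have e : j + x + 1 = j + (x + 1) := rfl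
      rw [e] at this
      omega
  have hMrow : 0 < rowc Q (M + 1) := by
    by_contra hcon
    have h0 : rowc Q (M + 1) = 0 := by omega
    have h1 : ∀ x, hT (N - (M + 1 + x) * k) (fun t => mT t - (M + 1 + x) * c t) q =
        hT (N - (M + 1) * k) (fun t => mT t - (M + 1) * c t) q := by
      intro x
      induction x with
      | zero => rfl
      | succ x ih =>
        have h2 := hQ1 (M + 1 + x)
        rw [hup (M + 1) x h0] at h2
        rw [← ih, ← h2]
        have e : M + 1 + (x + 1) = M + 1 + x + 1 := rfl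
        rw [e]; omega
    have h2 := h1 N
    have h3 : N ≤ (M + 1 + N) * k := by nlinarith
    rw [show N - (M + 1 + N) * k = 0 by omega, hT_zero] at h2
    omega
  have hMN' : M + 1 ≤ N := by
    have := Nat.le_mul_of_pos_right (M + 1) hk
    omega
  have hOK : OK Q mm := by
    apply ok_of_rows m s M σ N mm Q h7 hM hmm hs _ hdown hbig hMN' hMrow
    intro j hj
    have b0 := hQ1 j
    have b1 := hQ1 (j + 1)
    have e : j + 1 + 1 = j + 2 := rfl
    rw [e] at b1
    have := hex j hj
    omega
  obtain ⟨p, hp⟩ := hQ3 n mm hOK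
  refine ⟨Sum.elim q p, ?_⟩
  have h1 := hT_eq N (Sum.elim mT mm) (Sum.elim q p)
  have h2 : Lsys N (Sum.elim mT mm) (Sum.elim q p) = Lsys N mT q ⊓ vanish mm p := by
    ext F
    unfold Lsys
    rw [Submodule.mem_inf, Submodule.mem_inf, Submodule.mem_inf, mem_vanish, mem_vanish,
      mem_vanish]
    constructor
    · rintro ⟨h1, h2⟩
      exact ⟨⟨h1, fun t => h2 (Sum.inl t)⟩, fun i => h2 (Sum.inr i)⟩
    · rintro ⟨⟨h1, h2⟩, h3⟩
      refine ⟨h1, ?_⟩
      rintro (t | i)
      · exact h2 t
      · exact h3 i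
  have h3 : hT N (Sum.elim mT mm) (Sum.elim q p) ≤
      hT N mT q - Fintype.card (Σ i : Fin n, ↥(tri (mm i))) := by
    unfold hT
    rw [h2]
    exact hp
  have h5 := two_card_tri N
  have h6 : 2 * Fintype.card (Σ t : τ, ↥(tri (mT t))) = ∑ t, mT t * (mT t + 1) := by
    rw [Fintype.card_sigma, Finset.mul_sum]
    refine Finset.sum_congr rfl fun t _ => ?_
    rw [Fintype.card_coe, two_card_tri]
  have h7 : Fintype.card (Σ x : τ ⊕ Fin n, ↥(tri (Sum.elim mT mm x))) =
      Fintype.card (Σ t : τ, ↥(tri (mT t))) + Fintype.card (Σ i : Fin n, ↥(tri (mm i))) := by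
    rw [Fintype.card_sigma, Fintype.card_sigma, Fintype.card_sigma, Fintype.sum_sum_type]
    rfl
  unfold Good
  rw [← h1, Fintype.card_coe, h7]
  omega

end Pool.MP_70e04f_ag.Nine
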