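import Pool.Agent.Lib_MP_70e04f_nine.Core
import Pool.Agent.Lib_MP_70e04f_std.Std

/-!
# The nine point theorem
-/

namespace Pool.MP_70e04f_ag.Nine

set_option linter.unusedSimpArgs false

open Pool.MP_70e04f_ag.Hex Pool.MP_70e04f_ag.Add

/-- The self-intersection in terms of the coefficients. -/
lemma PP_self {ν : ℕ → ℕ} (hν : Antitone ν) {d : ℕ} (hd : ν 0 + ν 1 + ν 2 ≤ d) :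
    PP (d - (ν 0 + ν 1 + ν 2)) (ν 0 - ν 1) (ν 1 - ν 2) (ν 2 - ν 3) (ν 3 - ν 4)
      (ν 4 - ν 5) (ν 5 - ν 6) (ν 6 - ν 7) (ν 7 - ν 8) (ν 8) +
      (ν 0 ^ 2 + ν 1 ^ 2 + ν 2 ^ 2 + ν 3 ^ 2 + ν 4 ^ 2 + ν 5 ^ 2 + ν 6 ^ 2 + ν 7 ^ 2 + ν 8 ^ 2) =
      d ^ 2 := by
  have h := PP_eq (d - (ν 0 + ν 1 + ν 2)) (ν 0 - ν 1) (ν 1 - ν 2) (ν 2 - ν 3) (ν 3 - ν 4)
      (ν 4 - ν 5) (ν 5 - ν 6) (ν 6 - ν 7) (ν 7 - ν 8) (ν 8)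
  have a0 := hν (show 0 ≤ 1 by norm_num)
  have a1 := hν (show 1 ≤ 2 by norm_num)
  have a2 := hν (show 2 ≤ 3 by norm_num)
  have a3 := hν (show 3 ≤ 4 by norm_num)
  have a4 := hν (show 4 ≤ 5 by norm_num)
  have a5 := hν (show 5 ≤ 6 by norm_num)
  have a6 := hν (show 6 ≤ 7 by norm_num)
  have a7 := hν (show 7 ≤ 8 by norm_num)
  have u1 : (ν 0 - ν 1) + (ν 1 - ν 2) + (ν 2 - ν 3) + (ν 3 - ν 4) + (ν 4 - ν 5) + (ν 5 - ν 6) + (ν 6 - ν 7) + (ν 7 - ν 8) + ν 8 = ν 0 := by omega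
  have u2 : (ν 1 - ν 2) + (ν 2 - ν 3) + (ν 3 - ν 4) + (ν 4 - ν 5) + (ν 5 - ν 6) + (ν 6 - ν 7) + (ν 7 - ν 8) + ν 8 = ν 1 := by omega
  have u3 : (ν 2 - ν 3) + (ν 3 - ν 4) + (ν 4 - ν 5) + (ν 5 - ν 6) + (ν 6 - ν 7) + (ν 7 - ν 8) + ν 8 = ν 2 := by omega
  have u4 : (ν 3 - ν 4) + (ν 4 - ν 5) + (ν 5 - ν 6) + (ν 6 - ν 7) + (ν 7 - ν 8) + ν 8 = ν 3 := by omega
  have u5 : (ν 4 - ν 5) + (ν 5 - ν 6) + (ν 6 - ν 7) + (ν 7 - ν 8) + ν 8 = ν 4 := by omega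
  have u6 : (ν 5 - ν 6) + (ν 6 - ν 7) + (ν 7 - ν 8) + ν 8 = ν 5 := by omega
  have u7 : (ν 6 - ν 7) + (ν 7 - ν 8) + ν 8 = ν 6 := by omega
  have u8 : (ν 7 - ν 8) + ν 8 = ν 7 := by omega
  have u9 : ν 8 = ν 8 := by omega
  rw [u1, u2, u3, u4, u5, u6, u7, u8, u9] at h
  rw [h]
  congr 1
  omega

/-- Rounding down each coefficient. -/
lemma PP_round {ν : ℕ → ℕ} (hν : Antitone ν) {m d : ℕ} (hd : ν 0 + ν 1 + ν 2 ≤ d)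
    (hsq : ν 0 ^ 2 + ν 1 ^ 2 + ν 2 ^ 2 + ν 3 ^ 2 + ν 4 ^ 2 + ν 5 ^ 2 + ν 6 ^ 2 + ν 7 ^ 2 +
      ν 8 ^ 2 + 3100 * m ^ 3 ≤ d ^ 2) :
    3100 * m ^ 3 ≤ (2 * m + 1) ^ 2 * PP ((d - (ν 0 + ν 1 + ν 2)) / (2 * m + 1)) ((ν 0 - ν 1) / (2 * m + 1)) ((ν 1 - ν 2) / (2 * m + 1)) ((ν 2 - ν 3) / (2 * m + 1)) ((ν 3 - ν 4) / (2 * m + 1)) ((ν 4 - ν 5) / (2 * m + 1)) ((ν 5 - ν 6) / (2 * m + 1)) ((ν 6 - ν 7) / (2 * m + 1)) ((ν 7 - ν 8) / (2 * m + 1)) (ν 8 / (2 * m + 1)) + 4 * m * (2 * m + 1) * BB ((d - (ν 0 + ν 1 + ν 2)) / (2 * m + 1)) ((ν 0 - ν 1) / (2 * m + 1)) ((ν 1 - ν 2) / (2 * m + 1)) ((ν 2 - ν 3) / (2 * m + 1)) ((ν 3 - ν 4) / (2 * m + 1)) ((ν 4 - ν 5) / (2 * m + 1)) ((ν 5 - ν 6) / (2 * m + 1)) ((ν 6 - ν 7) / (2 * m + 1)) ((ν 7 - ν 8) / (2 * m + 1)) (ν 8 /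 (2 * m + 1)) + 1360 * m ^ 2 := by
  have h1 := PP_self hν hd
  have hdiv : ∀ a, a ≤ (2 * m + 1) * (a / (2 * m + 1)) + 2 * m := by
    intro a
    have h2 := Nat.div_add_mod a (2 * m + 1)
    have h3 := Nat.mod_lt a (show 0 < 2 * m + 1 by omega)
    omega
  have h2 := PP_le m _ _ _ _ _ _ _ _ _ _ _ _ _ _ _ _ _ _ _ _ (hdiv (d - (ν 0 + ν 1 + ν 2))) (hdiv (ν 0 - ν 1)) (hdiv (ν 1 - ν 2)) (hdiv (ν 2 - ν 3)) (hdiv (ν 3 - ν 4)) (hdiv (ν 4 - ν 5)) (hdiv (ν 5 - ν 6)) (hdiv (ν 6 - ν 7)) (hdiv (ν 7 - ν 8)) (hdiv (ν 8))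
  omega

lemma big9 {ν : ℕ → ℕ} (hν : Antitone ν) {m d : ℕ} (hm : 1 ≤ m)
    (hd : ν 0 + ν 1 + ν 2 ≤ d) (hr : 2 * m + 1 ≤ ν 8)
    (hs : 1 ≤ (d - (ν 0 + ν 1 + ν 2)) / (2 * m + 1) + (ν 0 - ν 1) / (2 * m + 1) + (ν 1 - ν 2) / (2 * m + 1) + (ν 2 - ν 3) / (2 * m + 1) + (ν 3 - ν 4) / (2 * m + 1) + (ν 4 - ν 5) / (2 * m + 1) + (ν 5 - ν 6) / (2 * m + 1) + (ν 6 - ν 7) / (2 * m + 1) + (ν 7 - ν 8) / (2 * m + 1))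
    (hsq : ν 0 ^ 2 + ν 1 ^ 2 + ν 2 ^ 2 + ν 3 ^ 2 + ν 4 ^ 2 + ν 5 ^ 2 + ν 6 ^ 2 + ν 7 ^ 2 +
      ν 8 ^ 2 + 3100 * m ^ 3 ≤ d ^ 2) :
    7 * m + (9 - 9) < PP ((d - (ν 0 + ν 1 + ν 2)) / (2 * m + 1)) ((ν 0 - ν 1) / (2 * m + 1)) ((ν 1 - ν 2) / (2 * m + 1)) ((ν 2 - ν 3) / (2 * m + 1)) ((ν 3 - ν 4) / (2 * m + 1)) ((ν 4 - ν 5) / (2 * m + 1)) ((ν 5 - ν 6) / (2 * m + 1)) ((ν 6 - ν 7) / (2 * m + 1)) ((ν 7 - ν 8) / (2 * m + 1)) (ν 8 / (2 * m + 1)) := by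
  have h1 := PP_round hν hd hsq
  by_contra hcon
  have hc : 1 ≤ ν 8 / (2 * m + 1) := (Nat.one_le_div_iff (by omega)).2 hr
  have h2 := num9 m _ _ _ _ _ _ _ _ _ _ hm hc hs (by omega)
  omega

lemma PP_small (m a0 a1 a2 a3 a4 a5 a6 a7 a8 a9 : ℕ)
    (h0 : a0 ≤ 2 * m) (h1 : a1 ≤ 2 * m) (h2 : a2 ≤ 2 * m) (h3 : a3 ≤ 2 * m)
    (h4 : a4 ≤ 2 * m) (h5 : a5 ≤ 2 * m) (h6 : a6 ≤ 2 * m) (h7 : a7 ≤ 2 * m)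
    (h8 : a8 ≤ 2 * m) :
    PP a0 a1 a2 a3 a4 a5 a6 a7 a8 a9 ≤ m * (1120 * m + 120 * a9) := by
  have e : m * (1120 * m + 120 * a9) =
      PP (2 * m) (2 * m) (2 * m) (2 * m) (2 * m) (2 * m) (2 * m) (2 * m) (2 * m) a9 := by
    unfold PP
    ring
  rw [e]
  unfold PP
  gcongr

lemma big9' {ν : ℕ → ℕ} (hν : Antitone ν) {m d : ℕ} (hm : 1 ≤ m)
    (hd : ν 0 + ν 1 + ν 2 ≤ d)
    (hs : ¬ 1 ≤ (d - (ν 0 + ν 1 + ν 2)) / (2 * m + 1) + (ν 0 - ν 1) / (2 * m + 1) + (ν 1 - ν 2) / (2 * m + 1) + (ν 2 - ν 3) / (2 * m + 1) + (ν 3 - ν 4) / (2 * m + 1) + (ν 4 - ν 5) / (2 * m + 1) + (ν 5 - ν 6) / (2 * m + 1) + (ν 6 - ν 7) / (2 * m + 1) + (ν 7 - ν 8) / (2 * m + 1))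
    (hsq : ν 0 ^ 2 + ν 1 ^ 2 + ν 2 ^ 2 + ν 3 ^ 2 + ν 4 ^ 2 + ν 5 ^ 2 + ν 6 ^ 2 + ν 7 ^ 2 +
      ν 8 ^ 2 + 3100 * m ^ 3 ≤ d ^ 2) :
    3100 * m ^ 2 ≤ 120 * ν 8 + 1360 * m := by
  have hlt : ∀ a, a / (2 * m + 1) = 0 → a ≤ 2 * m := by
    intro a ha
    rcases (Nat.div_eq_zero_iff).1 ha with h4 | h4 <;> omega
  have h4 := Nat.lt_one_iff.mp (not_le.mp hs)
  simp only [Nat.add_eq_zero_iff] at h4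
  obtain ⟨⟨⟨⟨⟨⟨⟨⟨t0, t1⟩, t2⟩, t3⟩, t4⟩, t5⟩, t6⟩, t7⟩, t8⟩ := h4
  have h5 := PP_small m _ _ _ _ _ _ _ _ _ (ν 8) (hlt _ t0) (hlt _ t1) (hlt _ t2) (hlt _ t3)
    (hlt _ t4) (hlt _ t5) (hlt _ t6) (hlt _ t7) (hlt _ t8)
  have h6 := PP_self hν hd
  have h7 : m * (3100 * m ^ 2) ≤ m * (1120 * m + 120 * ν 8) := by
    have e1 : m * (3100 * m ^ 2) = 3100 * m ^ 3 := by ring
    omega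
  have h8 := Nat.le_of_mul_le_mul_left h7 (by omega)
  omega

lemma big8 {ν : ℕ → ℕ} (hν : Antitone ν) {m d : ℕ} (hm : 1 ≤ m)
    (hd : ν 0 + ν 1 + ν 2 ≤ d) (hr : 2 * m + 1 ≤ ν 7)
    (hz : ∀ j, 8 ≤ j → ν j = 0)
    (hsq : ν 0 ^ 2 + ν 1 ^ 2 + ν 2 ^ 2 + ν 3 ^ 2 + ν 4 ^ 2 + ν 5 ^ 2 + ν 6 ^ 2 + ν 7 ^ 2 +
      ν 8 ^ 2 + 3100 * m ^ 3 ≤ d ^ 2) :
    7 * m + (9 - 8) < PP ((d - (ν 0 + ν 1 + ν 2)) / (2 * m + 1)) ((ν 0 - ν 1) / (2 * m + 1)) ((ν 1 - ν 2) / (2 * m + 1)) ((ν 2 - ν 3) / (2 * m + 1)) ((ν 3 - ν 4) / (2 * m + 1)) ((ν 4 - ν 5) / (2 * m + 1)) ((ν 5 - ν 6) / (2 * m + 1)) ((ν 6 - ν 7) / (2 * m + 1)) ((ν 7 - ν 8) / (2 * m + 1)) (ν 8 / (2 * m + 1)) := by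
  have h1 := PP_round hν hd hsq
  by_contra hcon
  have z8 : ν 8 = 0 := hz 8 (by norm_num)
  simp only [z8, Nat.sub_zero, Nat.zero_sub, Nat.zero_div, Nat.sub_self, Nat.add_zero] at h1 hcon
  have hc : 1 ≤ ν 7 / (2 * m + 1) := (Nat.one_le_div_iff (by omega)).2 hr
  have h2 := num8 m _ _ _ _ _ _ _ _ (ν 7 / (2 * m + 1)) hm hc (by simpa using hcon)
  omega

lemma big7 {ν : ℕ → ℕ} (hν : Antitone ν) {m d : ℕ} (hm : 1 ≤ m)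
    (hd : ν 0 + ν 1 + ν 2 ≤ d) (hr : 2 * m + 1 ≤ ν 6)
    (hz : ∀ j, 7 ≤ j → ν j = 0)
    (hsq : ν 0 ^ 2 + ν 1 ^ 2 + ν 2 ^ 2 + ν 3 ^ 2 + ν 4 ^ 2 + ν 5 ^ 2 + ν 6 ^ 2 + ν 7 ^ 2 +
      ν 8 ^ 2 + 3100 * m ^ 3 ≤ d ^ 2) :
    7 * m + (9 - 7) < PP ((d - (ν 0 + ν 1 + ν 2)) / (2 * m + 1)) ((ν 0 - ν 1) / (2 * m + 1)) ((ν 1 - ν 2) / (2 * m + 1)) ((ν 2 - ν 3) / (2 * m + 1)) ((ν 3 - ν 4) / (2 * m + 1)) ((ν 4 - ν 5) / (2 * m + 1)) ((ν 5 - ν 6) / (2 * m + 1)) ((ν 6 - ν 7) / (2 * m + 1)) ((ν 7 - ν 8) / (2 * m + 1)) (ν 8 / (2 * m + 1)) := by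
  have h1 := PP_round hν hd hsq
  by_contra hcon
  have z7 : ν 7 = 0 := hz 7 (by norm_num)
  have z8 : ν 8 = 0 := hz 8 (by norm_num)
  simp only [z7, z8, Nat.sub_zero, Nat.zero_sub, Nat.zero_div, Nat.sub_self, Nat.add_zero] at h1 hcon
  have hc : 1 ≤ ν 6 / (2 * m + 1) := (Nat.one_le_div_iff (by omega)).2 hr
  have h2 := num7 m _ _ _ _ _ _ _ (ν 6 / (2 * m + 1)) hm hc (by simpa using hcon)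
  omega

lemma big6 {ν : ℕ → ℕ} (hν : Antitone ν) {m d : ℕ} (hm : 1 ≤ m)
    (hd : ν 0 + ν 1 + ν 2 ≤ d) (hr : 2 * m + 1 ≤ ν 5)
    (hz : ∀ j, 6 ≤ j → ν j = 0)
    (hsq : ν 0 ^ 2 + ν 1 ^ 2 + ν 2 ^ 2 + ν 3 ^ 2 + ν 4 ^ 2 + ν 5 ^ 2 + ν 6 ^ 2 + ν 7 ^ 2 +
      ν 8 ^ 2 + 3100 * m ^ 3 ≤ d ^ 2) :
    7 * m + (9 - 6) < PP ((d - (ν 0 + ν 1 + ν 2)) / (2 * m + 1)) ((ν 0 - ν 1) / (2 * m + 1)) ((ν 1 - ν 2) / (2 * m + 1)) ((ν 2 - ν 3) / (2 * m + 1)) ((ν 3 - ν 4) / (2 * m + 1)) ((ν 4 - ν 5) / (2 * m + 1)) ((ν 5 - ν 6) / (2 * m + 1)) ((ν 6 - ν 7) / (2 * m + 1)) ((ν 7 - ν 8) / (2 * m + 1)) (ν 8 / (2 * m + 1)) := by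
  have h1 := PP_round hν hd hsq
  by_contra hcon
  have z6 : ν 6 = 0 := hz 6 (by norm_num)
  have z7 : ν 7 = 0 := hz 7 (by norm_num)
  have z8 : ν 8 = 0 := hz 8 (by norm_num)
  simp only [z6, z7, z8, Nat.sub_zero, Nat.zero_sub, Nat.zero_div, Nat.sub_self, Nat.add_zero] at h1 hcon
  have hc : 1 ≤ ν 5 / (2 * m + 1) := (Nat.one_le_div_iff (by omega)).2 hr
  have h2 := num6 m _ _ _ _ _ _ (ν 5 / (2 * m + 1)) hm hc (by simpa using hcon)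
  omega

lemma big5 {ν : ℕ → ℕ} (hν : Antitone ν) {m d : ℕ} (hm : 1 ≤ m)
    (hd : ν 0 + ν 1 + ν 2 ≤ d) (hr : 2 * m + 1 ≤ ν 4)
    (hz : ∀ j, 5 ≤ j → ν j = 0)
    (hsq : ν 0 ^ 2 + ν 1 ^ 2 + ν 2 ^ 2 + ν 3 ^ 2 + ν 4 ^ 2 + ν 5 ^ 2 + ν 6 ^ 2 + ν 7 ^ 2 +
      ν 8 ^ 2 + 3100 * m ^ 3 ≤ d ^ 2) :
    7 * m + (9 - 5) < PP ((d - (ν 0 + ν 1 + ν 2)) / (2 * m + 1)) ((ν 0 - ν 1) / (2 * m + 1)) ((ν 1 - ν 2) / (2 * m + 1)) ((ν 2 - ν 3) / (2 * m + 1)) ((ν 3 - ν 4) / (2 * m + 1)) ((ν 4 - ν 5) / (2 * m + 1)) ((ν 5 - ν 6) / (2 * m + 1)) ((ν 6 - ν 7) / (2 * m + 1)) ((ν 7 - ν 8) / (2 * m + 1)) (ν 8 / (2 * m + 1)) := by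
  have h1 := PP_round hν hd hsq
  by_contra hcon
  have z5 : ν 5 = 0 := hz 5 (by norm_num)
  have z6 : ν 6 = 0 := hz 6 (by norm_num)
  have z7 : ν 7 = 0 := hz 7 (by norm_num)
  have z8 : ν 8 = 0 := hz 8 (by norm_num)
  simp only [z5, z6, z7, z8, Nat.sub_zero, Nat.zero_sub, Nat.zero_div, Nat.sub_self, Nat.add_zero] at h1 hcon
  have hc : 1 ≤ ν 4 / (2 * m + 1) := (Nat.one_le_div_iff (by omega)).2 hr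
  have h2 := num5 m _ _ _ _ _ (ν 4 / (2 * m + 1)) hm hc (by simpa using hcon)
  omega

lemma big4 {ν : ℕ → ℕ} (hν : Antitone ν) {m d : ℕ} (hm : 1 ≤ m)
    (hd : ν 0 + ν 1 + ν 2 ≤ d) (hr : 2 * m + 1 ≤ ν 3)
    (hz : ∀ j, 4 ≤ j → ν j = 0)
    (hsq : ν 0 ^ 2 + ν 1 ^ 2 + ν 2 ^ 2 + ν 3 ^ 2 + ν 4 ^ 2 + ν 5 ^ 2 + ν 6 ^ 2 + ν 7 ^ 2 +
      ν 8 ^ 2 + 3100 * m ^ 3 ≤ d ^ 2) :
    7 * m + (9 - 4) < PP ((d - (ν 0 + ν 1 + ν 2)) / (2 * m + 1)) ((ν 0 - ν 1) / (2 * m + 1)) ((ν 1 - ν 2) / (2 * m + 1)) ((ν 2 - ν 3) / (2 * m + 1)) ((ν 3 - ν 4) / (2 * m + 1)) ((ν 4 - ν 5) / (2 * m + 1)) ((ν 5 - ν 6) / (2 * m + 1)) ((ν 6 - ν 7) / (2 * m + 1)) ((ν 7 - ν 8) / (2 * m + 1)) (ν 8 / (2 * m + 1)) := by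
  have h1 := PP_round hν hd hsq
  by_contra hcon
  have z4 : ν 4 = 0 := hz 4 (by norm_num)
  have z5 : ν 5 = 0 := hz 5 (by norm_num)
  have z6 : ν 6 = 0 := hz 6 (by norm_num)
  have z7 : ν 7 = 0 := hz 7 (by norm_num)
  have z8 : ν 8 = 0 := hz 8 (by norm_num)
  simp only [z4, z5, z6, z7, z8, Nat.sub_zero, Nat.zero_sub, Nat.zero_div, Nat.sub_self, Nat.add_zero] at h1 hcon
  have hc : 1 ≤ ν 3 / (2 * m + 1) := (Nat.one_le_div_iff (by omega)).2 hr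
  have h2 := num4 m _ _ _ _ (ν 3 / (2 * m + 1)) hm hc (by simpa using hcon)
  omega

lemma big3 {ν : ℕ → ℕ} (hν : Antitone ν) {m d : ℕ} (hm : 1 ≤ m)
    (hd : ν 0 + ν 1 + ν 2 ≤ d) (hr : 2 * m + 1 ≤ ν 2)
    (hz : ∀ j, 3 ≤ j → ν j = 0)
    (hsq : ν 0 ^ 2 + ν 1 ^ 2 + ν 2 ^ 2 + ν 3 ^ 2 + ν 4 ^ 2 + ν 5 ^ 2 + ν 6 ^ 2 + ν 7 ^ 2 +
      ν 8 ^ 2 + 3100 * m ^ 3 ≤ d ^ 2) :
    7 * m + (9 - 3) < PP ((d - (ν 0 + ν 1 + ν 2)) / (2 * m + 1)) ((ν 0 - ν 1) / (2 * m + 1)) ((ν 1 - ν 2) / (2 * m + 1)) ((ν 2 - ν 3) / (2 * m + 1)) ((ν 3 - ν 4) / (2 * m + 1)) ((ν 4 - ν 5) / (2 * m + 1)) ((ν 5 - ν 6) / (2 * m + 1)) ((ν 6 - ν 7) / (2 * m + 1)) ((ν 7 - ν 8) / (2 * m + 1)) (ν 8 / (2 * m + 1)) := by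
  have h1 := PP_round hν hd hsq
  by_contra hcon
  have z3 : ν 3 = 0 := hz 3 (by norm_num)
  have z4 : ν 4 = 0 := hz 4 (by norm_num)
  have z5 : ν 5 = 0 := hz 5 (by norm_num)
  have z6 : ν 6 = 0 := hz 6 (by norm_num)
  have z7 : ν 7 = 0 := hz 7 (by norm_num)
  have z8 : ν 8 = 0 := hz 8 (by norm_num)
  simp only [z3, z4, z5, z6, z7, z8, Nat.sub_zero, Nat.zero_sub, Nat.zero_div, Nat.sub_self, Nat.add_zero] at h1 hcon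
  have hc : 1 ≤ ν 2 / (2 * m + 1) := (Nat.one_le_div_iff (by omega)).2 hr
  have h2 := num3 m _ _ _ (ν 2 / (2 * m + 1)) hm hc (by simpa using hcon)
  omega

lemma big2 {ν : ℕ → ℕ} (hν : Antitone ν) {m d : ℕ} (hm : 1 ≤ m)
    (hd : ν 0 + ν 1 + ν 2 ≤ d) (hr : 2 * m + 1 ≤ ν 1)
    (hz : ∀ j, 2 ≤ j → ν j = 0)
    (hsq : ν 0 ^ 2 + ν 1 ^ 2 + ν 2 ^ 2 + ν 3 ^ 2 + ν 4 ^ 2 + ν 5 ^ 2 + ν 6 ^ 2 + ν 7 ^ 2 +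
      ν 8 ^ 2 + 3100 * m ^ 3 ≤ d ^ 2) :
    7 * m + (9 - 2) < PP ((d - (ν 0 + ν 1 + ν 2)) / (2 * m + 1)) ((ν 0 - ν 1) / (2 * m + 1)) ((ν 1 - ν 2) / (2 * m + 1)) ((ν 2 - ν 3) / (2 * m + 1)) ((ν 3 - ν 4) / (2 * m + 1)) ((ν 4 - ν 5) / (2 * m + 1)) ((ν 5 - ν 6) / (2 * m + 1)) ((ν 6 - ν 7) / (2 * m + 1)) ((ν 7 - ν 8) / (2 * m + 1)) (ν 8 / (2 * m + 1)) := by
  have h1 := PP_round hν hd hsq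
  by_contra hcon
  have z2 : ν 2 = 0 := hz 2 (by norm_num)
  have z3 : ν 3 = 0 := hz 3 (by norm_num)
  have z4 : ν 4 = 0 := hz 4 (by norm_num)
  have z5 : ν 5 = 0 := hz 5 (by norm_num)
  have z6 : ν 6 = 0 := hz 6 (by norm_num)
  have z7 : ν 7 = 0 := hz 7 (by norm_num)
  have z8 : ν 8 = 0 := hz 8 (by norm_num)
  simp only [z2, z3, z4, z5, z6, z7, z8, Nat.sub_zero, Nat.zero_sub, Nat.zero_div, Nat.sub_self, Nat.add_zero] at h1 hcon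
  have hc : 1 ≤ ν 1 / (2 * m + 1) := (Nat.one_le_div_iff (by omega)).2 hr
  have h2 := num2 m _ _ (ν 1 / (2 * m + 1)) hm hc (by simpa using hcon)
  omega

end Pool.MP_70e04f_ag.Nine
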