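import Pool.Agent.Lib_MP_70e04f_nine.Defs

/-!
# The branch through the origin (piece HENSEL)

PAPER PROOF. Identify `MvPolynomial (Fin 2) ℝ` with `ℝ[x][y]` by the algebra isomorphism `θ` with
`θ (X 0) = C x`, `θ (X 1) = y` (e.g. `aeval ![Polynomial.C Polynomial.X, Polynomial.X]`, inverse
`eval₂`). As `totalDegree g ≤ k`, the coefficient of `y ^ k` in `θ g` is the constant
`u = coeff (mon 0 k) g ≠ 0`, and the higher ones vanish; so `G0 = u⁻¹ • θ g` is monic of degree `k`
in `y`, and irreducible. Map it to `ℝ⟦x⟧[y]`: it has the simple root `0` modulo `(x)` (`g` vanishes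
at the origin, `pderiv 1 g` does not). The ring `ℝ⟦x⟧` is complete for the ideal `(x)`
(instance in `Mathlib.RingTheory.AdicCompletion.Completeness`), so
`HenselianRing.is_henselian` gives a root `η` with `η - 0 ∈ (x)`, i.e. `constantCoeff η = 0`.
Now `η` is integral over `ℝ[x]` (algebra structure `ℝ[x] → ℝ⟦x⟧`, `PowerSeries.algebraPolynomial`),
and `ℝ[x]` is integrally closed, so `minpoly.isIntegrallyClosed_dvd` says: a polynomial of `ℝ[x][y]`
vanishes at `η` iff it is divisible by `minpoly ℝ[x] η`. As `G0` is irreducible and divisible by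
the minimal polynomial (not a unit), they are associated. So `G` vanishes at `η` iff `G0 ∣ G`.
-/

namespace Pool.MP_70e04f_ag.Nine

open MvPolynomial Pool.MP_70e04f_ag.Hex Pool.MP_70e04f_ag.Add

/-- Bivariate polynomials as polynomials in the second variable. -/
noncomputable def hTheta : MvPolynomial (Fin 2) ℝ →ₐ[ℝ] Polynomial (Polynomial ℝ) :=
  aeval ![Polynomial.C Polynomial.X, Polynomial.X]

/-- The inverse of `hTheta`. -/
noncomputable def hPsi : Polynomial (Polynomial ℝ) →+* MvPolynomial (Fin 2) ℝ :=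
  Polynomial.eval₂RingHom
    (Polynomial.aeval (X 0 : MvPolynomial (Fin 2) ℝ) : Polynomial ℝ →ₐ[ℝ] _).toRingHom (X 1)

lemma hTheta_C (r : ℝ) : hTheta (C r) = Polynomial.C (Polynomial.C r) := by
  rw [hTheta, ← MvPolynomial.algebraMap_eq, AlgHom.commutes]
  rfl

lemma hTheta_X0 : hTheta (X 0) = Polynomial.C Polynomial.X := by
  simp [hTheta]

lemma hTheta_X1 : hTheta (X 1) = Polynomial.X := by
  simp [hTheta]

lemma hPsi_comp : hPsi.comp (hTheta : MvPolynomial (Fin 2) ℝ →+* _) = RingHom.id _ := by
  apply MvPolynomial.ringHom_ext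
  · intro r
    rw [RingHom.comp_apply, RingHom.coe_coe, hTheta_C]
    simp [hPsi]
  · intro i
    fin_cases i
    · change hPsi (hTheta (X 0)) = X 0
      rw [hTheta_X0]
      simp [hPsi]
    · change hPsi (hTheta (X 1)) = X 1
      rw [hTheta_X1]
      simp [hPsi]

lemma hTheta_comp : (hTheta : MvPolynomial (Fin 2) ℝ →+* _).comp hPsi = RingHom.id _ := by
  apply Polynomial.ringHom_ext
  · intro p
    have h1 : ((hTheta : MvPolynomial (Fin 2) ℝ →+* _).comp hPsi).comp
        (Polynomial.C : Polynomial ℝ →+* _) = Polynomial.C := by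
      apply Polynomial.ringHom_ext
      · intro r
        change hTheta (hPsi (Polynomial.C (Polynomial.C r))) = _
        have : hPsi (Polynomial.C (Polynomial.C r)) = C r := by simp [hPsi]
        rw [this, hTheta_C]
      · change hTheta (hPsi (Polynomial.C Polynomial.X)) = _
        have : hPsi (Polynomial.C Polynomial.X) = X 0 := by simp [hPsi]
        rw [this, hTheta_X0]
    exact congrArg (fun f : Polynomial ℝ →+* Polynomial (Polynomial ℝ) => f p) h1
  · change hTheta (hPsi Polynomial.X) = _
    have : hPsi Polynomial.X = X 1 := by simp [hPsi]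
    rw [this, hTheta_X1]
    rfl

/-- The ring isomorphism. -/
noncomputable def hEquiv : MvPolynomial (Fin 2) ℝ ≃+* Polynomial (Polynomial ℝ) :=
  RingEquiv.ofRingHom (hTheta : MvPolynomial (Fin 2) ℝ →+* _) hPsi hTheta_comp hPsi_comp

lemma hEquiv_apply (g : MvPolynomial (Fin 2) ℝ) : hEquiv g = hTheta g := rfl

/-- The coefficients. -/
lemma coeff_hTheta (g : MvPolynomial (Fin 2) ℝ) (i j : ℕ) :
    ((hTheta g).coeff j).coeff i = coeff (mon i j) g := by
  classical
  induction g using MvPolynomial.induction_on' with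
  | monomial s r =>
    have h1 : hTheta (monomial s r) =
        Polynomial.C (Polynomial.C r * Polynomial.X ^ (s 0)) * Polynomial.X ^ (s 1) := by
      rw [hTheta, aeval_monomial, Finsupp.prod_fintype _ _ (fun i => pow_zero _),
        Fin.prod_univ_two, map_mul, map_pow, mul_assoc]
      rfl
    rw [h1, Polynomial.coeff_C_mul_X_pow, coeff_monomial]
    by_cases hj : j = s 1
    · rw [if_pos hj, Polynomial.coeff_C_mul_X_pow]
      by_cases hi : i = s 0
      · rw [if_pos hi, if_pos (by rw [hi, hj, mon_eta])]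
      · rw [if_neg hi, if_neg]
        intro h
        exact hi (by rw [h, mon_zero'])
    · rw [if_neg hj, Polynomial.coeff_zero, if_neg]
      intro h
      exact hj (by rw [h, mon_one'])
  | add p q hp hq =>
    rw [map_add, Polynomial.coeff_add, Polynomial.coeff_add, hp, hq, coeff_add]

/-- Evaluation at a power series. -/
lemma aeval_hTheta (η : PowerSeries ℝ) (G : MvPolynomial (Fin 2) ℝ) :
    Polynomial.aeval (R := Polynomial ℝ) η (hTheta G) =
      aeval (R := ℝ) ![(PowerSeries.X : PowerSeries ℝ), η] G := by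
  have h : (Polynomial.aeval (R := Polynomial ℝ) η :
      Polynomial (Polynomial ℝ) →+* PowerSeries ℝ).comp
      (hTheta : MvPolynomial (Fin 2) ℝ →+* _) =
      (aeval (R := ℝ) ![(PowerSeries.X : PowerSeries ℝ), η] :
        MvPolynomial (Fin 2) ℝ →+* PowerSeries ℝ) := by
    apply MvPolynomial.ringHom_ext
    · intro r
      change Polynomial.aeval (R := Polynomial ℝ) η (hTheta (C r)) = aeval (R := ℝ) _ (C r)
      rw [hTheta_C, Polynomial.aeval_C, MvPolynomial.aeval_C, PowerSeries.algebraMap_apply']
      simp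
    · intro i
      fin_cases i
      · change Polynomial.aeval (R := Polynomial ℝ) η (hTheta (X 0)) = aeval (R := ℝ) _ (X 0)
        rw [hTheta_X0, Polynomial.aeval_C, MvPolynomial.aeval_X, PowerSeries.algebraMap_apply']
        simp
      · change Polynomial.aeval (R := Polynomial ℝ) η (hTheta (X 1)) = aeval (R := ℝ) _ (X 1)
        rw [hTheta_X1, Polynomial.aeval_X, MvPolynomial.aeval_X]
        rfl
  exact congrArg (fun f : MvPolynomial (Fin 2) ℝ →+* PowerSeries ℝ => f G) h

lemma hens_eval_zero (g : MvPolynomial (Fin 2) ℝ) :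
    MvPolynomial.eval 0 g = coeff (mon 0 0) g := by
  have : mon 0 0 = 0 := by simp [mon]
  rw [this, ← constantCoeff_eq]
  simp [MvPolynomial.eval, constantCoeff]

lemma hens_eval_pderiv (g : MvPolynomial (Fin 2) ℝ) :
    MvPolynomial.eval 0 (pderiv 1 g) = coeff (mon 0 1) g := by
  classical
  rw [hens_eval_zero]
  induction g using MvPolynomial.induction_on' with
  | monomial s r =>
    rw [pderiv_monomial, coeff_monomial, coeff_monomial]
    by_cases hs : s = mon 0 1
    · subst hs
      have h1 : mon 0 1 - Finsupp.single 1 1 = mon 0 0 := by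
        ext i
        fin_cases i <;> simp [mon]
      rw [if_pos h1, if_pos rfl, mon_one']
      simp
    · rw [if_neg hs]
      split_ifs with h
      · have h0 : s 0 = 0 := by
          have := DFunLike.congr_fun h 0
          simpa [mon] using this
        have h1 : s 1 - 1 = 0 := by
          have := DFunLike.congr_fun h 1
          simpa [mon] using this
        have h2 : s 1 = 0 := by
          by_contra h3
          apply hs
          rw [← mon_eta s, h0]
          congr 1
          omega
        rw [h2]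
        simp
      · rfl
  | add p q hp hq => rw [map_add, coeff_add, coeff_add, hp, hq]

lemma hens_coeff_zero {g : MvPolynomial (Fin 2) ℝ} {i j : ℕ} (h : g.totalDegree < i + j) :
    coeff (mon i j) g = 0 := by
  by_contra hne
  have h1 := le_totalDegree (mem_support_iff.mpr hne)
  have h2 : (mon i j).sum (fun _ e => e) = (mon i j).degree := rfl
  rw [h2, degree_mon] at h1
  omega

/-- The branch through the origin of an irreducible curve transversal to the vertical direction. -/
theorem exists_branch_zero {k : ℕ} {g : MvPolynomial (Fin 2) ℝ} (hk : 1 ≤ k)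
    (hirr : Irreducible g) (hdeg : g.totalDegree ≤ k) (htop : coeff (mon 0 k) g ≠ 0)
    (h0 : MvPolynomial.eval 0 g = 0) (h1 : MvPolynomial.eval 0 (pderiv 1 g) ≠ 0) :
    ∃ η : PowerSeries ℝ, PowerSeries.constantCoeff η = 0 ∧
      ∀ G : MvPolynomial (Fin 2) ℝ,
        aeval (R := ℝ) ![(PowerSeries.X : PowerSeries ℝ), η] G = 0 ↔ g ∣ G := by
  obtain ⟨u, hu⟩ : ∃ u : ℝ, u = coeff (mon 0 k) g := ⟨_, rfl⟩
  have hu0 : u ≠ 0 := by rw [hu]; exact htop
  obtain ⟨G0, hG0⟩ : ∃ G0 : Polynomial (Polynomial ℝ),
    G0 = Polynomial.C (Polynomial.C u⁻¹) * hTheta g := ⟨_, rfl⟩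
  have hcoeff : ∀ i j, (G0.coeff j).coeff i = u⁻¹ * coeff (mon i j) g := by
    intro i j
    rw [hG0, Polynomial.coeff_C_mul, Polynomial.coeff_C_mul, coeff_hTheta]
  have hdeg0 : G0.natDegree ≤ k := by
    rw [Polynomial.natDegree_le_iff_coeff_eq_zero]
    intro j hj
    ext i
    rw [hcoeff, hens_coeff_zero (by omega), mul_zero, Polynomial.coeff_zero]
  have hlead : G0.coeff k = 1 := by
    ext i
    rw [hcoeff, Polynomial.coeff_one]
    by_cases hi : i = 0
    · rw [if_pos hi, hi, ← hu, inv_mul_cancel₀ hu0]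
    · rw [if_neg hi, hens_coeff_zero (by omega), mul_zero]
  have hmonic : G0.Monic := Polynomial.monic_of_natDegree_le_of_coeff_eq_one k hdeg0 hlead
  have hunit : IsUnit (Polynomial.C (Polynomial.C u⁻¹) : Polynomial (Polynomial ℝ)) :=
    ((isUnit_iff_ne_zero.mpr (inv_ne_zero hu0)).map Polynomial.C).map Polynomial.C
  have hassoc : Associated (hTheta g) G0 := by
    rw [hG0]
    exact ⟨hunit.unit, by rw [IsUnit.unit_spec, mul_comm]⟩
  have hirr0 : Irreducible G0 := by
    apply hassoc.irreducible
    rw [← hEquiv_apply]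
    exact (MulEquiv.irreducible_iff hEquiv).2 hirr
  have hconst : ∀ p : Polynomial ℝ, PowerSeries.constantCoeff
      (algebraMap (Polynomial ℝ) (PowerSeries ℝ) p) = p.coeff 0 := by
    intro p
    rw [PowerSeries.algebraMap_apply']
    simp
  obtain ⟨F, hF⟩ : ∃ F : Polynomial (PowerSeries ℝ),
    F = G0.map (algebraMap (Polynomial ℝ) (PowerSeries ℝ)) := ⟨_, rfl⟩
  have hFm : F.Monic := by
    rw [hF]
    exact hmonic.map _
  have hF0 : PowerSeries.constantCoeff (F.eval 0) = 0 := by
    rw [← Polynomial.coeff_zero_eq_eval_zero, hF, Polynomial.coeff_map, hconst, hcoeff,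
      ← hens_eval_zero, h0, mul_zero]
  have hF1 : PowerSeries.constantCoeff (F.derivative.eval 0) ≠ 0 := by
    rw [← Polynomial.coeff_zero_eq_eval_zero, Polynomial.coeff_derivative, hF,
      Polynomial.coeff_map, map_mul, hconst, hcoeff, zero_add, ← hens_eval_pderiv]
    simp only [Nat.cast_zero, zero_add, map_one, mul_one]
    exact mul_ne_zero (inv_ne_zero hu0) h1
  have hhens : HenselianRing (PowerSeries ℝ) (Ideal.span {(PowerSeries.X : PowerSeries ℝ)}) :=
    inferInstance
  obtain ⟨η, hη, hη0⟩ := hhens.is_henselian F hFm 0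
    (by rw [Ideal.mem_span_singleton, PowerSeries.X_dvd_iff, hF0])
    ((PowerSeries.isUnit_iff_constantCoeff.mpr (isUnit_iff_ne_zero.mpr hF1)).map _)
  rw [sub_zero, Ideal.mem_span_singleton, PowerSeries.X_dvd_iff] at hη0
  refine ⟨η, hη0, ?_⟩
  have haev : Polynomial.aeval (R := Polynomial ℝ) η G0 = 0 := by
    rw [Polynomial.aeval_def, Polynomial.eval₂_eq_eval_map, ← hF]
    exact hη
  have hint : IsIntegral (Polynomial ℝ) η := ⟨G0, hmonic, haev⟩
  have hinj : Function.Injective (algebraMap (Polynomial ℝ) (PowerSeries ℝ)) := by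
    intro p q hpq
    rw [PowerSeries.algebraMap_apply', PowerSeries.algebraMap_apply'] at hpq
    ext n
    have := congrArg (PowerSeries.coeff n) hpq
    simpa using this
  have htf : Module.IsTorsionFree (Polynomial ℝ) (PowerSeries ℝ) :=
    Module.isTorsionFree_iff_algebraMap_injective.mpr hinj
  have hdvd : minpoly (Polynomial ℝ) η ∣ G0 := minpoly.isIntegrallyClosed_dvd hint haev
  have hassoc2 : Associated (minpoly (Polynomial ℝ) η) G0 := by
    obtain ⟨q, hq⟩ := hdvd
    rcases hirr0.isUnit_or_isUnit hq with h | h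
    · exact absurd h (minpoly.not_isUnit _ _)
    · exact ⟨h.unit, by rw [IsUnit.unit_spec]; exact hq.symm⟩
  intro G
  rw [← aeval_hTheta, minpoly.isIntegrallyClosed_dvd_iff hint, hassoc2.dvd_iff_dvd_left,
    ← hassoc.dvd_iff_dvd_left, ← hEquiv_apply, ← hEquiv_apply]
  exact map_dvd_iff hEquiv

end Pool.MP_70e04f_ag.Nine
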