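import Pool.Agent.Lib_MP_70e04f_nine.Shear
import Pool.Agent.Lib_MP_70e04f_nine.Hensel

/-!
# The branch of the curve at its smooth point
-/

namespace Pool.MP_70e04f_ag.Nine

open MvPolynomial Pool.MP_70e04f_ag.Hex Pool.MP_70e04f_ag.Add

/-- The branch of the curve at `P`. -/
theorem exists_branch {τ : Type*} {k : ℕ} {c : τ → ℕ} {q : τ → Fin 2 → ℝ}
    {f : MvPolynomial (Fin 2) ℝ} {P : Fin 2 → ℝ} (hk : 1 ≤ k) (hf : IsCurve k c q f P) :
    ∃ (lam : ℝ) (η : PowerSeries ℝ), PowerSeries.constantCoeff η = 0 ∧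
      lam * MvPolynomial.eval P (pderiv 0 f) + MvPolynomial.eval P (pderiv 1 f) ≠ 0 ∧
      ∀ G, br P lam η G = 0 ↔ f ∣ G := by
  obtain ⟨lam, h1, h2⟩ := exists_shear hf.deg.le hf.top hf.smooth
  obtain ⟨η, h3, h4⟩ := exists_branch_zero (g := shear P lam f) hk
    ((MulEquiv.irreducible_iff (AlgEquiv.ofBijective (shear P lam) (shear_bijective P lam))).2
      hf.irr)
    ((totalDegree_shear_le P lam f).trans hf.deg.le) h2 (by rw [eval_shear]; exact hf.zero)
    (by rw [pderiv_shear]; exact h1)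
  refine ⟨lam, η, h3, h1, fun G => ?_⟩
  have hc : br P lam η = (aeval (R := ℝ) ![(PowerSeries.X : PowerSeries ℝ), η]).comp
      (shear P lam) := by
    apply MvPolynomial.algHom_ext
    intro i
    fin_cases i
    · simp [br, shear, MvPolynomial.algebraMap_eq, ← PowerSeries.algebraMap_eq]
    · simp [br, shear, MvPolynomial.algebraMap_eq, ← PowerSeries.algebraMap_eq]
  rw [hc, AlgHom.comp_apply, h4]
  constructor
  · rintro ⟨H, hH⟩
    obtain ⟨H', rfl⟩ := (shear_bijective P lam).2 H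
    refine ⟨H', (shear_bijective P lam).1 ?_⟩
    rw [hH, map_mul]
  · rintro ⟨H, rfl⟩
    exact ⟨shear P lam H, map_mul _ _ _⟩

end Pool.MP_70e04f_ag.Nine
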