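import Pool.Agent.Lib_MP_70e04f_nine.Class

/-!
# Large multiplicities in standard position plus a multiple of a standard class
-/

namespace Pool.MP_70e04f_ag.Nine

open MvPolynomial Pool.MP_70e04f_ag.Hex Pool.MP_70e04f_ag.Add

/-- Sums of standard classes. -/
lemma Std.addClass {τ : Type*} [Fintype τ] {N k : ℕ} {x c : τ → ℕ} (h : Std N x)
    (h3 : ∀ U : Finset τ, U.card ≤ 3 → ∑ t ∈ U, c t ≤ k) (hK : ∑ t, c t ≤ 3 * k) (i : ℕ) :
    Std (N + i * k) (fun t => x t + i * c t) := by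
  constructor
  · intro U hU
    have h1 := h.1 U hU
    have h2 := Nat.mul_le_mul_left i (h3 U hU)
    rw [Finset.sum_add_distrib, ← Finset.mul_sum]
    omega
  · have h1 := h.2
    have h2 := Nat.mul_le_mul_left i hK
    have h3 : i * (3 * k) = 3 * (i * k) := by ring
    rw [Finset.sum_add_distrib, ← Finset.mul_sum]
    omega

/-- The second difference of the dimension. -/
lemma second_diff {τ : Type*} [Fintype τ] (k σ N : ℕ) (x c : τ → ℕ)
    (hσ : σ + ∑ t, c t ^ 2 = k ^ 2) (a0 a1 a2 : ℕ)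
    (h0 : 2 * a0 + ∑ t, x t * (x t + 1) = N * (N + 1))
    (h1 : 2 * a1 + ∑ t, (x t + c t) * (x t + c t + 1) = (N + k) * (N + k + 1))
    (h2 : 2 * a2 + ∑ t, (x t + 2 * c t) * (x t + 2 * c t + 1) = (N + 2 * k) * (N + 2 * k + 1)) :
    a2 + a0 = 2 * a1 + σ := by
  have e : ∑ t, (x t + 2 * c t) * (x t + 2 * c t + 1) + ∑ t, x t * (x t + 1) =
      2 * ∑ t, (x t + c t) * (x t + c t + 1) + 2 * ∑ t, c t ^ 2 := by
    rw [Finset.mul_sum, Finset.mul_sum, ← Finset.sum_add_distrib, ← Finset.sum_add_distrib]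
    refine Finset.sum_congr rfl fun t _ => ?_
    ring
  nlinarith

/-- Large multiplicities `(M + 1) C + F`, and small ones. -/
theorem tri_class {n : ℕ} (k m s M d : ℕ) (mm cc : Fin n → ℕ) (T : Finset (Fin n))
    (h7 : 7 * m + s + ∑ i ∈ T, cc i ^ 2 < k ^ 2) (hM : 2 * m ≤ M) (hmm : ∀ i, i ∉ T → mm i ≤ M)
    (hs : (Finset.univ.filter (fun i => i ∉ T ∧ m < mm i)).card ≤ s)
    (hC3 : ∀ U ⊆ T, U.card ≤ 3 → ∑ i ∈ U, cc i ≤ k) (hCK : ∑ i ∈ T, cc i + 1 ≤ 3 * k)
    (hFm : ∀ i ∈ T, (M + 1) * cc i ≤ mm i)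
    (hF3 : ∀ U ⊆ T, U.card ≤ 3 → ∑ i ∈ U, mm i + (M + 1) * k ≤ d + (M + 1) * ∑ i ∈ U, cc i)
    (hFK : ∑ i ∈ T, mm i + 3 * ((M + 1) * k) ≤ 3 * d + (M + 1) * ∑ i ∈ T, cc i) :
    OK (tri (d + 1)) mm := by
  classical
  apply tri_of_sum (d + 1) mm T
  obtain ⟨σ, hσ⟩ : ∃ σ, σ + ∑ i ∈ T, cc i ^ 2 = k ^ 2 := ⟨k ^ 2 - ∑ i ∈ T, cc i ^ 2, by omega⟩
  have hk : 1 ≤ k := by
    rcases Nat.eq_zero_or_pos k with h | h
    · subst h; simp at h7
    · exact h
  -- sums over the subtype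
  have sumU : ∀ (U : Finset ↥T) (g : Fin n → ℕ), ∑ t ∈ U, g t.1 =
      ∑ i ∈ U.map (Function.Embedding.subtype _), g i := by
    intro U g
    rw [Finset.sum_map]
    rfl
  have subU : ∀ U : Finset ↥T, U.map (Function.Embedding.subtype _) ⊆ T := by
    intro U i hi
    rw [Finset.mem_map] at hi
    obtain ⟨t, _, rfl⟩ := hi
    exact t.2
  have sumT : ∀ g : Fin n → ℕ, ∑ t : ↥T, g t.1 = ∑ i ∈ T, g i :=
    fun g => Finset.sum_coe_sort T g
  set c : ↥T → ℕ := fun t => cc t.1 with hc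
  set x : ↥T → ℕ := fun t => mm t.1 - (M + 1) * cc t.1 with hx
  have hxm : ∀ t : ↥T, x t + (M + 1) * c t = mm t.1 := fun t => Nat.sub_add_cancel (hFm t.1 t.2)
  have hC3' : ∀ U : Finset ↥T, U.card ≤ 3 → ∑ t ∈ U, c t ≤ k := by
    intro U hU
    rw [hc, sumU U cc]
    exact hC3 _ (subU U) (by rw [Finset.card_map]; exact hU)
  have hCK' : ∑ t, c t + 1 ≤ 3 * k := by rw [hc, sumT cc]; exact hCK
  have hsq : ∑ t, c t ^ 2 = ∑ i ∈ T, cc i ^ 2 := sumT (fun i => cc i ^ 2)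
  have hxU : ∀ U : Finset ↥T, ∑ t ∈ U, x t + (M + 1) * ∑ t ∈ U, c t = ∑ t ∈ U, mm t.1 := by
    intro U
    rw [Finset.mul_sum, ← Finset.sum_add_distrib]
    exact Finset.sum_congr rfl fun t _ => hxm t
  have h0 := hF3 ∅ (by simp) (by simp)
  simp only [Finset.sum_empty, Nat.mul_zero, Nat.zero_add, Nat.add_zero] at h0
  obtain ⟨N, hN⟩ : ∃ N, N + (M + 1) * k = d + 1 := ⟨d + 1 - (M + 1) * k, by omega⟩
  have hstd : Std N x := by
    constructor
    · intro U hU
      have h1 := hF3 _ (subU U) (by rw [Finset.card_map]; exact hU)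
      rw [← sumU U mm, ← sumU U cc] at h1
      have h2 := hxU U
      have h3 : ∑ t ∈ U, c t = ∑ t ∈ U, cc t.1 := rfl
      rw [h3] at h2
      omega
    · have h2 := hxU Finset.univ
      rw [sumT mm] at h2
      have h3 : ∑ t, c t = ∑ i ∈ T, cc i := sumT cc
      rw [h3] at h2
      omega
  let e : ↥T → ℝ := fun t => ((t.1 : ℕ) : ℝ) + 2
  have he : Function.Injective e := by
    intro a b hab
    have h1 : ((a.1 : ℕ) : ℝ) = ((b.1 : ℕ) : ℝ) := by simpa [e] using hab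
    exact Subtype.ext (Fin.ext (Nat.cast_injective h1))
  have he1 : ∀ t, 1 < e t := by
    intro t
    have : (0 : ℝ) ≤ ((t.1 : ℕ) : ℝ) := Nat.cast_nonneg _
    simp only [e]
    linarith
  have he0 : ∀ t, 0 < e t := fun t => by have := he1 t; linarith
  obtain ⟨f, P, hf⟩ := exists_curve he he1 (k := k) (c := c) hC3' hCK' (by rw [hsq]; omega)
  -- exact dimensions
  have hex : ∀ i, 2 * hT (N + i * k) (fun t => x t + i * c t) (cpt e) +
      ∑ t, (x t + i * c t) * (x t + i * c t + 1) = (N + i * k) * (N + i * k + 1) := by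
    intro i
    have h1 := (Std.addClass hstd hC3' (by omega) i).hT_le he he0
    have h2 := hT_ge (N + i * k) (fun t => x t + i * c t) (cpt e)
    omega
  have hrow : ∀ j i, j + i = M + 1 → hT (d + 1 - j * k) (fun t : ↥T => mm t.1 - j * c t) (cpt e) =
      hT (N + i * k) (fun t => x t + i * c t) (cpt e) := by
    intro j i hji
    have e1 : d + 1 - j * k = N + i * k := by
      have : (M + 1) * k = j * k + i * k := by rw [← hji]; ring
      omega
    have e2 : (fun t : ↥T => mm t.1 - j * c t) = fun t => x t + i * c t := by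
      funext t
      have h1 := hxm t
      have : (M + 1) * c t = j * c t + i * c t := by rw [← hji]; ring
      omega
    rw [e1, e2]
  have hC : 2 * m + 2 ≤ hT (k + 1) c (cpt e) := by
    have h1 := hT_ge (k + 1) c (cpt e)
    have h2 : ∑ t, c t * (c t + 1) = ∑ t, c t ^ 2 + ∑ t, c t := by
      rw [← Finset.sum_add_distrib]
      refine Finset.sum_congr rfl fun t _ => ?_
      ring
    rw [h2, hsq] at h1
    nlinarith
  apply class_small k m s M (d + 1) σ (fun t : ↥T => mm t.1) c (cpt e) f P hf _ hk (by omega) hM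
  · intro i
    split_ifs with h
    · exact Nat.zero_le _
    · exact hmm i h
  · refine le_trans (Finset.card_le_card ?_) hs
    intro i hi
    rw [Finset.mem_filter] at hi ⊢
    have h2 := hi.2
    split_ifs at h2 with h
    · omega
    · exact ⟨hi.1, h, h2⟩
  · exact hC
  · intro j hj
    obtain ⟨i, hi⟩ : ∃ i, j + 2 + i = M + 1 := ⟨M + 1 - (j + 2), by omega⟩
    rw [hrow j (i + 2) (by omega), hrow (j + 1) (i + 1) (by omega), hrow (j + 2) i (by omega)]
    have a0 := hex i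
    have a1 := hex (i + 1)
    have a2 := hex (i + 2)
    have e1 : ∀ t, x t + (i + 1) * c t = x t + i * c t + c t := fun t => by ring
    have e2 : ∀ t, x t + (i + 2) * c t = x t + i * c t + 2 * c t := fun t => by ring
    have e3 : N + (i + 1) * k = N + i * k + k := by ring
    have e4 : N + (i + 2) * k = N + i * k + 2 * k := by ring
    simp only [e1, e3] at a1 ⊢
    simp only [e2, e4] at a2 ⊢
    exact second_diff k σ (N + i * k) (fun t => x t + i * c t) c (by rw [hsq]; exact hσ)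
      _ _ _ a0 a1 a2
  · have := hstd.pos
    omega
  · rw [hrow (M + 1) 0 (by omega)]
    have h1 := hex 0
    simp only [Nat.zero_mul, Nat.add_zero] at h1 ⊢
    have h2 := hstd.chi_pos
    omega
  · have h1 := hex (M + 1)
    have h2 := hrow 0 (M + 1) (by omega)
    simp only [Nat.zero_mul, Nat.sub_zero] at h2
    rw [← h2] at h1
    have e1 : ∑ t : ↥T, (x t + (M + 1) * c t) * (x t + (M + 1) * c t + 1) =
        ∑ t : ↥T, mm t.1 * (mm t.1 + 1) := Finset.sum_congr rfl fun t _ => by rw [hxm t]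
    rw [e1, hN] at h1
    exact h1

/-- General complex points. -/
theorem gen_class (n k m s M d D : ℕ) (mm cc : Fin n → ℕ) (T : Finset (Fin n))
    (h7 : 7 * m + s + ∑ i ∈ T, cc i ^ 2 < k ^ 2) (hM : 2 * m ≤ M) (hmm : ∀ i, i ∉ T → mm i ≤ M)
    (hs : (Finset.univ.filter (fun i => i ∉ T ∧ m < mm i)).card ≤ s)
    (hC3 : ∀ U ⊆ T, U.card ≤ 3 → ∑ i ∈ U, cc i ≤ k) (hCK : ∑ i ∈ T, cc i + 1 ≤ 3 * k)
    (hFm : ∀ i ∈ T, (M + 1) * cc i ≤ mm i)
    (hF3 : ∀ U ⊆ T, U.card ≤ 3 → ∑ i ∈ U, mm i + (M + 1) * k ≤ d + (M + 1) * ∑ i ∈ U, cc i)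
    (hFK : ∑ i ∈ T, mm i + 3 * ((M + 1) * k) ≤ 3 * d + (M + 1) * ∑ i ∈ T, cc i)
    (hD : D = d ∨ D ≤ d ∧ (d + 1) * (d + 2) ≤ ∑ i, mm i * (mm i + 1)) : GenExp D mm := by
  have h := genExp_of_OK d mm (tri_class k m s M d mm cc T h7 hM hmm hs hC3 hCK hFm hF3 hFK)
  rcases hD with rfl | ⟨h1, h2⟩
  · exact h
  · exact h.le h1 h2

end Pool.MP_70e04f_ag.Nine
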