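import Pool.Agent.Lib_MP_70e04f_nine.Num

/-!
# The numerical estimates
-/

namespace Pool.MP_70e04f_ag.Nine

lemma num8 (m c0 c1 c2 c3 c4 c5 c6 c7 c8 : ℕ) (hm : 1 ≤ m) (hr : 1 ≤ c8)
    (hP : PP c0 c1 c2 c3 c4 c5 c6 c7 c8 0 ≤ 7 * m + 1) :
    (2 * m + 1) ^ 2 * PP c0 c1 c2 c3 c4 c5 c6 c7 c8 0 + 4 * m * (2 * m + 1) * BB c0 c1 c2 c3 c4 c5 c6 c7 c8 0 +
      1360 * m ^ 2 < 3100 * m ^ 3 := by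
  obtain ⟨σ, hσ⟩ : ∃ σ, σ = 3 * c0 + 2 * c1 + 4 * c2 + 6 * c3 + 5 * c4 + 4 * c5 + 3 * c6 + 2 * c7 := ⟨_, rfl⟩
  have h1 : PP c0 c1 c2 c3 c4 c5 c6 c7 c8 0 = PP c0 c1 c2 c3 c4 c5 c6 c7 0 0 + 1 * c8 ^ 2 + 2 * c8 * σ := by
    rw [hσ]; unfold PP; ring
  have h2 : 4 * BB c0 c1 c2 c3 c4 c5 c6 c7 c8 0 ≤ 124 * c8 + 66 * σ := by
    rw [hσ]; unfold BB; omega
  have h3 : 1 * c8 ^ 2 + 2 * c8 * σ ≤ 7 * m + 1 := by omega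
  have h4 : σ ≤ c8 * σ := Nat.le_mul_of_pos_left σ hr
  have h5 : 4 * BB c0 c1 c2 c3 c4 c5 c6 c7 c8 0 ≤ 231 * m + 150 := by
    nlinarith [sq_nonneg (66 * (c8 : ℤ) - 124)]
  generalize BB c0 c1 c2 c3 c4 c5 c6 c7 c8 0 = B at *
  generalize PP c0 c1 c2 c3 c4 c5 c6 c7 c8 0 = P at *
  have h6 : (2 * m + 1) ^ 2 * P ≤ (2 * m + 1) ^ 2 * (7 * m + 1) := Nat.mul_le_mul_left _ hP
  have h7 : 4 * (4 * m * (2 * m + 1) * B) ≤ 4 * m * (2 * m + 1) * (231 * m + 150) := by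
    calc 4 * (4 * m * (2 * m + 1) * B) = 4 * m * (2 * m + 1) * (4 * B) := by ring
      _ ≤ _ := Nat.mul_le_mul_left _ h5
  obtain ⟨x, rfl⟩ : ∃ x, m = x + 1 := ⟨m - 1, by omega⟩
  have h8 : 4 * ((2 * (x + 1) + 1) ^ 2 * (7 * (x + 1) + 1)) +
      4 * (x + 1) * (2 * (x + 1) + 1) * (231 * (x + 1) + 150) +
      4 * (1360 * (x + 1) ^ 2) < 4 * (3100 * (x + 1) ^ 3) := by
    ring_nf
    nlinarith [Nat.zero_le x, Nat.zero_le (x ^ 2), Nat.zero_le (x ^ 3)]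
  omega

lemma num7 (m c0 c1 c2 c3 c4 c5 c6 c7 : ℕ) (hm : 1 ≤ m) (hr : 1 ≤ c7)
    (hP : PP c0 c1 c2 c3 c4 c5 c6 c7 0 0 ≤ 7 * m + 2) :
    (2 * m + 1) ^ 2 * PP c0 c1 c2 c3 c4 c5 c6 c7 0 0 + 4 * m * (2 * m + 1) * BB c0 c1 c2 c3 c4 c5 c6 c7 0 0 +
      1360 * m ^ 2 < 3100 * m ^ 3 := by
  obtain ⟨σ, hσ⟩ : ∃ σ, σ = 3 * c0 + 2 * c1 + 4 * c2 + 6 * c3 + 5 * c4 + 4 * c5 + 3 * c6 := ⟨_, rfl⟩
  have h1 : PP c0 c1 c2 c3 c4 c5 c6 c7 0 0 = PP c0 c1 c2 c3 c4 c5 c6 0 0 0 + 2 * c7 ^ 2 + 2 * c7 * σ := by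
    rw [hσ]; unfold PP; ring
  have h2 : 2 * BB c0 c1 c2 c3 c4 c5 c6 c7 0 0 ≤ 66 * c7 + 24 * σ := by
    rw [hσ]; unfold BB; omega
  have h3 : 2 * c7 ^ 2 + 2 * c7 * σ ≤ 7 * m + 2 := by omega
  have h4 : σ ≤ c7 * σ := Nat.le_mul_of_pos_left σ hr
  have h5 : 2 * BB c0 c1 c2 c3 c4 c5 c6 c7 0 0 ≤ 84 * m + 70 := by
    nlinarith [sq_nonneg (48 * (c7 : ℤ) - 66)]
  generalize BB c0 c1 c2 c3 c4 c5 c6 c7 0 0 = B at *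
  generalize PP c0 c1 c2 c3 c4 c5 c6 c7 0 0 = P at *
  have h6 : (2 * m + 1) ^ 2 * P ≤ (2 * m + 1) ^ 2 * (7 * m + 2) := Nat.mul_le_mul_left _ hP
  have h7 : 2 * (4 * m * (2 * m + 1) * B) ≤ 4 * m * (2 * m + 1) * (84 * m + 70) := by
    calc 2 * (4 * m * (2 * m + 1) * B) = 4 * m * (2 * m + 1) * (2 * B) := by ring
      _ ≤ _ := Nat.mul_le_mul_left _ h5
  obtain ⟨x, rfl⟩ : ∃ x, m = x + 1 := ⟨m - 1, by omega⟩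
  have h8 : 2 * ((2 * (x + 1) + 1) ^ 2 * (7 * (x + 1) + 2)) +
      4 * (x + 1) * (2 * (x + 1) + 1) * (84 * (x + 1) + 70) +
      2 * (1360 * (x + 1) ^ 2) < 2 * (3100 * (x + 1) ^ 3) := by
    ring_nf
    nlinarith [Nat.zero_le x, Nat.zero_le (x ^ 2), Nat.zero_le (x ^ 3)]
  omega

lemma num6 (m c0 c1 c2 c3 c4 c5 c6 : ℕ) (hm : 1 ≤ m) (hr : 1 ≤ c6)
    (hP : PP c0 c1 c2 c3 c4 c5 c6 0 0 0 ≤ 7 * m + 3) :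
    (2 * m + 1) ^ 2 * PP c0 c1 c2 c3 c4 c5 c6 0 0 0 + 4 * m * (2 * m + 1) * BB c0 c1 c2 c3 c4 c5 c6 0 0 0 +
      1360 * m ^ 2 < 3100 * m ^ 3 := by
  obtain ⟨σ, hσ⟩ : ∃ σ, σ = 3 * c0 + 2 * c1 + 4 * c2 + 6 * c3 + 5 * c4 + 4 * c5 := ⟨_, rfl⟩
  have h1 : PP c0 c1 c2 c3 c4 c5 c6 0 0 0 = PP c0 c1 c2 c3 c4 c5 0 0 0 0 + 3 * c6 ^ 2 + 2 * c6 * σ := by
    rw [hσ]; unfold PP; ring
  have h2 : 2 * BB c0 c1 c2 c3 c4 c5 c6 0 0 0 ≤ 72 * c6 + 20 * σ := by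
    rw [hσ]; unfold BB; omega
  have h3 : 3 * c6 ^ 2 + 2 * c6 * σ ≤ 7 * m + 3 := by omega
  have h4 : σ ≤ c6 * σ := Nat.le_mul_of_pos_left σ hr
  have h5 : 2 * BB c0 c1 c2 c3 c4 c5 c6 0 0 0 ≤ 70 * m + 74 := by
    nlinarith [sq_nonneg (60 * (c6 : ℤ) - 72)]
  generalize BB c0 c1 c2 c3 c4 c5 c6 0 0 0 = B at *
  generalize PP c0 c1 c2 c3 c4 c5 c6 0 0 0 = P at *
  have h6 : (2 * m + 1) ^ 2 * P ≤ (2 * m + 1) ^ 2 * (7 * m + 3) := Nat.mul_le_mul_left _ hP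
  have h7 : 2 * (4 * m * (2 * m + 1) * B) ≤ 4 * m * (2 * m + 1) * (70 * m + 74) := by
    calc 2 * (4 * m * (2 * m + 1) * B) = 4 * m * (2 * m + 1) * (2 * B) := by ring
      _ ≤ _ := Nat.mul_le_mul_left _ h5
  obtain ⟨x, rfl⟩ : ∃ x, m = x + 1 := ⟨m - 1, by omega⟩
  have h8 : 2 * ((2 * (x + 1) + 1) ^ 2 * (7 * (x + 1) + 3)) +
      4 * (x + 1) * (2 * (x + 1) + 1) * (70 * (x + 1) + 74) +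
      2 * (1360 * (x + 1) ^ 2) < 2 * (3100 * (x + 1) ^ 3) := by
    ring_nf
    nlinarith [Nat.zero_le x, Nat.zero_le (x ^ 2), Nat.zero_le (x ^ 3)]
  omega

lemma num5 (m c0 c1 c2 c3 c4 c5 : ℕ) (hm : 1 ≤ m) (hr : 1 ≤ c5)
    (hP : PP c0 c1 c2 c3 c4 c5 0 0 0 0 ≤ 7 * m + 4) :
    (2 * m + 1) ^ 2 * PP c0 c1 c2 c3 c4 c5 0 0 0 0 + 4 * m * (2 * m + 1) * BB c0 c1 c2 c3 c4 c5 0 0 0 0 +
      1360 * m ^ 2 < 3100 * m ^ 3 := by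
  obtain ⟨σ, hσ⟩ : ∃ σ, σ = 3 * c0 + 2 * c1 + 4 * c2 + 6 * c3 + 5 * c4 := ⟨_, rfl⟩
  have h1 : PP c0 c1 c2 c3 c4 c5 0 0 0 0 = PP c0 c1 c2 c3 c4 0 0 0 0 0 + 4 * c5 ^ 2 + 2 * c5 * σ := by
    rw [hσ]; unfold PP; ring
  have h2 : 2 * BB c0 c1 c2 c3 c4 c5 0 0 0 0 ≤ 80 * c5 + 18 * σ := by
    rw [hσ]; unfold BB; omega
  have h3 : 4 * c5 ^ 2 + 2 * c5 * σ ≤ 7 * m + 4 := by omega
  have h4 : σ ≤ c5 * σ := Nat.le_mul_of_pos_left σ hr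
  have h5 : 2 * BB c0 c1 c2 c3 c4 c5 0 0 0 0 ≤ 63 * m + 81 := by
    nlinarith [sq_nonneg (72 * (c5 : ℤ) - 80)]
  generalize BB c0 c1 c2 c3 c4 c5 0 0 0 0 = B at *
  generalize PP c0 c1 c2 c3 c4 c5 0 0 0 0 = P at *
  have h6 : (2 * m + 1) ^ 2 * P ≤ (2 * m + 1) ^ 2 * (7 * m + 4) := Nat.mul_le_mul_left _ hP
  have h7 : 2 * (4 * m * (2 * m + 1) * B) ≤ 4 * m * (2 * m + 1) * (63 * m + 81) := by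
    calc 2 * (4 * m * (2 * m + 1) * B) = 4 * m * (2 * m + 1) * (2 * B) := by ring
      _ ≤ _ := Nat.mul_le_mul_left _ h5
  obtain ⟨x, rfl⟩ : ∃ x, m = x + 1 := ⟨m - 1, by omega⟩
  have h8 : 2 * ((2 * (x + 1) + 1) ^ 2 * (7 * (x + 1) + 4)) +
      4 * (x + 1) * (2 * (x + 1) + 1) * (63 * (x + 1) + 81) +
      2 * (1360 * (x + 1) ^ 2) < 2 * (3100 * (x + 1) ^ 3) := by
    ring_nf
    nlinarith [Nat.zero_le x, Nat.zero_le (x ^ 2), Nat.zero_le (x ^ 3)]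
  omega

lemma num4 (m c0 c1 c2 c3 c4 : ℕ) (hm : 1 ≤ m) (hr : 1 ≤ c4)
    (hP : PP c0 c1 c2 c3 c4 0 0 0 0 0 ≤ 7 * m + 5) :
    (2 * m + 1) ^ 2 * PP c0 c1 c2 c3 c4 0 0 0 0 0 + 4 * m * (2 * m + 1) * BB c0 c1 c2 c3 c4 0 0 0 0 0 +
      1360 * m ^ 2 < 3100 * m ^ 3 := by
  obtain ⟨σ, hσ⟩ : ∃ σ, σ = 3 * c0 + 2 * c1 + 4 * c2 + 6 * c3 := ⟨_, rfl⟩
  have h1 : PP c0 c1 c2 c3 c4 0 0 0 0 0 = PP c0 c1 c2 c3 0 0 0 0 0 0 + 5 * c4 ^ 2 + 2 * c4 * σ := by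
    rw [hσ]; unfold PP; ring
  have h2 : 4 * BB c0 c1 c2 c3 c4 0 0 0 0 0 ≤ 180 * c4 + 34 * σ := by
    rw [hσ]; unfold BB; omega
  have h3 : 5 * c4 ^ 2 + 2 * c4 * σ ≤ 7 * m + 5 := by omega
  have h4 : σ ≤ c4 * σ := Nat.le_mul_of_pos_left σ hr
  have h5 : 4 * BB c0 c1 c2 c3 c4 0 0 0 0 0 ≤ 119 * m + 181 := by
    nlinarith [sq_nonneg (170 * (c4 : ℤ) - 180)]
  generalize BB c0 c1 c2 c3 c4 0 0 0 0 0 = B at *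
  generalize PP c0 c1 c2 c3 c4 0 0 0 0 0 = P at *
  have h6 : (2 * m + 1) ^ 2 * P ≤ (2 * m + 1) ^ 2 * (7 * m + 5) := Nat.mul_le_mul_left _ hP
  have h7 : 4 * (4 * m * (2 * m + 1) * B) ≤ 4 * m * (2 * m + 1) * (119 * m + 181) := by
    calc 4 * (4 * m * (2 * m + 1) * B) = 4 * m * (2 * m + 1) * (4 * B) := by ring
      _ ≤ _ := Nat.mul_le_mul_left _ h5
  obtain ⟨x, rfl⟩ : ∃ x, m = x + 1 := ⟨m - 1, by omega⟩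
  have h8 : 4 * ((2 * (x + 1) + 1) ^ 2 * (7 * (x + 1) + 5)) +
      4 * (x + 1) * (2 * (x + 1) + 1) * (119 * (x + 1) + 181) +
      4 * (1360 * (x + 1) ^ 2) < 4 * (3100 * (x + 1) ^ 3) := by
    ring_nf
    nlinarith [Nat.zero_le x, Nat.zero_le (x ^ 2), Nat.zero_le (x ^ 3)]
  omega

lemma num3 (m c0 c1 c2 c3 : ℕ) (hm : 1 ≤ m) (hr : 1 ≤ c3)
    (hP : PP c0 c1 c2 c3 0 0 0 0 0 0 ≤ 7 * m + 6) :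
    (2 * m + 1) ^ 2 * PP c0 c1 c2 c3 0 0 0 0 0 0 + 4 * m * (2 * m + 1) * BB c0 c1 c2 c3 0 0 0 0 0 0 +
      1360 * m ^ 2 < 3100 * m ^ 3 := by
  obtain ⟨σ, hσ⟩ : ∃ σ, σ = 3 * c0 + 2 * c1 + 4 * c2 := ⟨_, rfl⟩
  have h1 : PP c0 c1 c2 c3 0 0 0 0 0 0 = PP c0 c1 c2 0 0 0 0 0 0 0 + 6 * c3 ^ 2 + 2 * c3 * σ := by
    rw [hσ]; unfold PP; ring
  have h2 : 6 * BB c0 c1 c2 c3 0 0 0 0 0 0 ≤ 306 * c3 + 50 * σ := by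
    rw [hσ]; unfold BB; omega
  have h3 : 6 * c3 ^ 2 + 2 * c3 * σ ≤ 7 * m + 6 := by omega
  have h4 : σ ≤ c3 * σ := Nat.le_mul_of_pos_left σ hr
  have h5 : 6 * BB c0 c1 c2 c3 0 0 0 0 0 0 ≤ 175 * m + 307 := by
    nlinarith [sq_nonneg (300 * (c3 : ℤ) - 306)]
  generalize BB c0 c1 c2 c3 0 0 0 0 0 0 = B at *
  generalize PP c0 c1 c2 c3 0 0 0 0 0 0 = P at *
  have h6 : (2 * m + 1) ^ 2 * P ≤ (2 * m + 1) ^ 2 * (7 * m + 6) := Nat.mul_le_mul_left _ hP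
  have h7 : 6 * (4 * m * (2 * m + 1) * B) ≤ 4 * m * (2 * m + 1) * (175 * m + 307) := by
    calc 6 * (4 * m * (2 * m + 1) * B) = 4 * m * (2 * m + 1) * (6 * B) := by ring
      _ ≤ _ := Nat.mul_le_mul_left _ h5
  obtain ⟨x, rfl⟩ : ∃ x, m = x + 1 := ⟨m - 1, by omega⟩
  have h8 : 6 * ((2 * (x + 1) + 1) ^ 2 * (7 * (x + 1) + 6)) +
      4 * (x + 1) * (2 * (x + 1) + 1) * (175 * (x + 1) + 307) +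
      6 * (1360 * (x + 1) ^ 2) < 6 * (3100 * (x + 1) ^ 3) := by
    ring_nf
    nlinarith [Nat.zero_le x, Nat.zero_le (x ^ 2), Nat.zero_le (x ^ 3)]
  omega

lemma num2 (m c0 c1 c2 : ℕ) (hm : 1 ≤ m) (hr : 1 ≤ c2)
    (hP : PP c0 c1 c2 0 0 0 0 0 0 0 ≤ 7 * m + 7) :
    (2 * m + 1) ^ 2 * PP c0 c1 c2 0 0 0 0 0 0 0 + 4 * m * (2 * m + 1) * BB c0 c1 c2 0 0 0 0 0 0 0 +
      1360 * m ^ 2 < 3100 * m ^ 3 := by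
  obtain ⟨σ, hσ⟩ : ∃ σ, σ = 2 * c0 + c1 := ⟨_, rfl⟩
  have h1 : PP c0 c1 c2 0 0 0 0 0 0 0 = PP c0 c1 0 0 0 0 0 0 0 0 + 2 * c2 ^ 2 + 2 * c2 * σ := by
    rw [hσ]; unfold PP; ring
  have h2 : 2 * BB c0 c1 c2 0 0 0 0 0 0 0 ≤ 66 * c2 + 32 * σ := by
    rw [hσ]; unfold BB; omega
  have h3 : 2 * c2 ^ 2 + 2 * c2 * σ ≤ 7 * m + 7 := by omega
  have h4 : σ ≤ c2 * σ := Nat.le_mul_of_pos_left σ hr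
  have h5 : 2 * BB c0 c1 c2 0 0 0 0 0 0 0 ≤ 112 * m + 147 := by
    nlinarith [sq_nonneg (64 * (c2 : ℤ) - 66)]
  generalize BB c0 c1 c2 0 0 0 0 0 0 0 = B at *
  generalize PP c0 c1 c2 0 0 0 0 0 0 0 = P at *
  have h6 : (2 * m + 1) ^ 2 * P ≤ (2 * m + 1) ^ 2 * (7 * m + 7) := Nat.mul_le_mul_left _ hP
  have h7 : 2 * (4 * m * (2 * m + 1) * B) ≤ 4 * m * (2 * m + 1) * (112 * m + 147) := by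
    calc 2 * (4 * m * (2 * m + 1) * B) = 4 * m * (2 * m + 1) * (2 * B) := by ring
      _ ≤ _ := Nat.mul_le_mul_left _ h5
  obtain ⟨x, rfl⟩ : ∃ x, m = x + 1 := ⟨m - 1, by omega⟩
  have h8 : 2 * ((2 * (x + 1) + 1) ^ 2 * (7 * (x + 1) + 7)) +
      4 * (x + 1) * (2 * (x + 1) + 1) * (112 * (x + 1) + 147) +
      2 * (1360 * (x + 1) ^ 2) < 2 * (3100 * (x + 1) ^ 3) := by
    ring_nf
    nlinarith [Nat.zero_le x, Nat.zero_le (x ^ 2), Nat.zero_le (x ^ 3)]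
  omega

lemma num9 (m c0 c1 c2 c3 c4 c5 c6 c7 c8 c9 : ℕ) (hm : 1 ≤ m) (hr : 1 ≤ c9)
    (hc : 1 ≤ c0 + c1 + c2 + c3 + c4 + c5 + c6 + c7 + c8)
    (hP : PP c0 c1 c2 c3 c4 c5 c6 c7 c8 c9 ≤ 7 * m) :
    (2 * m + 1) ^ 2 * PP c0 c1 c2 c3 c4 c5 c6 c7 c8 c9 +
      4 * m * (2 * m + 1) * BB c0 c1 c2 c3 c4 c5 c6 c7 c8 c9 + 1360 * m ^ 2 < 3100 * m ^ 3 := by
  obtain ⟨σ, hσ⟩ : ∃ σ, σ = 3 * c0 + 2 * c1 + 4 * c2 + 6 * c3 + 5 * c4 + 4 * c5 + 3 * c6 +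
    2 * c7 + c8 := ⟨_, rfl⟩
  have h1 : PP c0 c1 c2 c3 c4 c5 c6 c7 c8 c9 = PP c0 c1 c2 c3 c4 c5 c6 c7 c8 0 +
      2 * c9 * σ := by
    rw [hσ]; unfold PP; ring
  have h2 : BB c0 c1 c2 c3 c4 c5 c6 c7 c8 c9 ≤ 31 * (c9 + σ) := by
    rw [hσ]; unfold BB; omega
  have h3 : 2 * c9 * σ ≤ 7 * m := by omega
  have h4 : 1 ≤ σ := by omega
  have h5 : 2 * BB c0 c1 c2 c3 c4 c5 c6 c7 c8 c9 ≤ 31 * (7 * m + 2) := by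
    obtain ⟨a, rfl⟩ : ∃ a, c9 = a + 1 := ⟨c9 - 1, by omega⟩
    obtain ⟨b, hb⟩ : ∃ b, σ = b + 1 := ⟨σ - 1, by omega⟩
    rw [hb] at h2 h3
    nlinarith [Nat.zero_le (a * b)]
  generalize BB c0 c1 c2 c3 c4 c5 c6 c7 c8 c9 = B at *
  generalize PP c0 c1 c2 c3 c4 c5 c6 c7 c8 c9 = P at *
  have h6 : (2 * m + 1) ^ 2 * P ≤ (2 * m + 1) ^ 2 * (7 * m) := Nat.mul_le_mul_left _ hP
  have h7 : 2 * (4 * m * (2 * m + 1) * B) ≤ 4 * m * (2 * m + 1) * (31 * (7 * m + 2)) := by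
    calc 2 * (4 * m * (2 * m + 1) * B) = 4 * m * (2 * m + 1) * (2 * B) := by ring
      _ ≤ _ := Nat.mul_le_mul_left _ h5
  obtain ⟨x, rfl⟩ : ∃ x, m = x + 1 := ⟨m - 1, by omega⟩
  have h8 : 2 * ((2 * (x + 1) + 1) ^ 2 * (7 * (x + 1))) +
      4 * (x + 1) * (2 * (x + 1) + 1) * (31 * (7 * (x + 1) + 2)) +
      2 * (1360 * (x + 1) ^ 2) < 2 * (3100 * (x + 1) ^ 3) := by
    ring_nf
    nlinarith [Nat.zero_le x, Nat.zero_le (x ^ 2), Nat.zero_le (x ^ 3)]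
  omega

end Pool.MP_70e04f_ag.Nine
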