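import Pool.Agent.Lib_MP_70e04f_nine.Floor
import Pool.Agent.Lib_MP_70e04f_nine.Num2

/-!
# Rounding down in the standard cone
-/

namespace Pool.MP_70e04f_ag.Nine

open Pool.MP_70e04f_ag.Hex Pool.MP_70e04f_ag.Add

lemma tele {ν : ℕ → ℕ} (hν : Antitone ν) : ∀ t j, j + t = 9 →
    ∑ i ∈ Finset.Ico j 9, (ν i - ν (i + 1)) + ν 9 = ν j := by
  intro t
  induction t with
  | zero =>
    intro j hj
    have : j = 9 := by omega
    subst this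
    simp
  | succ t ih =>
    intro j hj
    rw [Finset.sum_eq_sum_Ico_succ_bot (by omega)]
    have h1 := ih (j + 1) (by omega)
    have h2 := hν (Nat.le_succ j)
    have e : j.succ = j + 1 := rfl
    rw [e] at h2
    omega

lemma antitone_sum (g : ℕ → ℕ) : Antitone (fun j => ∑ i ∈ Finset.Ico j 9, g i) := by
  intro a b hab
  exact Finset.sum_le_sum_of_subset (Finset.Ico_subset_Ico_left hab)

lemma ico_sums (g : ℕ → ℕ) :
    (∑ i ∈ Finset.Ico 0 9, g i = g 0 + g 1 + g 2 + g 3 + g 4 + g 5 + g 6 + g 7 + g 8) ∧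
    (∑ i ∈ Finset.Ico 1 9, g i = g 1 + g 2 + g 3 + g 4 + g 5 + g 6 + g 7 + g 8) ∧
    (∑ i ∈ Finset.Ico 2 9, g i = g 2 + g 3 + g 4 + g 5 + g 6 + g 7 + g 8) ∧
    (∑ i ∈ Finset.Ico 3 9, g i = g 3 + g 4 + g 5 + g 6 + g 7 + g 8) ∧
    (∑ i ∈ Finset.Ico 4 9, g i = g 4 + g 5 + g 6 + g 7 + g 8) ∧
    (∑ i ∈ Finset.Ico 5 9, g i = g 5 + g 6 + g 7 + g 8) ∧
    (∑ i ∈ Finset.Ico 6 9, g i = g 6 + g 7 + g 8) ∧
    (∑ i ∈ Finset.Ico 7 9, g i = g 7 + g 8) ∧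
    (∑ i ∈ Finset.Ico 8 9, g i = g 8) := by
  refine ⟨?_, ?_, ?_, ?_, ?_, ?_, ?_, ?_, ?_⟩ <;>
    simp [Finset.sum_Ico_eq_sum_range, Finset.sum_range_succ]

/-- The general theorem with the class obtained by rounding down. -/
theorem nine_core {n : ℕ} (m d r : ℕ) (mm : Fin n → ℕ) (α : Fin 9 → Fin n)
    (hα : Function.Injective α) (ν : ℕ → ℕ) (hν : Antitone ν) (hν0 : ∀ j, r ≤ j → ν j = 0)
    (hr : r ≤ 9) (hμ : ∀ j : Fin 9, (j : ℕ) < r → mm (α j) = ν j)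
    (hsmall : ∀ j : Fin 9, r ≤ (j : ℕ) → mm (α j) ≤ 2 * m)
    (hother : ∀ i, i ∉ Set.range α → mm i ≤ m) (hd : ν 0 + ν 1 + ν 2 ≤ d)
    (hP : 7 * m + (9 - r) < PP ((d - (ν 0 + ν 1 + ν 2)) / (2 * m + 1))
      ((ν 0 - ν 1) / (2 * m + 1)) ((ν 1 - ν 2) / (2 * m + 1)) ((ν 2 - ν 3) / (2 * m + 1))
      ((ν 3 - ν 4) / (2 * m + 1)) ((ν 4 - ν 5) / (2 * m + 1)) ((ν 5 - ν 6) / (2 * m + 1))
      ((ν 6 - ν 7) / (2 * m + 1)) ((ν 7 - ν 8) / (2 * m + 1)) (ν 8 / (2 * m + 1))) :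
    OK (tri (d + 1)) mm := by
  have h9 : ν 9 = 0 := hν0 9 hr
  obtain ⟨γ, hγ⟩ : ∃ γ : ℕ → ℕ, γ = fun j => ∑ i ∈ Finset.Ico j 9,
    (ν i - ν (i + 1)) / (2 * m + 1) := ⟨_, rfl⟩
  obtain ⟨β, hβ⟩ : ∃ β : ℕ → ℕ, β = fun j => ∑ i ∈ Finset.Ico j 9,
    (ν i - ν (i + 1)) % (2 * m + 1) := ⟨_, rfl⟩
  have hγa : Antitone γ := by rw [hγ]; exact antitone_sum _
  have hβa : Antitone β := by rw [hβ]; exact antitone_sum _
  have hsum : ∀ j, j ≤ 9 → ν j = (2 * m + 1) * γ j + β j := by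
    intro j hj
    have h1 := tele hν (9 - j) j (by omega)
    rw [h9, Nat.add_zero] at h1
    rw [hγ, hβ, ← h1, Finset.mul_sum, ← Finset.sum_add_distrib]
    exact Finset.sum_congr rfl fun i _ => (Nat.div_add_mod _ _).symm
  have hz : ∀ j, r ≤ j → γ j = 0 ∧ β j = 0 := by
    intro j hj
    rw [hγ, hβ]
    constructor
    · apply Finset.sum_eq_zero
      intro i hi
      rw [Finset.mem_Ico] at hi
      rw [hν0 i (by omega)]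
      simp
    · apply Finset.sum_eq_zero
      intro i hi
      rw [Finset.mem_Ico] at hi
      rw [hν0 i (by omega)]
      simp
  obtain ⟨c0, hc0⟩ : ∃ c0, c0 = (d - (ν 0 + ν 1 + ν 2)) / (2 * m + 1) := ⟨_, rfl⟩
  obtain ⟨b0, hb0⟩ : ∃ b0, b0 = (d - (ν 0 + ν 1 + ν 2)) % (2 * m + 1) := ⟨_, rfl⟩
  have hdm : (2 * m + 1) * c0 + b0 = d - (ν 0 + ν 1 + ν 2) := by
    rw [hc0, hb0]; exact Nat.div_add_mod _ _
  apply tri_floor m d r mm α hα γ β hγa hβa (c0 + γ 0 + γ 1 + γ 2) (b0 + β 0 + β 1 + β 2)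
  · have h0 := hsum 0 (by norm_num)
    have h1 := hsum 1 (by norm_num)
    have h2 := hsum 2 (by norm_num)
    have e : (2 * m + 1) * (c0 + γ 0 + γ 1 + γ 2) = (2 * m + 1) * c0 + (2 * m + 1) * γ 0 +
      (2 * m + 1) * γ 1 + (2 * m + 1) * γ 2 := by ring
    omega
  · intro j hj
    rw [hμ j hj]
    exact hsum j (by omega)
  · intro j hj
    exact (hz j hj).1
  · intro j hj
    exact (hz j hj).2
  · omega
  · omega
  · exact hsmall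
  · exact hother
  · rw [← hc0] at hP
    have e8 : (ν 8 - ν 9) / (2 * m + 1) = ν 8 / (2 * m + 1) := by rw [h9, Nat.sub_zero]
    rw [← e8] at hP
    obtain ⟨g, hg⟩ : ∃ g : ℕ → ℕ, g = fun i => (ν i - ν (i + 1)) / (2 * m + 1) := ⟨_, rfl⟩
    have q0 : (ν 0 - ν 1) / (2 * m + 1) = g 0 := by rw [hg]
    have q1 : (ν 1 - ν 2) / (2 * m + 1) = g 1 := by rw [hg]
    have q2 : (ν 2 - ν 3) / (2 * m + 1) = g 2 := by rw [hg]
    have q3 : (ν 3 - ν 4) / (2 * m + 1) = g 3 := by rw [hg]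
    have q4 : (ν 4 - ν 5) / (2 * m + 1) = g 4 := by rw [hg]
    have q5 : (ν 5 - ν 6) / (2 * m + 1) = g 5 := by rw [hg]
    have q6 : (ν 6 - ν 7) / (2 * m + 1) = g 6 := by rw [hg]
    have q7 : (ν 7 - ν 8) / (2 * m + 1) = g 7 := by rw [hg]
    have q8 : (ν 8 - ν 9) / (2 * m + 1) = g 8 := by rw [hg]
    rw [q0, q1, q2, q3, q4, q5, q6, q7, q8] at hP
    obtain ⟨g0, g1, g2, g3, g4, g5, g6, g7, g8⟩ := ico_sums g
    have hγ' : ∀ j, γ j = ∑ i ∈ Finset.Ico j 9, g i := by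
      intro j
      rw [hγ, hg]
    have hk := PP_eq c0 (g 0) (g 1) (g 2) (g 3) (g 4) (g 5) (g 6) (g 7) (g 8)
    have hs : ∑ j : Fin 9, γ j ^ 2 = γ 0 ^ 2 + γ 1 ^ 2 + γ 2 ^ 2 + γ 3 ^ 2 + γ 4 ^ 2 +
        γ 5 ^ 2 + γ 6 ^ 2 + γ 7 ^ 2 + γ 8 ^ 2 := by
      simp only [Fin.sum_univ_succ, Fin.val_zero, Fin.val_succ, Finset.univ_unique,
        Finset.sum_singleton, Fin.default_eq_zero]
      ring
    rw [hs, hγ' 0, hγ' 1, hγ' 2, hγ' 3, hγ' 4, hγ' 5, hγ' 6, hγ' 7, hγ' 8, g0, g1, g2, g3, g4, g5,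
      g6, g7, g8]
    omega

end Pool.MP_70e04f_ag.Nine
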