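import Pool.Agent.Lib_MP_70e04f_add.Many

/-!
# Adding small points along a curve of any class: definitions

`pt p` is the maximal ideal of the point `p` of the real plane. `IsCurve k c q f P` says that `f` is
an irreducible curve of degree `k` with multiplicity exactly `c t` at `q t`, smooth at `P`. `br` is
the restriction to a branch of the curve at `P` (power series), `phi` is the corresponding
polynomial change of coordinates, with the branch truncated. `InitMon N0 q H` says that the
monomial `q` is the unique monomial of least weight `a + N0 * b` of `H`.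
-/

namespace Pool.MP_70e04f_ag.Nine

open MvPolynomial Pool.MP_70e04f_ag.Hex Pool.MP_70e04f_ag.Add

/-- The maximal ideal of a point. -/
noncomputable abbrev pt (p : Fin 2 → ℝ) : Ideal (MvPolynomial (Fin 2) ℝ) :=
  RingHom.ker (MvPolynomial.eval p)

/-- An irreducible curve with exact degree and multiplicities, smooth at the point `P`. -/
structure IsCurve {τ : Type*} (k : ℕ) (c : τ → ℕ) (q : τ → Fin 2 → ℝ)
    (f : MvPolynomial (Fin 2) ℝ) (P : Fin 2 → ℝ) : Prop where
  mem : f ∈ Lsys (k + 1) c q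
  irr : Irreducible f
  deg : f.totalDegree = k
  top : coeff (mon 0 k) f ≠ 0
  exact : ∀ t, f ∉ pt (q t) ^ (c t + 1)
  zero : MvPolynomial.eval P f = 0
  smooth : MvPolynomial.eval P (pderiv 0 f) ≠ 0 ∨ MvPolynomial.eval P (pderiv 1 f) ≠ 0

/-- The translation of `P` to the origin, followed by a shear. -/
noncomputable def shear (P : Fin 2 → ℝ) (lam : ℝ) :
    MvPolynomial (Fin 2) ℝ →ₐ[ℝ] MvPolynomial (Fin 2) ℝ :=
  aeval ![C (P 0) + X 0 + C lam * X 1, C (P 1) + X 1]

/-- The restriction to a branch through `P`. -/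
noncomputable def br (P : Fin 2 → ℝ) (lam : ℝ) (η : PowerSeries ℝ) :
    MvPolynomial (Fin 2) ℝ →ₐ[ℝ] PowerSeries ℝ :=
  aeval ![PowerSeries.C (P 0) + PowerSeries.X + PowerSeries.C lam * η, PowerSeries.C (P 1) + η]

/-- The change of coordinates straightening the truncated branch. -/
noncomputable def phi (P : Fin 2 → ℝ) (lam : ℝ) (η : Polynomial ℝ) :
    MvPolynomial (Fin 2) ℝ →ₐ[ℝ] MvPolynomial (Fin 2) ℝ :=
  aeval ![C (P 0) + X 0 + C lam * (Polynomial.aeval (X 0) η + X 1),
    C (P 1) + (Polynomial.aeval (X 0) η + X 1)]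

/-- The corresponding map of the points. -/
noncomputable def phiPt (P : Fin 2 → ℝ) (lam : ℝ) (η : Polynomial ℝ) (p : Fin 2 → ℝ) :
    Fin 2 → ℝ :=
  ![P 0 + p 0 + lam * (η.eval (p 0) + p 1), P 1 + (η.eval (p 0) + p 1)]

/-- The monomial `q` is the unique monomial of least weight of `H`. -/
def InitMon (N0 : ℕ) (q : ℕ × ℕ) (H : MvPolynomial (Fin 2) ℝ) : Prop :=
  coeff (mon q.1 q.2) H ≠ 0 ∧
    ∀ a b : ℕ, (a, b) ≠ q → a + N0 * b ≤ q.1 + N0 * q.2 → coeff (mon a b) H = 0

end Pool.MP_70e04f_ag.Nine
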