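import Mathlib

/-!
# The self-intersection is large when the degree is
-/

namespace Pool.MP_70e04f_ag.Nine

lemma sq_of_deg {ν : ℕ → ℕ} (hν : Antitone ν) {m d : ℕ} (hm9 : m ≤ ν 8)
    (hd : ν 0 + ν 1 + ν 2 ≤ d)
    (hK : ν 0 + ν 1 + ν 2 + ν 3 + ν 4 + ν 5 + ν 6 + ν 7 + ν 8 + 18 * m < 3 * d)
    (hbig : 780 * m ^ 2 ≤ d) :
    ν 0 ^ 2 + ν 1 ^ 2 + ν 2 ^ 2 + ν 3 ^ 2 + ν 4 ^ 2 + ν 5 ^ 2 + ν 6 ^ 2 + ν 7 ^ 2 +
      ν 8 ^ 2 + 3100 * m ^ 3 ≤ d ^ 2 := by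
  have a0 := hν (show 0 ≤ 1 by norm_num)
  have a1 := hν (show 1 ≤ 2 by norm_num)
  have h := fun j (hj : 2 ≤ j) => hν hj
  obtain ⟨S, hS⟩ : ∃ S, S = ν 2 := ⟨_, rfl⟩
  have key : ∀ j, 2 ≤ j → ν j ^ 2 + (S - ν j) * S ≤ S ^ 2 := by
    intro j hj
    have h1 := h j hj
    rw [← hS] at h1
    obtain ⟨p, hp⟩ : ∃ p, S = ν j + p := ⟨S - ν j, by omega⟩
    rw [hp, Nat.add_sub_cancel_left]
    have e : (ν j + p) ^ 2 = ν j ^ 2 + p * (ν j + p) + ν j * p := by ring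
    rw [e]
    exact Nat.le_add_right _ _
  have k3 := key 3 (by norm_num)
  have k4 := key 4 (by norm_num)
  have k5 := key 5 (by norm_num)
  have k6 := key 6 (by norm_num)
  have k7 := key 7 (by norm_num)
  have k8 := key 8 (by norm_num)
  have l3 := h 3 (by norm_num)
  have l4 := h 4 (by norm_num)
  have l5 := h 5 (by norm_num)
  have l6 := h 6 (by norm_num)
  have l7 := h 7 (by norm_num)
  have l8 := h 8 (by norm_num)
  rw [← hS] at l3 l4 l5 l6 l7 l8 a1 hd hK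
  obtain ⟨k, hk⟩ : ∃ k, k = (S - ν 3) + (S - ν 4) + (S - ν 5) + (S - ν 6) + (S - ν 7) +
    (S - ν 8) := ⟨_, rfl⟩
  have k9 : ν 3 ^ 2 + ν 4 ^ 2 + ν 5 ^ 2 + ν 6 ^ 2 + ν 7 ^ 2 + ν 8 ^ 2 + k * S ≤ 6 * S ^ 2 := by
    have e : k * S = (S - ν 3) * S + (S - ν 4) * S + (S - ν 5) * S + (S - ν 6) * S +
        (S - ν 7) * S + (S - ν 8) * S := by rw [hk]; ring
    omega
  have k10 : ν 3 + ν 4 + ν 5 + ν 6 + ν 7 + ν 8 + k = 6 * S := by omega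
  obtain ⟨b, hb⟩ : ∃ b, ν 1 = S + b := ⟨ν 1 - S, by omega⟩
  obtain ⟨a, ha⟩ : ∃ a, ν 0 = S + b + a := ⟨ν 0 - ν 1, by omega⟩
  obtain ⟨g, hg⟩ : ∃ g, d = ν 0 + ν 1 + S + g := ⟨d - (ν 0 + ν 1 + S), by omega⟩
  have hmS : m ≤ S := by omega
  have hdd : d = 3 * S + (a + 2 * b + g) := by omega
  have hκ : 18 * m < 3 * g + 2 * a + 4 * b + k := by omega
  have hD : ν 0 ^ 2 + ν 1 ^ 2 + S ^ 2 + 6 * S ^ 2 + 4 * (a + 2 * b + g) * S ≤ d ^ 2 := by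
    rw [hg, ha, hb]
    have e : (S + b + a + (S + b) + S + g) ^ 2 = (S + b + a) ^ 2 + (S + b) ^ 2 + S ^ 2 +
        6 * S ^ 2 + 4 * (a + 2 * b + g) * S +
        (g ^ 2 + 2 * g * S + 4 * g * b + 2 * g * a + 2 * b ^ 2 + 2 * a * b) := by ring
    rw [e]
    exact Nat.le_add_right _ _
  rw [← hS]
  clear key hν h k3 k4 k5 k6 k7 k8
  suffices hmain : 3100 * m ^ 3 ≤ 4 * (a + 2 * b + g) * S + k * S by omega
  obtain ⟨u, hu⟩ : ∃ u, u = a + 2 * b + g := ⟨_, rfl⟩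
  rw [← hu] at hdd ⊢
  rcases Nat.lt_or_ge S (173 * m ^ 2) with hlt | hge
  · have h1 : 780 * m ^ 2 ≤ 3 * S + u := by omega
    have h2 : 3100 * m ^ 3 ≤ 4 * u * S := by
      zify at *
      have h3 : (0 : ℤ) ≤ ((S : ℤ) - m) * (173 * (m : ℤ) ^ 2 - S) :=
        mul_nonneg (by linarith) (by linarith)
      have h4 : (780 * (m : ℤ) ^ 2 - 3 * S) * S ≤ u * S :=
        mul_le_mul_of_nonneg_right (by linarith) (by positivity)
      have h5 : (0 : ℤ) ≤ ((S : ℤ) - m) * (261 * (m : ℤ) ^ 2 - 3 * m) := by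
        apply mul_nonneg (by linarith)
        have h8 : (m : ℤ) ≤ (m : ℤ) ^ 2 := by
          exact_mod_cast Nat.le_self_pow (by norm_num) m
        have h9 : (0 : ℤ) ≤ (m : ℤ) ^ 2 := by positivity
        linarith
      have h6 : (m : ℤ) ^ 2 ≤ (m : ℤ) ^ 3 := by
        rcases Nat.eq_zero_or_pos m with h0 | h0
        · rw [h0]; norm_num
        · exact pow_le_pow_right₀ (by exact_mod_cast h0) (by norm_num)
      have h7 : (0 : ℤ) ≤ (m : ℤ) ^ 3 := by positivity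
      have e1 : (780 * (m : ℤ) ^ 2 - 3 * S) * S = 3 * (((S : ℤ) - m) * (173 * (m : ℤ) ^ 2 - S)) +
          ((S : ℤ) - m) * (261 * (m : ℤ) ^ 2 - 3 * m) + 780 * (m : ℤ) ^ 3 - 3 * (m : ℤ) ^ 2 := by
        ring
      have e2 : 4 * (u : ℤ) * S = 4 * (u * S) := by ring
      rw [e2]
      linarith
    exact h2.trans (Nat.le_add_right _ _)
  · have h1 : 18 * m * (173 * m ^ 2) ≤ (4 * u + k) * S := Nat.mul_le_mul (by omega) hge
    have h2 : (4 * u + k) * S = 4 * u * S + k * S := by ring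
    have h3 : 18 * m * (173 * m ^ 2) = 3114 * m ^ 3 := by ring
    omega

end Pool.MP_70e04f_ag.Nine
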