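import Pool.Agent.Lib_MP_70e04f_nine.ClassT
import Pool.Agent.Lib_MP_70e04f_nine.Num2

/-!
# Two more classes: multiples of the anticanonical class plus `E9` or `H - E1`
-/

namespace Pool.MP_70e04f_ag.Nine

open Pool.MP_70e04f_ag.Hex Pool.MP_70e04f_ag.Add

/-- Sums of decreasing numbers over two sets of indices. -/
lemma top_le {x : ℕ → ℕ} (hx : Antitone x) (S V : Finset (Fin 9)) (hc : V.card ≤ S.card)
    (h : ∀ j ∈ V \ S, ∀ i ∈ S \ V, i ≤ j) : ∑ j ∈ V, x j ≤ ∑ j ∈ S, x j := by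
  classical
  have h4 := Finset.sum_inter_add_sum_sdiff V S (fun j : Fin 9 => x (j : ℕ))
  have h5 := Finset.sum_inter_add_sum_sdiff S V (fun j : Fin 9 => x (j : ℕ))
  rw [Finset.inter_comm] at h5
  have h3 : (V \ S).card ≤ (S \ V).card := by
    have e1 := Finset.card_sdiff_add_card_inter V S
    have e2 := Finset.card_sdiff_add_card_inter S V
    rw [Finset.inter_comm] at e2
    omega
  have h6 : ∑ j ∈ V \ S, x (j : ℕ) ≤ ∑ j ∈ S \ V, x (j : ℕ) := by
    rcases (V \ S).eq_empty_or_nonempty with h0 | h0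
    · rw [h0, Finset.sum_empty]
      exact Nat.zero_le _
    · obtain ⟨j, hj, hmax⟩ := (V \ S).exists_max_image (fun j : Fin 9 => x (j : ℕ)) h0
      have h1 : ∑ j ∈ V \ S, x (j : ℕ) ≤ (V \ S).card * x j := by
        rw [← smul_eq_mul]
        exact Finset.sum_le_card_nsmul _ _ _ hmax
      have h2 : (S \ V).card * x j ≤ ∑ j ∈ S \ V, x (j : ℕ) := by
        rw [← smul_eq_mul]
        apply Finset.card_nsmul_le_sum
        intro i hi
        exact hx (h j hj i hi)
      exact h1.trans ((Nat.mul_le_mul_right _ h3).trans h2)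
  omega

lemma sum3 (x : ℕ → ℕ) : ∑ j ∈ ({0, 1, 2} : Finset (Fin 9)), x j = x 0 + x 1 + x 2 := by
  rw [Finset.sum_insert (by decide), Finset.sum_insert (by decide), Finset.sum_singleton]
  simp [add_assoc]

lemma sum3' (x : ℕ → ℕ) : ∑ j ∈ ({1, 2, 3} : Finset (Fin 9)), x j = x 1 + x 2 + x 3 := by
  rw [Finset.sum_insert (by decide), Finset.sum_insert (by decide), Finset.sum_singleton]
  have e1 : ((1 : Fin 9) : ℕ) = 1 := rfl
  have e2 : ((2 : Fin 9) : ℕ) = 2 := rfl
  have e3 : ((3 : Fin 9) : ℕ) = 3 := rfl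
  rw [e1, e2, e3, add_assoc]

lemma sum2 (x : ℕ → ℕ) : ∑ j ∈ ({0, 1} : Finset (Fin 9)), x j = x 0 + x 1 := by
  rw [Finset.sum_insert (by decide), Finset.sum_singleton]
  simp

lemma three_le' {x : ℕ → ℕ} (hx : Antitone x) (V : Finset (Fin 9)) (hV : V.card ≤ 3) :
    ∑ j ∈ V, x j ≤ x 0 + x 1 + x 2 := by
  rw [← sum3]
  apply top_le hx
  · rw [show (({0, 1, 2} : Finset (Fin 9))).card = 3 by decide]; exact hV
  · intro j hj i hi
    rw [Finset.mem_sdiff] at hj hi
    have h1 := hj.2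
    have h2 := hi.1
    simp only [Finset.mem_insert, Finset.mem_singleton] at h1 h2
    rcases h2 with rfl | rfl | rfl <;> omega

lemma three_le_pos {x : ℕ → ℕ} (hx : Antitone x) (V : Finset (Fin 9)) (hV : V.card ≤ 3)
    (h0 : (0 : Fin 9) ∉ V) : ∑ j ∈ V, x j ≤ x 1 + x 2 + x 3 := by
  rw [← sum3']
  apply top_le hx
  · rw [show (({1, 2, 3} : Finset (Fin 9))).card = 3 by decide]; exact hV
  · intro j hj i hi
    rw [Finset.mem_sdiff] at hj hi
    have h1 := hj.2
    have h2 := hi.1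
    have h3 : j ≠ 0 := fun h => h0 (h ▸ hj.1)
    simp only [Finset.mem_insert, Finset.mem_singleton] at h1 h2
    rcases h2 with rfl | rfl | rfl <;> omega

lemma two_le {x : ℕ → ℕ} (hx : Antitone x) (V : Finset (Fin 9)) (hV : V.card ≤ 2) :
    ∑ j ∈ V, x j ≤ x 0 + x 1 := by
  rw [← sum2]
  apply top_le hx
  · rw [show (({0, 1} : Finset (Fin 9))).card = 2 by decide]; exact hV
  · intro j hj i hi
    rw [Finset.mem_sdiff] at hj hi
    have h1 := hj.2
    have h2 := hi.1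
    simp only [Finset.mem_insert, Finset.mem_singleton] at h1 h2
    rcases h2 with rfl | rfl <;> omega

lemma sum9 (x : ℕ → ℕ) : ∑ j : Fin 9, x j = x 0 + x 1 + x 2 + x 3 + x 4 + x 5 + x 6 + x 7 + x 8 := by
  simp only [Fin.sum_univ_succ, Fin.val_zero, Fin.val_succ, Finset.univ_unique,
    Finset.sum_singleton, Fin.default_eq_zero]
  ring

/-- The general theorem for nine large points. -/
theorem tri_all {n : ℕ} (m d : ℕ) (mm : Fin n → ℕ) (α : Fin 9 → Fin n)
    (hα : Function.Injective α) (γ β : ℕ → ℕ) (k f : ℕ) (hd : d = (2 * m + 1) * k + f)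
    (hμ : ∀ j : Fin 9, mm (α j) = (2 * m + 1) * γ j + β j)
    (hγ3 : ∀ V : Finset (Fin 9), V.card ≤ 3 → ∑ j ∈ V, γ j ≤ k)
    (hγ9 : ∑ j : Fin 9, γ j + 1 ≤ 3 * k)
    (hβ3 : ∀ V : Finset (Fin 9), V.card ≤ 3 → ∑ j ∈ V, β j ≤ f)
    (hβ9 : ∑ j : Fin 9, β j ≤ 3 * f)
    (hother : ∀ i, i ∉ Set.range α → mm i ≤ m)
    (h7 : 7 * m + ∑ j : Fin 9, γ j ^ 2 < k ^ 2) : OK (tri (d + 1)) mm := by
  classical
  obtain ⟨T, hT⟩ : ∃ T : Finset (Fin n), T = Finset.univ.image α := ⟨_, rfl⟩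
  have ext : ∀ g : ℕ → ℕ, ∃ cc : Fin n → ℕ, ∀ j : Fin 9, cc (α j) = g j := by
    intro g
    refine ⟨fun i => ∑ j : Fin 9, if α j = i then g j else 0, fun j => ?_⟩
    simp only
    rw [Finset.sum_eq_single j]
    · simp
    · intro b _ hb
      rw [if_neg]
      intro h
      exact hb (hα h)
    · intro h
      exact absurd (Finset.mem_univ j) h
  obtain ⟨cc, hcc⟩ := ext γ
  have hsub : ∀ U ⊆ T, ∃ V : Finset (Fin 9), V.card = U.card ∧
      ∀ g : Fin n → ℕ, ∑ i ∈ U, g i = ∑ j ∈ V, g (α j) := by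
    intro U hU
    have hUim : (Finset.univ.filter (fun j : Fin 9 => α j ∈ U)).image α = U := by
      ext i
      rw [Finset.mem_image]
      constructor
      · rintro ⟨j, hj, rfl⟩
        exact (Finset.mem_filter.1 hj).2
      · intro hi
        have h1 := hU hi
        rw [hT] at h1
        obtain ⟨j, _, rfl⟩ := Finset.mem_image.1 h1
        exact ⟨j, Finset.mem_filter.2 ⟨Finset.mem_univ j, hi⟩, rfl⟩
    refine ⟨Finset.univ.filter (fun j : Fin 9 => α j ∈ U), ?_, ?_⟩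
    · conv_rhs => rw [← hUim]
      rw [Finset.card_image_of_injective _ hα]
    · intro g
      conv_lhs => rw [← hUim]
      rw [Finset.sum_image (fun x _ y _ h => hα h)]
  have hsumT : ∀ g : Fin n → ℕ, ∑ i ∈ T, g i = ∑ j : Fin 9, g (α j) := by
    intro g
    rw [hT, Finset.sum_image (fun x _ y _ h => hα h)]
  have hccT : ∑ i ∈ T, cc i = ∑ j : Fin 9, γ j := by
    rw [hsumT]
    exact Finset.sum_congr rfl fun j _ => hcc j
  have hnotT : ∀ i, i ∉ T → i ∉ Set.range α := by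
    rintro i hi ⟨j, rfl⟩
    apply hi
    rw [hT]
    exact Finset.mem_image_of_mem _ (Finset.mem_univ j)
  apply tri_class k m 0 (2 * m) d mm cc T
  · rw [hsumT, Finset.sum_congr rfl fun j _ => by rw [hcc j]]
    exact h7
  · exact le_rfl
  · intro i hi
    have := hother i (hnotT i hi)
    omega
  · rw [Nat.le_zero, Finset.card_eq_zero, Finset.filter_eq_empty_iff]
    rintro i _ ⟨h1, h2⟩
    have := hother i (hnotT i h1)
    omega
  · intro U hU hc
    obtain ⟨V, h1, h3⟩ := hsub U hU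
    rw [h3 cc]
    have h4 := hγ3 V (by omega)
    have h5 : ∑ j ∈ V, cc (α j) = ∑ j ∈ V, γ j := Finset.sum_congr rfl fun j _ => hcc j
    omega
  · rw [hccT]; exact hγ9
  · intro i hi
    rw [hT] at hi
    obtain ⟨j, hj, rfl⟩ := Finset.mem_image.1 hi
    rw [hcc, hμ j]
    omega
  · intro U hU hc
    obtain ⟨V, h1, h3⟩ := hsub U hU
    rw [h3 cc, h3 mm]
    have h4 := hβ3 V (by omega)
    have h5 : ∑ j ∈ V, cc (α j) = ∑ j ∈ V, γ j := Finset.sum_congr rfl fun j _ => hcc j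
    have h6 : ∑ j ∈ V, mm (α j) = (2 * m + 1) * ∑ j ∈ V, γ j + ∑ j ∈ V, β j := by
      rw [Finset.mul_sum, ← Finset.sum_add_distrib]
      exact Finset.sum_congr rfl fun j _ => hμ j
    rw [h5, h6, hd]
    omega
  · have h5 : ∑ i ∈ T, mm i = (2 * m + 1) * ∑ i ∈ T, cc i + ∑ j : Fin 9, β j := by
      rw [hsumT, hsumT, Finset.mul_sum, ← Finset.sum_add_distrib]
      exact Finset.sum_congr rfl fun j _ => by rw [hμ, hcc]
    rw [h5, hd]
    have h6 : 3 * ((2 * m + 1) * k) + 3 * f = 3 * ((2 * m + 1) * k + f) := by ring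
    omega

/-- Sums of nine decreasing numbers, one of them changed. -/
lemma sum_if (x : ℕ → ℕ) (i : Fin 9) (y : ℕ) :
    ∑ j : Fin 9, (if j = i then y else x j) + x i = ∑ j : Fin 9, x j + y := by
  classical
  have h1 := Finset.add_sum_erase Finset.univ (fun j : Fin 9 => if j = i then y else x j)
    (Finset.mem_univ i)
  have h2 := Finset.add_sum_erase Finset.univ (fun j : Fin 9 => x j) (Finset.mem_univ i)
  have h3 : ∑ j ∈ Finset.univ.erase i, (if j = i then y else x j) =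
      ∑ j ∈ Finset.univ.erase i, x j := by
    apply Finset.sum_congr rfl
    intro j hj
    rw [if_neg (Finset.ne_of_mem_erase hj)]
  simp only [if_pos] at h1 h2
  omega

/-- All coefficients but that of the anticanonical class are small: the class `E9`. -/
theorem ext_E {n : ℕ} (m d : ℕ) (mm : Fin n → ℕ) (α : Fin 9 → Fin n)
    (hα : Function.Injective α) (ν : ℕ → ℕ) (hν : Antitone ν) (hμ : ∀ j : Fin 9, mm (α j) = ν j)
    (hm : 1 ≤ m) (hother : ∀ i, i ∉ Set.range α → mm i ≤ m) (hd : ν 0 + ν 1 + ν 2 ≤ d)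
    (hK : ν 0 + ν 1 + ν 2 + ν 3 + ν 4 + ν 5 + ν 6 + ν 7 + ν 8 + (2 * m + 1) ≤ 3 * d)
    (hE : ν 0 + ν 1 + ν 8 + (2 * m + 1) ≤ d) (hbig : 14 * m ^ 2 + 13 * m + 1 < 2 * ν 8) :
    OK (tri (d + 1)) mm := by
  classical
  obtain ⟨R, hR⟩ : ∃ R, R = 2 * m + 1 := ⟨_, rfl⟩
  obtain ⟨c, hc⟩ : ∃ c, c = ν 8 / R := ⟨_, rfl⟩
  have hc1 : R * c ≤ ν 8 := by rw [hc]; exact Nat.mul_div_le _ _
  have hc2 : ν 8 ≤ R * c + 2 * m := by
    have h1 := Nat.div_add_mod (ν 8) R
    have h2 := Nat.mod_lt (ν 8) (show 0 < R by omega)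
    rw [← hc] at h1
    omega
  have hc3 : 7 * m + 1 < 2 * c := by
    by_contra hcon
    have h1 : R * (2 * c) ≤ R * (7 * m + 1) := Nat.mul_le_mul_left _ (by omega)
    have h2 : R * (2 * c) = 2 * (R * c) := by ring
    have h3 : R * (7 * m + 1) = 14 * m ^ 2 + 9 * m + 1 := by rw [hR]; ring
    omega
  have hνle : ∀ j : Fin 9, R * c ≤ ν j := by
    intro j
    have := hν (show (j : ℕ) ≤ 8 by omega)
    omega
  obtain ⟨x, hx⟩ : ∃ x : ℕ → ℕ, x = fun j => ν j - R * c := ⟨_, rfl⟩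
  have hxa : Antitone x := by
    intro a b hab
    rw [hx]
    have := hν hab
    simp only
    omega
  have hxj : ∀ j : Fin 9, x j + R * c = ν j := by
    intro j
    have := hνle j
    rw [hx]
    simp only
    omega
  have x0 := hxj 0
  have x1 := hxj 1
  have x2 := hxj 2
  have x8 := hxj 8
  have e0 : ((0 : Fin 9) : ℕ) = 0 := rfl
  have e1 : ((1 : Fin 9) : ℕ) = 1 := rfl
  have e2 : ((2 : Fin 9) : ℕ) = 2 := rfl
  have e8 : ((8 : Fin 9) : ℕ) = 8 := rfl
  rw [e0] at x0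
  rw [e1] at x1
  rw [e2] at x2
  rw [e8] at x8
  have hk : R * (3 * c) = 3 * (R * c) := by ring
  obtain ⟨f, hf⟩ : ∃ f, f = d - R * (3 * c) := ⟨_, rfl⟩
  have h28 := hν (show 2 ≤ 8 by norm_num)
  apply tri_all m d mm α hα (fun j => if j = 8 then c - 1 else c)
    (fun j => if j = 8 then x 8 + R else x j) (3 * c) f
  · rw [← hR]; omega
  · intro j
    rw [hμ, ← hR]
    by_cases hj : (j : ℕ) = 8
    · rw [if_pos hj, if_pos hj, hj]
      obtain ⟨b, rfl⟩ : ∃ b, c = b + 1 := ⟨c - 1, by omega⟩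
      have : R * (b + 1) = R * b + R := by ring
      rw [Nat.add_sub_cancel]
      omega
    · rw [if_neg hj, if_neg hj]
      have := hxj j
      omega
  · intro V hV
    calc ∑ j ∈ V, (if (j : ℕ) = 8 then c - 1 else c) ≤ ∑ _j ∈ V, c :=
          Finset.sum_le_sum fun j _ => by split_ifs <;> omega
      _ = V.card * c := by rw [Finset.sum_const, smul_eq_mul]
      _ ≤ 3 * c := Nat.mul_le_mul_right _ hV
  · rw [sum9 (fun j => if j = 8 then c - 1 else c)]
    norm_num
    omega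
  · intro V hV
    by_cases h8 : (8 : Fin 9) ∈ V
    · rw [← Finset.add_sum_erase V _ h8]
      have h1 : ∑ j ∈ V.erase 8, (if (j : ℕ) = 8 then x 8 + R else x j) =
          ∑ j ∈ V.erase 8, x j := by
        apply Finset.sum_congr rfl
        intro j hj
        rw [if_neg]
        intro h
        exact Finset.ne_of_mem_erase hj (Fin.ext h)
      have h2 := two_le hxa (V.erase 8) (by rw [Finset.card_erase_of_mem h8]; omega)
      rw [h1]
      simp only [e8, if_pos]
      omega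
    · have h1 : ∑ j ∈ V, (if (j : ℕ) = 8 then x 8 + R else x j) = ∑ j ∈ V, x j := by
        apply Finset.sum_congr rfl
        intro j hj
        rw [if_neg]
        intro h
        exact h8 ((Fin.ext h : j = 8) ▸ hj)
      have h2 := three_le' hxa V hV
      rw [h1]
      omega
  · rw [sum9 (fun j => if j = 8 then x 8 + R else x j)]
    have x3 := hxj 3
    have x4 := hxj 4
    have x5 := hxj 5
    have x6 := hxj 6
    have x7 := hxj 7
    have e3 : ((3 : Fin 9) : ℕ) = 3 := rfl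
    have e4 : ((4 : Fin 9) : ℕ) = 4 := rfl
    have e5 : ((5 : Fin 9) : ℕ) = 5 := rfl
    have e6 : ((6 : Fin 9) : ℕ) = 6 := rfl
    have e7 : ((7 : Fin 9) : ℕ) = 7 := rfl
    rw [e3] at x3
    rw [e4] at x4
    rw [e5] at x5
    rw [e6] at x6
    rw [e7] at x7
    norm_num
    omega
  · exact hother
  · have h1 := sum9 (fun j => (if j = 8 then c - 1 else c) ^ 2)
    simp only at h1
    rw [h1]
    norm_num
    obtain ⟨b, rfl⟩ : ∃ b, c = b + 1 := ⟨c - 1, by omega⟩
    rw [Nat.add_sub_cancel]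
    nlinarith

/-- All coefficients but that of the anticanonical class are small: the class `H - E1`. -/
theorem ext_L {n : ℕ} (m d : ℕ) (mm : Fin n → ℕ) (α : Fin 9 → Fin n)
    (hα : Function.Injective α) (ν : ℕ → ℕ) (hν : Antitone ν) (hμ : ∀ j : Fin 9, mm (α j) = ν j)
    (hm : 1 ≤ m) (hother : ∀ i, i ∉ Set.range α → mm i ≤ m) (hd : ν 0 + ν 1 + ν 2 ≤ d)
    (hK : ν 0 + ν 1 + ν 2 + ν 3 + ν 4 + ν 5 + ν 6 + ν 7 + ν 8 + (4 * m + 2) ≤ 3 * d)
    (hE : ν 1 + ν 2 + ν 3 + (2 * m + 1) ≤ d) (hbig : 14 * m ^ 2 + 23 * m + 4 < 4 * ν 8) :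
    OK (tri (d + 1)) mm := by
  classical
  obtain ⟨R, hR⟩ : ∃ R, R = 2 * m + 1 := ⟨_, rfl⟩
  obtain ⟨c, hc⟩ : ∃ c, c = ν 8 / R - 1 := ⟨_, rfl⟩
  have hc0 : 7 * m + 4 < 4 * (ν 8 / R) := by
    by_contra hcon
    have h0 : ν 8 ≤ R * (ν 8 / R) + 2 * m := by
      have h1 := Nat.div_add_mod (ν 8) R
      have h2 := Nat.mod_lt (ν 8) (show 0 < R by omega)
      omega
    have h1 : R * (4 * (ν 8 / R)) ≤ R * (7 * m + 4) := Nat.mul_le_mul_left _ (by omega)
    have h2 : R * (4 * (ν 8 / R)) = 4 * (R * (ν 8 / R)) := by ring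
    have h3 : R * (7 * m + 4) = 14 * m ^ 2 + 15 * m + 4 := by rw [hR]; ring
    omega
  have hc1 : R * (c + 1) ≤ ν 8 := by
    rw [hc, show ν 8 / R - 1 + 1 = ν 8 / R by omega]
    exact Nat.mul_div_le _ _
  have hc3 : 7 * m < 4 * c := by omega
  have hRc : R * (c + 1) = R * c + R := by ring
  have hνle : ∀ j : Fin 9, R * c + R ≤ ν j := by
    intro j
    have := hν (show (j : ℕ) ≤ 8 by omega)
    omega
  obtain ⟨x, hx⟩ : ∃ x : ℕ → ℕ, x = fun j => ν j - R * c := ⟨_, rfl⟩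
  have hxa : Antitone x := by
    intro a b hab
    rw [hx]
    have := hν hab
    simp only
    omega
  have hxj : ∀ j : Fin 9, x j + R * c = ν j := by
    intro j
    have := hνle j
    rw [hx]
    simp only
    omega
  have hxR : ∀ j : Fin 9, R ≤ x j := by
    intro j
    have := hνle j
    have := hxj j
    omega
  have x0 := hxj 0
  have x1 := hxj 1
  have x2 := hxj 2
  have x3 := hxj 3
  have y0 := hxR 0
  have e0 : ((0 : Fin 9) : ℕ) = 0 := rfl
  have e1 : ((1 : Fin 9) : ℕ) = 1 := rfl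
  have e2 : ((2 : Fin 9) : ℕ) = 2 := rfl
  have e3 : ((3 : Fin 9) : ℕ) = 3 := rfl
  rw [e0] at x0 y0
  rw [e1] at x1
  rw [e2] at x2
  rw [e3] at x3
  have hk : R * (3 * c + 1) = 3 * (R * c) + R := by ring
  obtain ⟨f, hf⟩ : ∃ f, f = d - R * (3 * c + 1) := ⟨_, rfl⟩
  apply tri_all m d mm α hα (fun j => if j = 0 then c + 1 else c)
    (fun j => if j = 0 then x 0 - R else x j) (3 * c + 1) f
  · rw [← hR]; omega
  · intro j
    rw [hμ, ← hR]
    by_cases hj : (j : ℕ) = 0
    · rw [if_pos hj, if_pos hj, hj]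
      omega
    · rw [if_neg hj, if_neg hj]
      have := hxj j
      omega
  · intro V hV
    by_cases h0 : (0 : Fin 9) ∈ V
    · rw [← Finset.add_sum_erase V _ h0]
      have h1 : ∑ j ∈ V.erase 0, (if (j : ℕ) = 0 then c + 1 else c) =
          ∑ _j ∈ V.erase 0, c := by
        apply Finset.sum_congr rfl
        intro j hj
        rw [if_neg]
        intro h
        exact Finset.ne_of_mem_erase hj (Fin.ext h)
      have h2 : (V.erase 0).card ≤ 2 := by rw [Finset.card_erase_of_mem h0]; omega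
      have h3 := Nat.mul_le_mul_right c h2
      rw [h1, Finset.sum_const, smul_eq_mul]
      simp only [e0, if_pos]
      omega
    · have h1 : ∑ j ∈ V, (if (j : ℕ) = 0 then c + 1 else c) = ∑ _j ∈ V, c := by
        apply Finset.sum_congr rfl
        intro j hj
        rw [if_neg]
        intro h
        exact h0 ((Fin.ext h : j = 0) ▸ hj)
      have h3 := Nat.mul_le_mul_right c hV
      rw [h1, Finset.sum_const, smul_eq_mul]
      omega
  · rw [sum9 (fun j => if j = 0 then c + 1 else c)]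
    norm_num
    omega
  · intro V hV
    by_cases h0 : (0 : Fin 9) ∈ V
    · have h2 := three_le' hxa V hV
      rw [← Finset.add_sum_erase V _ h0] at h2
      rw [← Finset.add_sum_erase V _ h0]
      have h1 : ∑ j ∈ V.erase 0, (if (j : ℕ) = 0 then x 0 - R else x j) =
          ∑ j ∈ V.erase 0, x j := by
        apply Finset.sum_congr rfl
        intro j hj
        rw [if_neg]
        intro h
        exact Finset.ne_of_mem_erase hj (Fin.ext h)
      rw [h1]
      simp only [e0, if_pos] at h2 ⊢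
      omega
    · have h1 : ∑ j ∈ V, (if (j : ℕ) = 0 then x 0 - R else x j) = ∑ j ∈ V, x j := by
        apply Finset.sum_congr rfl
        intro j hj
        rw [if_neg]
        intro h
        exact h0 ((Fin.ext h : j = 0) ▸ hj)
      have h2 := three_le_pos hxa V hV h0
      rw [h1]
      omega
  · rw [sum9 (fun j => if j = 0 then x 0 - R else x j)]
    have x4 := hxj 4
    have x5 := hxj 5
    have x6 := hxj 6
    have x7 := hxj 7
    have x8 := hxj 8
    have e4 : ((4 : Fin 9) : ℕ) = 4 := rfl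
    have e5 : ((5 : Fin 9) : ℕ) = 5 := rfl
    have e6 : ((6 : Fin 9) : ℕ) = 6 := rfl
    have e7 : ((7 : Fin 9) : ℕ) = 7 := rfl
    have e8 : ((8 : Fin 9) : ℕ) = 8 := rfl
    rw [e4] at x4
    rw [e5] at x5
    rw [e6] at x6
    rw [e7] at x7
    rw [e8] at x8
    norm_num
    omega
  · exact hother
  · have h1 := sum9 (fun j => (if j = 0 then c + 1 else c) ^ 2)
    simp only at h1
    rw [h1]
    norm_num
    nlinarith

/-- All coefficients but that of the anticanonical class are small. -/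
theorem ext9 {n : ℕ} (m d : ℕ) (mm : Fin n → ℕ) (α : Fin 9 → Fin n)
    (hα : Function.Injective α) (ν : ℕ → ℕ) (hν : Antitone ν) (hμ : ∀ j : Fin 9, mm (α j) = ν j)
    (hm : 1 ≤ m) (hother : ∀ i, i ∉ Set.range α → mm i ≤ m) (hd : ν 0 + ν 1 + ν 2 ≤ d)
    (hK : ν 0 + ν 1 + ν 2 + ν 3 + ν 4 + ν 5 + ν 6 + ν 7 + ν 8 + 18 * m < 3 * d)
    (hbig : 3100 * m ^ 2 ≤ 120 * ν 8 + 1360 * m) : OK (tri (d + 1)) mm := by
  classical
  have a0 := hν (show 0 ≤ 1 by norm_num)
  have a1 := hν (show 1 ≤ 2 by norm_num)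
  have a2 := hν (show 2 ≤ 3 by norm_num)
  have a3 := hν (show 3 ≤ 4 by norm_num)
  have a4 := hν (show 4 ≤ 5 by norm_num)
  have a5 := hν (show 5 ≤ 6 by norm_num)
  have a6 := hν (show 6 ≤ 7 by norm_num)
  have a7 := hν (show 7 ≤ 8 by norm_num)
  have hm2 : m ≤ m ^ 2 := by nlinarith
  by_cases hE : ν 0 + ν 1 + ν 8 + (2 * m + 1) ≤ d
  · exact ext_E m d mm α hα ν hν hμ hm hother hd (by omega) hE (by omega)
  · exact ext_L m d mm α hα ν hν hμ hm hother hd (by omega) (by omega) (by omega)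

end Pool.MP_70e04f_ag.Nine
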