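import Pool.Agent.Lib_MP_70e04f_nine.Val

/-!
# Multiples of the curve (piece FACT)

PAPER PROOFS. `mul_mem_Lsys2`: degrees add (if `N = 0` or `N' = 0` a factor is zero,
`eq_zero_of_mem_Lsys_zero` in `Lib_MP_70e04f_add/Filt.lean`), `I ^ a * I ^ b ⊆ I ^ (a + b)`.
`curve_mul_iff`: from right to left `mul_mem_Lsys2` and `Lsys_anti` (if `N < k` then `G = 0`). From
left to right: if `G ≠ 0` then `totalDegree (f * G) = k + totalDegree G`
(`totalDegree_mul_of_isDomain`, `mem_range_tri`), and `mem_pow_sub` at every `q t`.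
`row_mul_mem`: `mul_mem_Lsys2` and `Lsys_anti`; if `N < (j + 1) * k` then `G = 0`.
`finrank_br`: rank-nullity for the restriction of `br P lam η` to `Lsys N m q`; its kernel is the
space of multiples of `f` in `Lsys N m q`, which is the image of `Lsys (N - k) (m - c) q` under the
injective multiplication by `f` (`curve_mul_iff`).
-/

namespace Pool.MP_70e04f_ag.Nine

open MvPolynomial Pool.MP_70e04f_ag.Hex Pool.MP_70e04f_ag.Add

theorem Lsys_anti {τ : Type*} {N N' : ℕ} {m m' : τ → ℕ} {q : τ → Fin 2 → ℝ} (h : N ≤ N')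
    (h' : ∀ t, m' t ≤ m t) : Lsys N m q ≤ Lsys N' m' q := by
  intro F hF
  obtain ⟨h1, h2⟩ := Submodule.mem_inf.1 hF
  refine Submodule.mem_inf.2 ⟨?_, ?_⟩
  · rw [mem_range_toPS] at h1 ⊢
    intro s hs
    have := mem_tri.1 (h1 s hs)
    exact mem_tri.2 (this.trans_le h)
  · rw [mem_vanish] at h2 ⊢
    intro t
    exact Ideal.pow_le_pow_right (h' t) (h2 t)

theorem mul_mem_Lsys2 {τ : Type*} {N N' : ℕ} {m m' : τ → ℕ} {q : τ → Fin 2 → ℝ}
    {A G : MvPolynomial (Fin 2) ℝ} (hA : A ∈ Lsys N m q) (hG : G ∈ Lsys N' m' q) :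
    A * G ∈ Lsys (N + N' - 1) (fun t => m t + m' t) q := by
  rcases Nat.eq_zero_or_pos N with h0 | h0
  · subst h0
    rw [eq_zero_of_mem_Lsys_zero hA, zero_mul]
    exact Submodule.zero_mem _
  rcases Nat.eq_zero_or_pos N' with h0' | h0'
  · subst h0'
    rw [eq_zero_of_mem_Lsys_zero hG, mul_zero]
    exact Submodule.zero_mem _
  obtain ⟨n, rfl⟩ : ∃ n, N = n + 1 := ⟨N - 1, by omega⟩
  obtain ⟨n', rfl⟩ : ∃ n', N' = n' + 1 := ⟨N' - 1, by omega⟩
  obtain ⟨hA1, hA2⟩ := Submodule.mem_inf.1 hA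
  obtain ⟨hG1, hG2⟩ := Submodule.mem_inf.1 hG
  refine Submodule.mem_inf.2 ⟨?_, ?_⟩
  · rw [mem_range_tri] at hA1 hG1
    rw [show n + 1 + (n' + 1) - 1 = n + n' + 1 by omega, mem_range_tri]
    exact (totalDegree_mul _ _).trans (add_le_add hA1 hG1)
  · rw [mem_vanish] at hA2 hG2 ⊢
    intro t
    rw [pow_add]
    exact Ideal.mul_mem_mul (hA2 t) (hG2 t)

/-- Multiples of the curve. -/
theorem curve_mul_iff {τ : Type*} {k N : ℕ} {m c : τ → ℕ} {q : τ → Fin 2 → ℝ}
    {f G : MvPolynomial (Fin 2) ℝ} {P : Fin 2 → ℝ} (hf : IsCurve k c q f P) :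
    f * G ∈ Lsys N m q ↔ G ∈ Lsys (N - k) (fun t => m t - c t) q := by
  constructor
  · intro h
    by_cases hG0 : G = 0
    · rw [hG0]
      exact Submodule.zero_mem _
    obtain ⟨h1, h2⟩ := Submodule.mem_inf.1 h
    have hf0 : f ≠ 0 := hf.irr.ne_zero
    have hN : 1 ≤ N := by
      rcases Nat.eq_zero_or_pos N with h0 | h0
      · subst h0
        exact absurd (eq_zero_of_mem_Lsys_zero h) (mul_ne_zero hf0 hG0)
      · exact h0
    obtain ⟨n, rfl⟩ : ∃ n, N = n + 1 := ⟨N - 1, by omega⟩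
    rw [mem_range_tri, totalDegree_mul_of_isDomain hf0 hG0, hf.deg] at h1
    refine Submodule.mem_inf.2 ⟨?_, ?_⟩
    · rw [show n + 1 - k = (n - k) + 1 by omega, mem_range_tri]
      omega
    · rw [mem_vanish] at h2 ⊢
      intro t
      exact mem_pow_sub (hf.exact t) (h2 t)
  · intro h
    rcases Nat.lt_or_ge k N with hk | hk
    · refine Lsys_anti (by omega) (fun t => ?_) (mul_mem_Lsys2 hf.mem h)
      show m t ≤ c t + (m t - c t)
      omega
    · have h0 : N - k = 0 := by omega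
      rw [h0] at h
      rw [eq_zero_of_mem_Lsys_zero h, mul_zero]
      exact Submodule.zero_mem _

/-- Products with elements of the system of the curve. -/
theorem row_mul_mem {τ : Type*} {k N j : ℕ} {m c : τ → ℕ} {q : τ → Fin 2 → ℝ}
    {H G : MvPolynomial (Fin 2) ℝ} (hH : H ∈ Lsys (k + 1) c q)
    (hG : G ∈ Lsys (N - (j + 1) * k) (fun t => m t - (j + 1) * c t) q) :
    H * G ∈ Lsys (N - j * k) (fun t => m t - j * c t) q := by
  have e1 : (j + 1) * k = j * k + k := by ring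
  rcases Nat.lt_or_ge ((j + 1) * k) N with hk | hk
  · refine Lsys_anti (by omega) (fun t => ?_) (mul_mem_Lsys2 hH hG)
    show m t - j * c t ≤ c t + (m t - (j + 1) * c t)
    have e2 : (j + 1) * c t = j * c t + c t := by ring
    omega
  · have h0 : N - (j + 1) * k = 0 := by omega
    rw [h0] at hG
    rw [eq_zero_of_mem_Lsys_zero hG, mul_zero]
    exact Submodule.zero_mem _

/-- The dimension of the restriction to the curve. -/
theorem finrank_br {τ : Type*} {k N : ℕ} {m c : τ → ℕ} {q : τ → Fin 2 → ℝ}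
    {f : MvPolynomial (Fin 2) ℝ} {P : Fin 2 → ℝ} (hf : IsCurve k c q f P) {lam : ℝ}
    {η : PowerSeries ℝ} (hbr : ∀ G, br P lam η G = 0 ↔ f ∣ G) :
    Module.finrank ℝ ↥((Lsys N m q).map (br P lam η).toLinearMap) +
      hT (N - k) (fun t => m t - c t) q = hT N m q := by
  have hf0 : f ≠ 0 := hf.irr.ne_zero
  set W := Lsys N m q with hW
  have : Module.Finite ℝ ↥W := by
    have h1 : Module.Finite ℝ ↥(LinearMap.range (toPS (tri N))) := inferInstance
    rw [hW, Lsys]
    exact Submodule.finiteDimensional_inf_left _ _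
  let M : MvPolynomial (Fin 2) ℝ →ₗ[ℝ] MvPolynomial (Fin 2) ℝ := LinearMap.mulLeft ℝ f
  have hM : Function.Injective M := fun G G' h => mul_left_cancel₀ hf0 h
  have h7 := LinearMap.finrank_range_add_finrank_ker ((br P lam η).toLinearMap.domRestrict W)
  rw [LinearMap.range_domRestrict] at h7
  have hmap : (LinearMap.ker ((br P lam η).toLinearMap.domRestrict W)).map W.subtype =
      (Lsys (N - k) (fun t => m t - c t) q).map M := by
    ext F
    constructor
    · rintro ⟨x, hx, rfl⟩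
      have h1 : br P lam η x.1 = 0 := hx
      obtain ⟨G, hG⟩ := (hbr x.1).1 h1
      refine ⟨G, ?_, hG.symm⟩
      have h2 : x.1 ∈ Lsys N m q := x.2
      rw [hG] at h2
      exact (curve_mul_iff hf).1 h2
    · rintro ⟨G, hG, rfl⟩
      have h1 : f * G ∈ W := (curve_mul_iff hf).2 hG
      refine ⟨⟨f * G, h1⟩, ?_, rfl⟩
      exact (hbr (f * G)).2 (dvd_mul_right f G)
  have h8 := (Submodule.equivMapOfInjective W.subtype W.injective_subtype
    (LinearMap.ker ((br P lam η).toLinearMap.domRestrict W))).finrank_eq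
  have h9 := (Submodule.equivMapOfInjective M hM
    (Lsys (N - k) (fun t => m t - c t) q)).finrank_eq
  rw [hmap, ← h9] at h8
  rw [h8] at h7
  exact h7

end Pool.MP_70e04f_ag.Nine
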