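import Pool.Agent.Lib_MP_70e04f_nine.Nine
import Pool.Agent.Lib_MP_70e04f_nine.Deg

/-!
# The nine point theorem: final form
-/

namespace Pool.MP_70e04f_ag.Nine

open Pool.MP_70e04f_ag.Hex Pool.MP_70e04f_ag.Add

/-- The nine point theorem, with a bound for the degree or for the self-intersection. -/
theorem gen_nine_final {n : ℕ} (m d D : ℕ) (mm : Fin n → ℕ) (α : Fin 9 → Fin n)
    (hα : Function.Injective α) (hanti : Antitone fun j => mm (α j)) (hm : 1 ≤ m)
    (hm9 : m ≤ mm (α 8)) (hother : ∀ i, i ∉ Set.range α → mm i ≤ m)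
    (hstd : mm (α 0) + mm (α 1) + mm (α 2) ≤ d)
    (hK : ∑ j, mm (α j) + 18 * m < 3 * d)
    (hsq : ∑ j, mm (α j) ^ 2 + 3100 * m ^ 3 ≤ d ^ 2 ∨ 780 * m ^ 2 ≤ d)
    (hD : D = d ∨ D ≤ d ∧ (d + 1) * (d + 2) ≤ ∑ i, mm i * (mm i + 1)) : GenExp D mm := by
  have hsq' : ∑ j, mm (α j) ^ 2 + 3100 * m ^ 3 ≤ d ^ 2 := by
    rcases hsq with h | h
    · exact h
    · obtain ⟨μ, hμ⟩ : ∃ μ : ℕ → ℕ, μ = fun j => if h : j < 9 then mm (α ⟨j, h⟩) else 0 :=
        ⟨_, rfl⟩
      have hμα : ∀ j : Fin 9, mm (α j) = μ j := by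
        intro j
        rw [hμ]
        simp only [j.2, dif_pos]
      have hμa : Antitone μ := by
        intro a b hab
        rw [hμ]
        simp only
        by_cases hb : b < 9
        · rw [dif_pos hb, dif_pos (lt_of_le_of_lt hab hb)]
          exact hanti (show (⟨a, lt_of_le_of_lt hab hb⟩ : Fin 9) ≤ ⟨b, hb⟩ from hab)
        · rw [dif_neg hb]
          exact Nat.zero_le _
      have e1 : ∑ j, mm (α j) = ∑ j : Fin 9, μ j := Finset.sum_congr rfl fun j _ => hμα j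
      have e2 : ∑ j, mm (α j) ^ 2 = ∑ j : Fin 9, μ j ^ 2 :=
        Finset.sum_congr rfl fun j _ => by rw [hμα]
      have e3 := sum9 (fun j => μ j ^ 2)
      rw [e1, sum9] at hK
      rw [e2, e3]
      have m0 := hμα 0
      have m1 := hμα 1
      have m2 := hμα 2
      have m8 := hμα 8
      have f0 : ((0 : Fin 9) : ℕ) = 0 := rfl
      have f1 : ((1 : Fin 9) : ℕ) = 1 := rfl
      have f2 : ((2 : Fin 9) : ℕ) = 2 := rfl
      have f8 : ((8 : Fin 9) : ℕ) = 8 := rfl
      rw [f0] at m0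
      rw [f1] at m1
      rw [f2] at m2
      rw [f8] at m8
      exact sq_of_deg hμa (by omega) (by omega) hK h
  have h := gen_nine m d mm α hα hanti hm hm9 hother hstd hK hsq'
  rcases hD with rfl | ⟨h1, h2⟩
  · exact h
  · exact h.le h1 h2

end Pool.MP_70e04f_ag.Nine
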