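import Pool.Agent.Lib_MP_70e04f_nine.ClassT

/-!
# The general theorem for nine points ordered by their multiplicities
-/

namespace Pool.MP_70e04f_ag.Nine

open Pool.MP_70e04f_ag.Hex Pool.MP_70e04f_ag.Add

/-- Three of nine decreasing numbers. -/
lemma three_le {γ : ℕ → ℕ} (hγ : Antitone γ) (V : Finset (Fin 9)) (hV : V.card ≤ 3) :
    ∑ j ∈ V, γ j ≤ γ 0 + γ 1 + γ 2 := by
  classical
  have hS : (({0, 1, 2} : Finset (Fin 9))).card = 3 := by decide
  set S : Finset (Fin 9) := {0, 1, 2} with hSd
  have hsum : ∑ j ∈ S, γ j = γ 0 + γ 1 + γ 2 := by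
    rw [hSd]
    rw [Finset.sum_insert (by decide), Finset.sum_insert (by decide), Finset.sum_singleton]
    simp [add_assoc]
  have h1 : ∑ j ∈ V \ S, γ (j : ℕ) ≤ (V \ S).card * γ 2 := by
    rw [← smul_eq_mul]
    apply Finset.sum_le_card_nsmul
    intro j hj
    apply hγ
    rw [Finset.mem_sdiff] at hj
    by_contra hcon
    apply hj.2
    have hj2 : (j : ℕ) < 2 := by omega
    rw [hSd]
    simp only [Finset.mem_insert, Finset.mem_singleton]
    rcases Nat.lt_or_ge (j : ℕ) 1 with h | h
    · left; exact Fin.ext (by simp; omega)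
    · right; left; exact Fin.ext (by simp; omega)
  have h2 : (S \ V).card * γ 2 ≤ ∑ j ∈ S \ V, γ (j : ℕ) := by
    rw [← smul_eq_mul]
    apply Finset.card_nsmul_le_sum
    intro j hj
    apply hγ
    rw [Finset.mem_sdiff, hSd] at hj
    have := hj.1
    simp only [Finset.mem_insert, Finset.mem_singleton] at this
    rcases this with h | h | h <;> rw [h] <;> simp
  have h3 : (V \ S).card ≤ (S \ V).card := by
    have e1 := Finset.card_sdiff_add_card_inter V S
    have e2 := Finset.card_sdiff_add_card_inter S V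
    rw [Finset.inter_comm] at e2
    omega
  have h4 := Finset.sum_inter_add_sum_sdiff V S (fun j : Fin 9 => γ (j : ℕ))
  have h5 := Finset.sum_inter_add_sum_sdiff S V (fun j : Fin 9 => γ (j : ℕ))
  rw [Finset.inter_comm] at h5
  have h6 := Nat.mul_le_mul_right (γ 2) h3
  omega

/-- Nine decreasing numbers. -/
lemma nine_le {γ : ℕ → ℕ} (hγ : Antitone γ) : ∑ j : Fin 9, γ j ≤ 3 * (γ 0 + γ 1 + γ 2) := by
  have h : ∀ j, 2 ≤ j → γ j ≤ γ 2 := fun j hj => hγ hj
  have h1 := hγ (show 1 ≤ 2 by norm_num)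
  have h2 := hγ (show 0 ≤ 1 by norm_num)
  have a3 := h 3 (by norm_num)
  have a4 := h 4 (by norm_num)
  have a5 := h 5 (by norm_num)
  have a6 := h 6 (by norm_num)
  have a7 := h 7 (by norm_num)
  have a8 := h 8 (by norm_num)
  simp only [Fin.sum_univ_succ, Fin.val_zero, Fin.val_succ, Finset.univ_unique,
    Finset.sum_singleton, Fin.default_eq_zero]
  norm_num
  omega

/-- The general theorem for ordered points. -/
theorem tri_floor {n : ℕ} (m d r : ℕ) (mm : Fin n → ℕ) (α : Fin 9 → Fin n)
    (hα : Function.Injective α) (γ β : ℕ → ℕ) (hγ : Antitone γ)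
    (hβ : Antitone β) (k f : ℕ) (hd : d = (2 * m + 1) * k + f)
    (hμ : ∀ j : Fin 9, (j : ℕ) < r → mm (α j) = (2 * m + 1) * γ j + β j)
    (hγ0 : ∀ j, r ≤ j → γ j = 0) (hβ0 : ∀ j, r ≤ j → β j = 0)
    (hk : γ 0 + γ 1 + γ 2 ≤ k) (hf : β 0 + β 1 + β 2 ≤ f)
    (hsmall : ∀ j : Fin 9, r ≤ (j : ℕ) → mm (α j) ≤ 2 * m)
    (hother : ∀ i, i ∉ Set.range α → mm i ≤ m)
    (h7 : 7 * m + (9 - r) + ∑ j : Fin 9, γ j ^ 2 < k ^ 2) : OK (tri (d + 1)) mm := by
  classical
  set T : Finset (Fin n) := (Finset.univ.filter (fun j : Fin 9 => (j : ℕ) < r)).image α with hT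
  set cc : Fin n → ℕ := fun i => ∑ j : Fin 9, if α j = i then γ j else 0 with hcc
  have hccα : ∀ j : Fin 9, cc (α j) = γ j := by
    intro j
    rw [hcc]
    simp only
    rw [Finset.sum_eq_single j]
    · simp
    · intro b _ hb
      rw [if_neg]
      intro h
      exact hb (hα h)
    · intro h
      exact absurd (Finset.mem_univ j) h
  have memT : ∀ j : Fin 9, α j ∈ T ↔ (j : ℕ) < r := by
    intro j
    rw [hT, Finset.mem_image]
    constructor
    · rintro ⟨j', hj', h⟩
      rw [hα h] at hj'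
      exact (Finset.mem_filter.1 hj').2
    · intro h
      exact ⟨j, Finset.mem_filter.2 ⟨Finset.mem_univ j, h⟩, rfl⟩
  -- subsets of `T`
  have hsub : ∀ U ⊆ T, ∃ V : Finset (Fin 9), V.card = U.card ∧ (∀ j ∈ V, (j : ℕ) < r) ∧
      ∀ g : Fin n → ℕ, ∑ i ∈ U, g i = ∑ j ∈ V, g (α j) := by
    intro U hU
    have hUim : (Finset.univ.filter (fun j : Fin 9 => α j ∈ U)).image α = U := by
      ext i
      rw [Finset.mem_image]
      constructor
      · rintro ⟨j, hj, rfl⟩
        exact (Finset.mem_filter.1 hj).2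
      · intro hi
        obtain ⟨j, _, rfl⟩ := Finset.mem_image.1 (hU hi)
        exact ⟨j, Finset.mem_filter.2 ⟨Finset.mem_univ j, hi⟩, rfl⟩
    refine ⟨Finset.univ.filter (fun j : Fin 9 => α j ∈ U), ?_, ?_, ?_⟩
    · conv_rhs => rw [← hUim]
      rw [Finset.card_image_of_injective _ hα]
    · intro j hj
      exact (memT j).1 (hU (Finset.mem_filter.1 hj).2)
    · intro g
      conv_lhs => rw [← hUim]
      rw [Finset.sum_image (fun x _ y _ h => hα h)]
  have hsumT : ∀ g : Fin n → ℕ, (∀ j : Fin 9, r ≤ (j : ℕ) → g (α j) = 0) →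
      ∑ i ∈ T, g i = ∑ j : Fin 9, g (α j) := by
    intro g hg
    rw [hT, Finset.sum_image (fun x _ y _ h => hα h)]
    apply Finset.sum_subset (Finset.subset_univ _)
    intro j _ hj
    apply hg
    by_contra hcon
    exact hj (Finset.mem_filter.2 ⟨Finset.mem_univ j, by omega⟩)
  have hccT : ∑ i ∈ T, cc i = ∑ j : Fin 9, γ j := by
    rw [hsumT cc (fun j hj => by rw [hccα]; exact hγ0 j hj)]
    exact Finset.sum_congr rfl fun j _ => hccα j
  have hsqT : ∑ i ∈ T, cc i ^ 2 = ∑ j : Fin 9, γ j ^ 2 := by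
    rw [hsumT (fun i => cc i ^ 2) (fun j hj => by
      show cc (α j) ^ 2 = 0
      rw [hccα, hγ0 j hj]; norm_num)]
    exact Finset.sum_congr rfl fun j _ => by rw [hccα j]
  have hnine := nine_le hγ
  apply tri_class k m (9 - r) (2 * m) d mm cc T
  · rw [hsqT]; exact h7
  · exact le_rfl
  · intro i hi
    by_cases h : i ∈ Set.range α
    · obtain ⟨j, rfl⟩ := h
      apply hsmall
      by_contra hcon
      exact hi ((memT j).2 (by omega))
    · have := hother i h
      omega
  · have h1 : (Finset.univ.filter (fun i => i ∉ T ∧ m < mm i)) ⊆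
        (Finset.univ.filter (fun j : Fin 9 => r ≤ (j : ℕ))).image α := by
      intro i hi
      rw [Finset.mem_filter] at hi
      rw [Finset.mem_image]
      have h2 : i ∈ Set.range α := by
        by_contra hcon
        have := hother i hcon
        omega
      obtain ⟨j, rfl⟩ := h2
      refine ⟨j, Finset.mem_filter.2 ⟨Finset.mem_univ j, ?_⟩, rfl⟩
      by_contra hcon
      exact hi.2.1 ((memT j).2 (by omega))
    refine (Finset.card_le_card h1).trans ?_
    rw [Finset.card_image_of_injective _ hα]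
    have h3 : (Finset.univ.filter (fun j : Fin 9 => r ≤ (j : ℕ))) =
        (Finset.univ.filter (fun j : Fin 9 => (j : ℕ) < r))ᶜ := by
      ext j
      simp
    rw [h3, Finset.card_compl, Fintype.card_fin]
    rcases Nat.lt_or_ge r 10 with hr | hr
    · have h4 : (Finset.univ.filter (fun j : Fin 9 => (j : ℕ) < r)).card = r := by
        rw [Fin.card_filter_val_lt]
        omega
      omega
    · have h4 : (Finset.univ.filter (fun j : Fin 9 => (j : ℕ) < r)) = Finset.univ := by
        ext j
        simp only [Finset.mem_filter, Finset.mem_univ, true_and, iff_true]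
        omega
      rw [h4, Finset.card_univ, Fintype.card_fin]
      omega
  · intro U hU hc
    obtain ⟨V, h1, h2, h3⟩ := hsub U hU
    rw [h3 cc]
    have h4 := three_le hγ V (by omega)
    have h5 : ∑ j ∈ V, cc (α j) = ∑ j ∈ V, γ j := Finset.sum_congr rfl fun j _ => hccα j
    omega
  · rw [hccT]
    by_contra hcon
    -- equality in Cauchy
    have h1 : 3 * k ≤ ∑ j : Fin 9, γ j := by omega
    have h2 : (∑ j : Fin 9, γ j) ^ 2 ≤ 9 * ∑ j : Fin 9, γ j ^ 2 := by
      have := sq_sum_le_card_mul_sum_sq (s := (Finset.univ : Finset (Fin 9)))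
        (f := fun j : Fin 9 => γ (j : ℕ))
      simpa using this
    have h3 : (3 * k) ^ 2 ≤ (∑ j : Fin 9, γ j) ^ 2 := Nat.pow_le_pow_left h1 2
    have h4 : (3 * k) ^ 2 = 9 * k ^ 2 := by ring
    omega
  · intro i hi
    obtain ⟨j, hj, rfl⟩ := Finset.mem_image.1 hi
    rw [hccα, hμ j (Finset.mem_filter.1 hj).2]
    omega
  · intro U hU hc
    obtain ⟨V, h1, h2, h3⟩ := hsub U hU
    rw [h3 cc, h3 mm]
    have h4 := three_le hβ V (by omega)
    have h5 : ∑ j ∈ V, cc (α j) = ∑ j ∈ V, γ j := Finset.sum_congr rfl fun j _ => hccα j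
    have h6 : ∑ j ∈ V, mm (α j) = (2 * m + 1) * ∑ j ∈ V, γ j + ∑ j ∈ V, β j := by
      rw [Finset.mul_sum, ← Finset.sum_add_distrib]
      exact Finset.sum_congr rfl fun j hj => hμ j (h2 j hj)
    rw [h5, h6, hd]
    omega
  · have h4 := nine_le hβ
    have h5 : ∑ i ∈ T, mm i = (2 * m + 1) * ∑ i ∈ T, cc i + ∑ j : Fin 9, β j := by
      have e1 : ∑ j : Fin 9, β j = ∑ i ∈ T, (∑ j : Fin 9, if α j = i then β j else 0) := by
        rw [hsumT (fun i => ∑ j : Fin 9, if α j = i then β j else 0)]
        · refine Finset.sum_congr rfl fun j _ => ?_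
          rw [Finset.sum_eq_single j]
          · simp
          · intro b _ hb
            rw [if_neg]
            intro h
            exact hb (hα h)
          · intro h
            exact absurd (Finset.mem_univ j) h
        · intro j hj
          rw [Finset.sum_eq_single j]
          · simp [hβ0 j hj]
          · intro b _ hb
            rw [if_neg]
            intro h
            exact hb (hα h)
          · intro h
            exact absurd (Finset.mem_univ j) h
      rw [e1, Finset.mul_sum, ← Finset.sum_add_distrib]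
      refine Finset.sum_congr rfl fun i hi => ?_
      obtain ⟨j, hj, rfl⟩ := Finset.mem_image.1 hi
      rw [hccα, hμ j (Finset.mem_filter.1 hj).2]
      congr 1
      rw [Finset.sum_eq_single j]
      · simp
      · intro b _ hb
        rw [if_neg]
        intro h
        exact hb (hα h)
      · intro h
        exact absurd (Finset.mem_univ j) h
    rw [h5, hd]
    have h6 : 3 * ((2 * m + 1) * k) + 3 * f = 3 * ((2 * m + 1) * k + f) := by ring
    omega

end Pool.MP_70e04f_ag.Nine
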