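import Pool.Agent.Lib_MP_70e04f_nine.Defs
import Pool.Agent.Lib_MP_70e04f_add.Init

/-!
# Degeneration of a family of polynomials to its initial monomials (piece INIT)

PAPER PROOF of `init_degen2`. As `init_degen` in `Lib_MP_70e04f_add/Init.lean`. Let `p i = (x, u)` be
good for `Q`, and let `D e` be the matrix with rows `(i, (α, β))`, columns `q ∈ Q` and entries
`∑ r ∈ support (H q), coeff r (H q) * e ^ (w r - w q) * ec (x i) (u i) (r 0) (r 1) α β`, where
`w r = r 0 + N0 * r 1` (the exponents are `≥ 0`, as `H q` has no monomials of smaller weight). For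
`e = 0` only `r = q` remains, with coefficient `c q = coeff q (H q) ≠ 0`, so `D 0` is `condP Q m p`
with the columns multiplied by `c q ≠ 0`: it is `Good`. By `exists_detpoly` (over `ℝ[e]`) `D e` is
`Good` for some `e ≠ 0`. Put `p' i = ![e * x i, e ^ N0 * u i]`. By `ec_scale` the conditions at
`p'` on `∑ q, v q • H q` are the conditions `D e *ᵥ (e ^ w q * v q) = 0`. The map
`v ↦ (e ^ w q * v q)` is a bijection.

`linearIndependent_of_initMon`: if `∑ q, v q • H q = 0` and not all `v q` vanish take `q0` with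
`v q0 ≠ 0` and least weight `q.1 + N0 * q.2` (the weights are distinct as `q.1 < N0`): the coefficient
of the monomial `q0` is `v q0 * coeff q0 (H q0) ≠ 0`, since for `q ≠ q0` with `v q ≠ 0` the
weight of `q0` is less than that of `q`, so the coefficient of `q0` in `H q` vanishes.
-/

namespace Pool.MP_70e04f_ag.Nine

open MvPolynomial Pool.MP_70e04f_ag.Hex Pool.MP_70e04f_ag.Add

/-- Polynomials with different initial monomials are linearly independent. -/
theorem linearIndependent_of_initMon {N0 : ℕ} {Q : Finset (ℕ × ℕ)} (hQ : ∀ q ∈ Q, q.1 < N0)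
    (H : ↥Q → MvPolynomial (Fin 2) ℝ) (hH : ∀ q : ↥Q, InitMon N0 q.1 (H q)) :
    LinearIndependent ℝ H := by
  classical
  have _ := hQ
  rw [Fintype.linearIndependent_iff]
  intro v hv
  by_contra hcon
  push Not at hcon
  obtain ⟨i0, hi0⟩ := hcon
  have hne : (Finset.univ.filter (fun q : ↥Q => v q ≠ 0)).Nonempty :=
    ⟨i0, Finset.mem_filter.2 ⟨Finset.mem_univ _, hi0⟩⟩
  obtain ⟨q0, hq0, hmin⟩ := Finset.exists_min_image _
    (fun q : ↥Q => q.1.1 + N0 * q.1.2) hne
  have hv0 : v q0 ≠ 0 := (Finset.mem_filter.1 hq0).2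
  have hc := congrArg (coeff (mon q0.1.1 q0.1.2)) hv
  rw [coeff_sum, coeff_zero, Finset.sum_eq_single q0] at hc
  · rw [coeff_smul, smul_eq_mul] at hc
    rcases mul_eq_zero.1 hc with h | h
    · exact hv0 h
    · exact (hH q0).1 h
  · intro q _ hq
    rw [coeff_smul, smul_eq_mul]
    by_cases hvq : v q = 0
    · rw [hvq, zero_mul]
    · have hle := hmin q (Finset.mem_filter.2 ⟨Finset.mem_univ _, hvq⟩)
      rw [(hH q).2 q0.1.1 q0.1.2 (fun h => hq (Subtype.ext h.symm)) hle, mul_zero]
  · intro h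
    exact absurd (Finset.mem_univ _) h

/-- The Taylor coefficients of a polynomial. -/
lemma coeff_shift_eq (p : Fin 2 → ℝ) (F : MvPolynomial (Fin 2) ℝ) (α β : ℕ) :
    coeff (mon α β) (shift p F) =
      ∑ r ∈ F.support, coeff r F * ec (p 0) (p 1) (r 0) (r 1) α β := by
  conv_lhs => rw [F.as_sum]
  rw [map_sum, coeff_sum]
  refine Finset.sum_congr rfl fun r _ => ?_
  have h1 : (monomial r (coeff r F) : MvPolynomial (Fin 2) ℝ) =
      coeff r F • (X 0 ^ (r 0) * X 1 ^ (r 1)) := by
    rw [X_pow_mul_X_pow, mon_eta, smul_monomial, smul_eq_mul, mul_one]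
  rw [h1, map_smul, coeff_smul, coeff_shift_mon, smul_eq_mul]

/-- The degeneration to the initial monomials. -/
theorem init_degen2 {ι : Type*} [Fintype ι] {N0 : ℕ} {Q : Finset (ℕ × ℕ)}
    (H : ↥Q → MvPolynomial (Fin 2) ℝ) (hH : ∀ q : ↥Q, InitMon N0 q.1 (H q)) {m : ι → ℕ}
    (h : OK Q m) :
    ∃ p : ι → Fin 2 → ℝ,
      Module.finrank ℝ ↥((vanish m p).comap (Fintype.linearCombination ℝ H)) ≤
        Q.card - Fintype.card (Σ i : ι, ↥(tri (m i))) := by
  classical
  obtain ⟨p, hp⟩ := h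
  -- weights
  let W : (Fin 2 →₀ ℕ) → ℕ := fun r => r 0 + N0 * r 1
  let w : ↥Q → ℕ := fun q => q.1.1 + N0 * q.1.2
  have hsupp : ∀ q : ↥Q, ∀ r ∈ (H q).support, r = mon q.1.1 q.1.2 ∨ w q < W r := by
    intro q r hr
    by_contra hcon
    push Not at hcon
    obtain ⟨h1, h2⟩ := hcon
    rw [mem_support_iff] at hr
    apply hr
    have h3 := (hH q).2 (r 0) (r 1) (by
      intro h4
      apply h1
      rw [← mon_eta r, ← h4]) h2
    rwa [mon_eta] at h3
  have hmem : ∀ q : ↥Q, mon q.1.1 q.1.2 ∈ (H q).support := fun q => by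
    rw [mem_support_iff]
    exact (hH q).1
  have hWm : ∀ q : ↥Q, W (mon q.1.1 q.1.2) = w q := by
    intro q
    show mon q.1.1 q.1.2 0 + N0 * mon q.1.1 q.1.2 1 = _
    rw [mon_zero', mon_one']
  let F : Matrix (Σ i : ι, ↥(tri (m i))) ↥Q (Polynomial ℝ) := fun y q =>
    ∑ r ∈ (H q).support, Polynomial.C (coeff r (H q)) * Polynomial.X ^ (W r - w q) *
      ec (Polynomial.C (p y.1 0)) (Polynomial.C (p y.1 1)) (r 0) (r 1) y.2.1.1 y.2.1.2
  let D : ℝ → Matrix (Σ i : ι, ↥(tri (m i))) ↥Q ℝ := fun e y q =>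
    ∑ r ∈ (H q).support, coeff r (H q) * e ^ (W r - w q) *
      ec (p y.1 0) (p y.1 1) (r 0) (r 1) y.2.1.1 y.2.1.2
  have hFe : ∀ e : ℝ, F.map (Polynomial.evalRingHom e) = D e := by
    intro e
    ext y q
    show Polynomial.evalRingHom e (∑ r ∈ (H q).support, Polynomial.C (coeff r (H q)) *
      Polynomial.X ^ (W r - w q) *
      ec (Polynomial.C (p y.1 0)) (Polynomial.C (p y.1 1)) (r 0) (r 1) y.2.1.1 y.2.1.2) = _
    rw [map_sum]
    refine Finset.sum_congr rfl fun r _ => ?_
    rw [map_mul, map_mul, map_pow, ec_map]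
    simp
  have hD0 : ∀ y q, D 0 y q = condP Q m p y q * coeff (mon q.1.1 q.1.2) (H q) := by
    intro y q
    show ∑ r ∈ (H q).support, coeff r (H q) * (0 : ℝ) ^ (W r - w q) *
      ec (p y.1 0) (p y.1 1) (r 0) (r 1) y.2.1.1 y.2.1.2 = _
    rw [Finset.sum_eq_single (mon q.1.1 q.1.2)]
    · rw [hWm q, Nat.sub_self, pow_zero, mul_one, mon_zero', mon_one', mul_comm]
      rfl
    · intro r hr hne
      rcases hsupp q r hr with h1 | h1
      · exact absurd h1 hne
      · have : W r - w q ≠ 0 := by omega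
        rw [zero_pow this, mul_zero, zero_mul]
    · intro hn
      exact absurd (hmem q) hn
  have hgood0 : Good (D 0) := by
    -- kernel of `D 0` injects into the kernel of `condP`
    let θ0 : (↥Q → ℝ) →ₗ[ℝ] (↥Q → ℝ) :=
      LinearMap.pi (fun q => coeff (mon q.1.1 q.1.2) (H q) • LinearMap.proj q)
    have hθ0 : ∀ v q, θ0 v q = coeff (mon q.1.1 q.1.2) (H q) * v q := fun v q => rfl
    have hinj : Function.Injective θ0 := by
      intro v v' hvv
      funext q
      have := congrFun hvv q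
      rw [hθ0, hθ0] at this
      exact mul_left_cancel₀ (hH q).1 this
    have hle : (LinearMap.ker (D 0).mulVecLin).map θ0 ≤
        LinearMap.ker (condP Q m p).mulVecLin := by
      rintro _ ⟨v, hv, rfl⟩
      rw [SetLike.mem_coe, LinearMap.mem_ker, Matrix.mulVecLin_apply] at hv
      rw [LinearMap.mem_ker, Matrix.mulVecLin_apply]
      funext y
      have hy := congrFun hv y
      have hy' : ∑ q, D 0 y q * v q = 0 := hy
      show ∑ q, condP Q m p y q * θ0 v q = 0
      rw [← hy']
      refine Finset.sum_congr rfl fun q _ => ?_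
      rw [hD0, hθ0]
      ring
    have h1 := Submodule.finrank_mono hle
    have h2 : Module.finrank ℝ ((LinearMap.ker (D 0).mulVecLin).map θ0) =
        Module.finrank ℝ (LinearMap.ker (D 0).mulVecLin) :=
      (LinearEquiv.finrank_eq (Submodule.equivMapOfInjective θ0 hinj _)).symm
    have h3 := hp
    unfold Good at h3 ⊢
    omega
  have hcc : ∀ e : ℝ, (Polynomial.evalRingHom e).comp (Polynomial.C : ℝ →+* Polynomial ℝ) =
      RingHom.id ℝ := by
    intro e
    ext r
    simp
  obtain ⟨g, hg0, hgg⟩ := exists_detpoly (Polynomial.C : ℝ →+* Polynomial ℝ) F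
    (Polynomial.evalRingHom 0) (hcc 0) (by rw [hFe]; exact hgood0)
  have hgX : g * Polynomial.X ≠ 0 := by
    apply mul_ne_zero
    · rintro rfl
      simp at hg0
    · exact Polynomial.X_ne_zero
  obtain ⟨e, he⟩ : ∃ e : ℝ, (g * Polynomial.X).eval e ≠ 0 := by
    by_contra hcon
    push Not at hcon
    apply hgX
    apply Polynomial.funext
    intro r
    rw [hcon r]
    simp
  rw [Polynomial.eval_mul, Polynomial.eval_X] at he
  have he1 : g.eval e ≠ 0 := left_ne_zero_of_mul he
  have he2 : e ≠ 0 := right_ne_zero_of_mul he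
  have hDe : Good (D e) := by
    rw [← hFe]
    exact hgg _ (hcc e) he1
  refine ⟨fun i => ![e * p i 0, e ^ N0 * p i 1], ?_⟩
  let θ : (↥Q → ℝ) →ₗ[ℝ] (↥Q → ℝ) := LinearMap.pi (fun q => ((e ^ w q)⁻¹ : ℝ) • LinearMap.proj q)
  have hθ : ∀ v q, θ v q = (e ^ w q)⁻¹ * v q := fun v q => rfl
  have hle : (vanish m (fun i => ![e * p i 0, e ^ N0 * p i 1])).comap
      (Fintype.linearCombination ℝ H) ≤ (LinearMap.ker (D e).mulVecLin).map θ := by
    intro v hv
    rw [Submodule.mem_comap, Fintype.linearCombination_apply, mem_vanish] at hv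
    refine ⟨fun q => e ^ w q * v q, ?_, ?_⟩
    · rw [SetLike.mem_coe, LinearMap.mem_ker, Matrix.mulVecLin_apply]
      funext y
      have h1 := (mem_ker_pow_iff _ (m y.1) _).1 (hv y.1) y.2.1 y.2.2
      rw [map_sum, coeff_sum] at h1
      have h2 : ∀ q : ↥Q, coeff (mon y.2.1.1 y.2.1.2)
          (shift ![e * p y.1 0, e ^ N0 * p y.1 1] (v q • H q)) =
          v q * ∑ r ∈ (H q).support, coeff r (H q) *
            ec (e * p y.1 0) (e ^ N0 * p y.1 1) (r 0) (r 1) y.2.1.1 y.2.1.2 := by
        intro q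
        rw [map_smul, coeff_smul, smul_eq_mul, coeff_shift_eq]
        rfl
      rw [Finset.sum_congr rfl fun q _ => h2 q] at h1
      show ∑ q, D e y q * (e ^ w q * v q) = 0
      have h3 : ∀ q : ↥Q, D e y q * (e ^ w q * v q) =
          (v q * ∑ r ∈ (H q).support, coeff r (H q) *
            ec (e * p y.1 0) (e ^ N0 * p y.1 1) (r 0) (r 1) y.2.1.1 y.2.1.2) *
            (e ^ y.2.1.1 * (e ^ N0) ^ y.2.1.2) := by
        intro q
        show (∑ r ∈ (H q).support, coeff r (H q) * e ^ (W r - w q) *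
          ec (p y.1 0) (p y.1 1) (r 0) (r 1) y.2.1.1 y.2.1.2) * (e ^ w q * v q) = _
        rw [Finset.mul_sum, Finset.sum_mul, Finset.sum_mul]
        refine Finset.sum_congr rfl fun r hr => ?_
        have h4 : w q ≤ W r := by
          rcases hsupp q r hr with h5 | h5
          · rw [h5, hWm q]
          · exact h5.le
        have h6 : e ^ (W r - w q) * e ^ w q = e ^ (r 0) * (e ^ N0) ^ (r 1) := by
          rw [← pow_add, Nat.sub_add_cancel h4, ← pow_mul, ← pow_add]
        have h7 := ec_scale e (e ^ N0) (p y.1 0) (p y.1 1) (r 0) (r 1) y.2.1.1 y.2.1.2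
        calc coeff r (H q) * e ^ (W r - w q) *
            ec (p y.1 0) (p y.1 1) (r 0) (r 1) y.2.1.1 y.2.1.2 * (e ^ w q * v q)
            = coeff r (H q) * v q * ((e ^ (W r - w q) * e ^ w q) *
              ec (p y.1 0) (p y.1 1) (r 0) (r 1) y.2.1.1 y.2.1.2) := by ring
          _ = coeff r (H q) * v q * (ec (e * p y.1 0) (e ^ N0 * p y.1 1) (r 0) (r 1)
              y.2.1.1 y.2.1.2 * (e ^ y.2.1.1 * (e ^ N0) ^ y.2.1.2)) := by
              rw [h6, ← h7]
          _ = _ := by ring
      rw [Finset.sum_congr rfl fun q _ => h3 q, ← Finset.sum_mul, h1, zero_mul]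
    · funext q
      rw [hθ]
      have : (e ^ w q : ℝ) ≠ 0 := pow_ne_zero _ he2
      field_simp
  have h4 := Submodule.finrank_mono hle
  have h5 := Submodule.finrank_map_le θ (LinearMap.ker (D e).mulVecLin)
  have h6 : Module.finrank ℝ (LinearMap.ker (D e).mulVecLin) ≤
      Q.card - Fintype.card (Σ i : ι, ↥(tri (m i))) := by
    have := hDe
    unfold Good at this
    rwa [Fintype.card_coe] at this
  exact h4.trans (h5.trans h6)

end Pool.MP_70e04f_ag.Nine
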