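import Pool.Agent.Lib_MP_70e04f_nine.Big
import Pool.Agent.Lib_MP_70e04f_nine.Ext

/-!
# The nine point theorem: assembly
-/

namespace Pool.MP_70e04f_ag.Nine

open Pool.MP_70e04f_ag.Hex Pool.MP_70e04f_ag.Add Pool.MP_70e04f_ag.Std3

lemma big1 {m a0 a1 : ℕ} (hm : 1 ≤ m) (h0 : 2 * m + 1 ≤ a0) (h1 : 2 * m + 1 ≤ a1)
    (hsq : 3100 * m ^ 3 ≤ a0 ^ 2 + 2 * a0 * a1) :
    7 * m + 8 < (a0 / (2 * m + 1)) ^ 2 + 2 * (a0 / (2 * m + 1)) * (a1 / (2 * m + 1)) := by
  have hdiv : ∀ a, 2 * m + 1 ≤ a → a ≤ 2 * (2 * m + 1) * (a / (2 * m + 1)) := by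
    intro a ha
    have h2 := Nat.div_add_mod a (2 * m + 1)
    have h3 := Nat.mod_lt a (show 0 < 2 * m + 1 by omega)
    have h4 : 1 ≤ a / (2 * m + 1) := (Nat.one_le_div_iff (by omega)).2 ha
    have h5 : (2 * m + 1) * 1 ≤ (2 * m + 1) * (a / (2 * m + 1)) := Nat.mul_le_mul_left _ h4
    have h6 : 2 * (2 * m + 1) * (a / (2 * m + 1)) = 2 * ((2 * m + 1) * (a / (2 * m + 1))) := by
      ring
    omega
  have e0 := hdiv a0 h0
  have e1 := hdiv a1 h1
  generalize a0 / (2 * m + 1) = c0 at *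
  generalize a1 / (2 * m + 1) = c1 at *
  by_contra hcon
  push Not at hcon
  have h2 : a0 ^ 2 + 2 * a0 * a1 ≤ (2 * (2 * m + 1) * c0) ^ 2 +
      2 * (2 * (2 * m + 1) * c0) * (2 * (2 * m + 1) * c1) := by gcongr
  have h3 : (2 * (2 * m + 1) * c0) ^ 2 + 2 * (2 * (2 * m + 1) * c0) * (2 * (2 * m + 1) * c1) =
      4 * (2 * m + 1) ^ 2 * (c0 ^ 2 + 2 * c0 * c1) := by ring
  have h4 : 4 * (2 * m + 1) ^ 2 * (c0 ^ 2 + 2 * c0 * c1) ≤ 4 * (2 * m + 1) ^ 2 * (7 * m + 8) :=
    Nat.mul_le_mul_left _ hcon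
  obtain ⟨x, rfl⟩ : ∃ x, m = x + 1 := ⟨m - 1, by omega⟩
  have h5 : 4 * (2 * (x + 1) + 1) ^ 2 * (7 * (x + 1) + 8) < 3100 * (x + 1) ^ 3 := by
    ring_nf
    nlinarith [Nat.zero_le x, Nat.zero_le (x ^ 2), Nat.zero_le (x ^ 3)]
  omega

lemma big0 {m d : ℕ} (hm : 1 ≤ m) (hsq : 3100 * m ^ 3 ≤ d ^ 2) :
    7 * m + 9 < (d / (2 * m + 1)) ^ 2 := by
  have h2 := Nat.div_add_mod d (2 * m + 1)
  have h3 := Nat.mod_lt d (show 0 < 2 * m + 1 by omega)
  generalize d / (2 * m + 1) = c at *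
  by_contra hcon
  push Not at hcon
  have h4 : d ≤ (2 * m + 1) * (c + 1) := by
    have : (2 * m + 1) * (c + 1) = (2 * m + 1) * c + (2 * m + 1) := by ring
    omega
  have h5 : d ^ 2 ≤ ((2 * m + 1) * (c + 1)) ^ 2 := Nat.pow_le_pow_left h4 2
  have h6 : (c + 1) ^ 2 ≤ 2 * (7 * m + 9) + 2 := by nlinarith [sq_nonneg ((c : ℤ) - 1)]
  have h7 : ((2 * m + 1) * (c + 1)) ^ 2 = (2 * m + 1) ^ 2 * (c + 1) ^ 2 := by ring
  have h8 : (2 * m + 1) ^ 2 * (c + 1) ^ 2 ≤ (2 * m + 1) ^ 2 * (2 * (7 * m + 9) + 2) :=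
    Nat.mul_le_mul_left _ h6
  obtain ⟨x, rfl⟩ : ∃ x, m = x + 1 := ⟨m - 1, by omega⟩
  have h9 : (2 * (x + 1) + 1) ^ 2 * (2 * (7 * (x + 1) + 9) + 2) < 3100 * (x + 1) ^ 3 := by
    ring_nf
    nlinarith [Nat.zero_le x, Nat.zero_le (x ^ 2), Nat.zero_le (x ^ 3)]
  omega

/-- The nine point theorem. -/
theorem gen_nine {n : ℕ} (m d : ℕ) (mm : Fin n → ℕ) (α : Fin 9 → Fin n)
    (hα : Function.Injective α) (hanti : Antitone fun j => mm (α j)) (hm : 1 ≤ m)
    (hm9 : m ≤ mm (α 8)) (hother : ∀ i, i ∉ Set.range α → mm i ≤ m)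
    (hstd : mm (α 0) + mm (α 1) + mm (α 2) ≤ d)
    (hK : ∑ j, mm (α j) + 18 * m < 3 * d)
    (hsq : ∑ j, mm (α j) ^ 2 + 3100 * m ^ 3 ≤ d ^ 2) : GenExp d mm := by
  classical
  obtain ⟨μ, hμ⟩ : ∃ μ : ℕ → ℕ, μ = fun j => if h : j < 9 then mm (α ⟨j, h⟩) else 0 := ⟨_, rfl⟩
  have hμα : ∀ j : Fin 9, μ j = mm (α j) := by
    intro j
    rw [hμ]
    simp only [j.2, dif_pos]
  have hμa : Antitone μ := by
    intro a b hab
    rw [hμ]
    simp only
    by_cases hb : b < 9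
    · rw [dif_pos hb, dif_pos (lt_of_le_of_lt hab hb)]
      exact hanti (show (⟨a, lt_of_le_of_lt hab hb⟩ : Fin 9) ≤ ⟨b, hb⟩ from hab)
    · rw [dif_neg hb]
      exact Nat.zero_le _
  have hμ9 : ∀ j, 9 ≤ j → μ j = 0 := by
    intro j hj
    rw [hμ]
    simp only
    rw [dif_neg (by omega)]
  have hsum : ∀ g : ℕ → ℕ, ∑ j : Fin 9, g (mm (α j)) = g (μ 0) + g (μ 1) + g (μ 2) + g (μ 3) +
      g (μ 4) + g (μ 5) + g (μ 6) + g (μ 7) + g (μ 8) := by
    intro g
    have h1 : ∑ j : Fin 9, g (mm (α j)) = ∑ j : Fin 9, g (μ j) :=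
      Finset.sum_congr rfl fun j _ => by rw [hμα]
    rw [h1]
    simp only [Fin.sum_univ_succ, Fin.val_zero, Fin.val_succ, Finset.univ_unique,
      Finset.sum_singleton, Fin.default_eq_zero]
    ring
  have hK' := hsum (fun x => x)
  have hsq' := hsum (fun x => x ^ 2)
  rw [hK'] at hK
  rw [hsq'] at hsq
  have m0 : mm (α 0) = μ 0 := (hμα 0).symm
  have m1 : mm (α 1) = μ 1 := (hμα 1).symm
  have m2 : mm (α 2) = μ 2 := (hμα 2).symm
  have m8 : mm (α 8) = μ 8 := (hμα 8).symm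
  rw [m0, m1, m2] at hstd
  rw [m8] at hm9
  -- the number of large multiplicities
  have hex : ∃ r, μ r ≤ 2 * m := ⟨9, by rw [hμ9 9 le_rfl]; omega⟩
  obtain ⟨r, hr⟩ : ∃ r, r = Nat.find hex := ⟨_, rfl⟩
  have hr1 : μ r ≤ 2 * m := by rw [hr]; exact Nat.find_spec hex
  have hr2 : ∀ j, j < r → 2 * m + 1 ≤ μ j := by
    intro j hj
    rw [hr] at hj
    have := Nat.find_min hex hj
    omega
  have hr9 : r ≤ 9 := by
    by_contra hcon
    have := hr2 9 (by omega)
    rw [hμ9 9 le_rfl] at this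
    omega
  obtain ⟨ν, hν⟩ : ∃ ν : ℕ → ℕ, ν = fun j => if j < r then μ j else 0 := ⟨_, rfl⟩
  have hνlt : ∀ j, j < r → ν j = μ j := by
    intro j hj
    rw [hν]
    simp only
    rw [if_pos hj]
  have hνge : ∀ j, r ≤ j → ν j = 0 := by
    intro j hj
    rw [hν]
    simp only
    rw [if_neg (by omega)]
  have hνa : Antitone ν := by
    intro a b hab
    rcases Nat.lt_or_ge b r with h | h
    · rw [hνlt b h, hνlt a (by omega)]
      exact hμa hab
    · rw [hνge b h]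
      exact Nat.zero_le _
  have hνle : ∀ j, ν j ≤ μ j := by
    intro j
    rcases Nat.lt_or_ge j r with h | h
    · rw [hνlt j h]
    · rw [hνge j h]
      exact Nat.zero_le _
  have hνstd : ν 0 + ν 1 + ν 2 ≤ d := by
    have h0 := hνle 0
    have h1 := hνle 1
    have h2 := hνle 2
    omega
  have hνsq : ν 0 ^ 2 + ν 1 ^ 2 + ν 2 ^ 2 + ν 3 ^ 2 + ν 4 ^ 2 + ν 5 ^ 2 + ν 6 ^ 2 + ν 7 ^ 2 +
      ν 8 ^ 2 + 3100 * m ^ 3 ≤ d ^ 2 := by
    have h := fun j => Nat.pow_le_pow_left (hνle j) 2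
    have b0 := h 0
    have b1 := h 1
    have b2 := h 2
    have b3 := h 3
    have b4 := h 4
    have b5 := h 5
    have b6 := h 6
    have b7 := h 7
    have b8 := h 8
    omega
  have core := fun hP => genExp_of_OK d mm (nine_core m d r mm α hα ν hνa hνge hr9
    (fun j hj => by rw [hνlt j hj, hμα]) (fun j hj => by
      have := hμa hj
      rw [hμα] at this
      omega) hother hνstd hP)
  rcases (show r = 0 ∨ r = 1 ∨ r = 2 ∨ r = 3 ∨ r = 4 ∨ r = 5 ∨ r = 6 ∨ r = 7 ∨ r = 8 ∨ r = 9 by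
    omega) with h | h | h | h | h | h | h | h | h | h
  · -- no large multiplicity
    subst h
    apply core
    have z := fun j => hνge j (Nat.zero_le j)
    have h1 := big0 (m := m) (d := d) hm (by
      have := z 0
      omega)
    simp only [z, Nat.sub_zero, Nat.zero_sub, Nat.zero_div, Nat.add_zero]
    unfold PP
    ring_nf
    ring_nf at h1
    omega
  · subst h
    have z1 := hνge 1 le_rfl
    have z2 := hνge 2 (by norm_num)
    have z3 := hνge 3 (by norm_num)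
    have z4 := hνge 4 (by norm_num)
    have z5 := hνge 5 (by norm_num)
    have z6 := hνge 6 (by norm_num)
    have z7 := hνge 7 (by norm_num)
    have z8 := hνge 8 (by norm_num)
    have y0 := hνlt 0 (by norm_num)
    have y1 := hr2 0 (by norm_num)
    have a2 := hμa (show 2 ≤ 8 by norm_num)
    have a1 := hμa (show 1 ≤ 2 by norm_num)
    rcases Nat.lt_or_ge (d - μ 0) (2 * m + 1) with hlt | hge
    · -- the boundary case
      have h01 : α 0 ≠ α 1 := fun h => by simpa using hα h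
      have h02 : α 0 ≠ α 2 := fun h => by simpa using hα h
      have h12 : α 1 ≠ α 2 := fun h => by simpa using hα h
      apply gen_standard n m d mm (α 0) (α 1) (α 2) h01 h02 h12 hm
      · rw [m0]; omega
      · rw [m1]; omega
      · rw [m2]; omega
      · intro i i0 i1 i2
        by_cases hi : i ∈ Set.range α
        · obtain ⟨j, rfl⟩ := hi
          have hj : 2 ≤ (j : ℕ) := by
            by_contra hcon
            rcases (show (j : ℕ) = 0 ∨ (j : ℕ) = 1 by omega) with h | h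
            · exact i0 (by rw [show j = 0 from Fin.ext h])
            · exact i1 (by rw [show j = 1 from Fin.ext h])
          have := hμa hj
          rw [hμα] at this
          omega
        · exact hother i hi
      · rw [m0, m1, m2]; exact hstd
      · have h1 : 3100 * m ^ 3 ≤ 4 * m * μ 0 + 4 * m ^ 2 := by
          have h2 : d ^ 2 ≤ (μ 0 + 2 * m) ^ 2 := Nat.pow_le_pow_left (by omega) 2
          have h3 : (μ 0 + 2 * m) ^ 2 = μ 0 ^ 2 + 4 * m * μ 0 + 4 * m ^ 2 := by ring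
          omega
        have h2 : m * (3100 * m ^ 2) ≤ m * (4 * μ 0 + 4 * m) := by
          have e1 : m * (3100 * m ^ 2) = 3100 * m ^ 3 := by ring
          have e2 : m * (4 * μ 0 + 4 * m) = 4 * m * μ 0 + 4 * m ^ 2 := by ring
          omega
        have h3 := Nat.le_of_mul_le_mul_left h2 (by omega)
        have h4 : m ≤ m ^ 2 := Nat.le_self_pow (by norm_num) m
        omega
    · apply core
      have h1 := big1 (m := m) (a0 := d - μ 0) (a1 := μ 0) hm hge y1 (by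
        obtain ⟨x, hx⟩ : ∃ x, d = μ 0 + x := ⟨d - μ 0, by omega⟩
        have e1 : d - μ 0 = x := by omega
        rw [e1]
        rw [hx] at hνsq
        rw [y0] at hνsq
        have e2 : (μ 0 + x) ^ 2 = μ 0 ^ 2 + (x ^ 2 + 2 * x * μ 0) := by ring
        omega)
      simp only [z1, z2, z3, z4, z5, z6, z7, z8, y0, Nat.sub_zero, Nat.zero_sub, Nat.zero_div,
        Nat.add_zero, Nat.sub_self]
      unfold PP
      ring_nf
      ring_nf at h1
      omega
  · subst h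
    exact core (big2 hνa hm hνstd (by rw [hνlt 1 (by norm_num)]; exact hr2 1 (by norm_num)) hνge
      hνsq)
  · subst h
    exact core (big3 hνa hm hνstd (by rw [hνlt 2 (by norm_num)]; exact hr2 2 (by norm_num)) hνge
      hνsq)
  · subst h
    exact core (big4 hνa hm hνstd (by rw [hνlt 3 (by norm_num)]; exact hr2 3 (by norm_num)) hνge
      hνsq)
  · subst h
    exact core (big5 hνa hm hνstd (by rw [hνlt 4 (by norm_num)]; exact hr2 4 (by norm_num)) hνge
      hνsq)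
  · subst h
    exact core (big6 hνa hm hνstd (by rw [hνlt 5 (by norm_num)]; exact hr2 5 (by norm_num)) hνge
      hνsq)
  · subst h
    exact core (big7 hνa hm hνstd (by rw [hνlt 6 (by norm_num)]; exact hr2 6 (by norm_num)) hνge
      hνsq)
  · subst h
    exact core (big8 hνa hm hνstd (by rw [hνlt 7 (by norm_num)]; exact hr2 7 (by norm_num)) hνge
      hνsq)
  · subst h
    by_cases hs : 1 ≤ (d - (ν 0 + ν 1 + ν 2)) / (2 * m + 1) + (ν 0 - ν 1) / (2 * m + 1) + (ν 1 - ν 2) / (2 * m + 1) + (ν 2 - ν 3) / (2 * m + 1) + (ν 3 - ν 4) / (2 * m + 1) + (ν 4 - ν 5) / (2 * m + 1) + (ν 5 - ν 6) / (2 * m + 1) + (ν 6 - ν 7) / (2 * m + 1) + (ν 7 - ν 8) / (2 * m + 1)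
    · exact core (big9 hνa hm hνstd (by rw [hνlt 8 (by norm_num)]; exact hr2 8 (by norm_num)) hs
        hνsq)
    · have hb := big9' hνa hm hνstd hs hνsq
      apply genExp_of_OK
      apply ext9 m d mm α hα ν hνa (fun j => by rw [hνlt j j.2, hμα]) hm hother hνstd _ hb
      have b0 := hνle 0
      have b1 := hνle 1
      have b2 := hνle 2
      have b3 := hνle 3
      have b4 := hνle 4
      have b5 := hνle 5
      have b6 := hνle 6
      have b7 := hνle 7
      have b8 := hνle 8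
      omega

end Pool.MP_70e04f_ag.Nine
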