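import Mathlib

/-!
# The intersection form on the standard cone of nine points, and rounding down
-/

namespace Pool.MP_70e04f_ag.Nine

/-- The self-intersection of a combination of the generators `H`, `H - E1`, `2 H - E1 - E2`,
`3 H - E1 - ... - Ei` (`3 ≤ i ≤ 9`) of the standard cone. -/
def PP (x0 x1 x2 x3 x4 x5 x6 x7 x8 x9 : ℕ) : ℕ :=
  x0 ^ 2 + 2 * x0 * x1 + 4 * x0 * x2 + 6 * x0 * (x3 + x4 + x5 + x6 + x7 + x8 + x9) +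
    2 * x1 * x2 + 4 * x1 * (x3 + x4 + x5 + x6 + x7 + x8 + x9) +
    2 * x2 ^ 2 + 8 * x2 * (x3 + x4 + x5 + x6 + x7 + x8 + x9) +
    6 * x3 ^ 2 + 12 * x3 * (x4 + x5 + x6 + x7 + x8 + x9) +
    5 * x4 ^ 2 + 10 * x4 * (x5 + x6 + x7 + x8 + x9) +
    4 * x5 ^ 2 + 8 * x5 * (x6 + x7 + x8 + x9) +
    3 * x6 ^ 2 + 6 * x6 * (x7 + x8 + x9) +
    2 * x7 ^ 2 + 4 * x7 * (x8 + x9) + x8 ^ 2 + 2 * x8 * x9

/-- The intersection with the sum of the generators. -/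
def BB (x0 x1 x2 x3 x4 x5 x6 x7 x8 x9 : ℕ) : ℕ :=
  25 * x0 + 16 * x1 + 33 * x2 + 51 * x3 + 45 * x4 + 40 * x5 + 36 * x6 + 33 * x7 + 31 * x8 +
    30 * x9

lemma PP_eq (x0 x1 x2 x3 x4 x5 x6 x7 x8 x9 : ℕ) :
    PP x0 x1 x2 x3 x4 x5 x6 x7 x8 x9 +
      ((x1 + x2 + x3 + x4 + x5 + x6 + x7 + x8 + x9) ^ 2 +
        (x2 + x3 + x4 + x5 + x6 + x7 + x8 + x9) ^ 2 + (x3 + x4 + x5 + x6 + x7 + x8 + x9) ^ 2 +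
        (x4 + x5 + x6 + x7 + x8 + x9) ^ 2 + (x5 + x6 + x7 + x8 + x9) ^ 2 +
        (x6 + x7 + x8 + x9) ^ 2 + (x7 + x8 + x9) ^ 2 + (x8 + x9) ^ 2 + x9 ^ 2) =
      (x0 + (x1 + x2 + x3 + x4 + x5 + x6 + x7 + x8 + x9) +
        (x2 + x3 + x4 + x5 + x6 + x7 + x8 + x9) + (x3 + x4 + x5 + x6 + x7 + x8 + x9)) ^ 2 := by
  unfold PP
  ring

/-- Rounding. -/
lemma PP_le (m a0 a1 a2 a3 a4 a5 a6 a7 a8 a9 c0 c1 c2 c3 c4 c5 c6 c7 c8 c9 : ℕ)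
    (h0 : a0 ≤ (2 * m + 1) * c0 + 2 * m) (h1 : a1 ≤ (2 * m + 1) * c1 + 2 * m)
    (h2 : a2 ≤ (2 * m + 1) * c2 + 2 * m) (h3 : a3 ≤ (2 * m + 1) * c3 + 2 * m)
    (h4 : a4 ≤ (2 * m + 1) * c4 + 2 * m) (h5 : a5 ≤ (2 * m + 1) * c5 + 2 * m)
    (h6 : a6 ≤ (2 * m + 1) * c6 + 2 * m) (h7 : a7 ≤ (2 * m + 1) * c7 + 2 * m)
    (h8 : a8 ≤ (2 * m + 1) * c8 + 2 * m) (h9 : a9 ≤ (2 * m + 1) * c9 + 2 * m) :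
    PP a0 a1 a2 a3 a4 a5 a6 a7 a8 a9 ≤
      (2 * m + 1) ^ 2 * PP c0 c1 c2 c3 c4 c5 c6 c7 c8 c9 +
        4 * m * (2 * m + 1) * BB c0 c1 c2 c3 c4 c5 c6 c7 c8 c9 + 1360 * m ^ 2 := by
  have e : (2 * m + 1) ^ 2 * PP c0 c1 c2 c3 c4 c5 c6 c7 c8 c9 +
        4 * m * (2 * m + 1) * BB c0 c1 c2 c3 c4 c5 c6 c7 c8 c9 + 1360 * m ^ 2 =
      PP ((2 * m + 1) * c0 + 2 * m) ((2 * m + 1) * c1 + 2 * m) ((2 * m + 1) * c2 + 2 * m)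
        ((2 * m + 1) * c3 + 2 * m) ((2 * m + 1) * c4 + 2 * m) ((2 * m + 1) * c5 + 2 * m)
        ((2 * m + 1) * c6 + 2 * m) ((2 * m + 1) * c7 + 2 * m) ((2 * m + 1) * c8 + 2 * m)
        ((2 * m + 1) * c9 + 2 * m) := by
    unfold PP BB
    ring
  rw [e]
  unfold PP
  gcongr

end Pool.MP_70e04f_ag.Nine
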