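import Pool.Agent.Lib_MP_70e04f_add.Lead

/-!
# The orders of the elements of a finite dimensional space of power series (piece ORD)

PAPER PROOF. Let `U` be finite dimensional, `U n = {w ∈ U | n ≤ order w}` (the first `n`
coefficients vanish). Choose `n` with `finrank (U n)` minimal; if `U n` had a nonzero element, of
order `a`, then `U (a + 1) < U n` (it does not contain that element) would have smaller dimension.
So `U n = ⊥` for some `n` and the map `T : U → (Fin n → ℝ)`, `w ↦` (the first `n` coefficients) is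
injective. For `ω i = -i` on `Fin n`, `lead ω (range T)` is the set of orders of the nonzero
elements of `U`, and it has `finrank (range T) = finrank U` elements by `card_lead`
(`Lib_MP_70e04f_add/Lead.lean`). (`PowerSeries.order_eq_nat`, `PowerSeries.X_pow_dvd_iff`.)
`orders_add`: if the orders of two spaces are `A`, `B` and the products lie in a third space with
orders `S`, then `A + B ⊆ S` (`PowerSeries.order_mul`), and
`card A + card B ≤ card (A + B) + 1 ≤ card S + 1` if `A`, `B` are not empty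
(`cauchy_davenport_add_of_linearOrder_isCancelAdd`, see `card_step` in
`Lib_MP_70e04f_add/Rows.lean`).
-/

namespace Pool.MP_70e04f_ag.Nine

open Pool.MP_70e04f_ag.Add

/-- The first coefficients. -/
noncomputable def firstC (U : Submodule ℝ (PowerSeries ℝ)) (n : ℕ) : U →ₗ[ℝ] (Fin n → ℝ) :=
  LinearMap.pi fun i => (PowerSeries.coeff (R := ℝ) (i : ℕ)).comp U.subtype

lemma firstC_apply (U : Submodule ℝ (PowerSeries ℝ)) (n : ℕ) (w : U) (i : Fin n) :
    firstC U n w i = PowerSeries.coeff (i : ℕ) (w : PowerSeries ℝ) := rfl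

lemma firstC_mem_ker (U : Submodule ℝ (PowerSeries ℝ)) (n : ℕ) (w : U) :
    w ∈ LinearMap.ker (firstC U n) ↔
      ∀ i : ℕ, i < n → PowerSeries.coeff i (w : PowerSeries ℝ) = 0 := by
  rw [LinearMap.mem_ker]
  constructor
  · intro h i hi
    have := congrFun h ⟨i, hi⟩
    exact this
  · intro h
    funext i
    exact h i i.2

lemma exists_firstC_injective (U : Submodule ℝ (PowerSeries ℝ)) [Module.Finite ℝ U] :
    ∃ n : ℕ, Function.Injective (firstC U n) := by
  classical
  obtain ⟨n, hn⟩ : ∃ n : ℕ, ∀ m : ℕ,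
      Module.finrank ℝ (LinearMap.ker (firstC U n)) ≤
        Module.finrank ℝ (LinearMap.ker (firstC U m)) := by
    refine ⟨Function.argmin (fun n => Module.finrank ℝ (LinearMap.ker (firstC U n))), fun m => ?_⟩
    exact Function.argmin_le (fun n => Module.finrank ℝ (LinearMap.ker (firstC U n))) m
  refine ⟨n, ?_⟩
  rw [← LinearMap.ker_eq_bot, LinearMap.ker_eq_bot']
  intro w hw
  by_contra hne
  have hw0 : (w : PowerSeries ℝ) ≠ 0 := fun h => hne (Subtype.ext h)
  obtain ⟨a, ha⟩ : ∃ a : ℕ, PowerSeries.coeff a (w : PowerSeries ℝ) ≠ 0 := by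
    by_contra hcon
    push Not at hcon
    apply hw0
    ext a
    simpa using hcon a
  have hlt : LinearMap.ker (firstC U (max n (a + 1))) < LinearMap.ker (firstC U n) := by
    rw [SetLike.lt_iff_le_and_exists]
    refine ⟨?_, w, hw, ?_⟩
    · intro v hv
      rw [firstC_mem_ker] at hv ⊢
      exact fun i hi => hv i (lt_of_lt_of_le hi (le_max_left _ _))
    · intro h
      rw [firstC_mem_ker] at h
      exact ha (h a (lt_of_lt_of_le (Nat.lt_succ_self a) (le_max_right _ _)))
  have h1 := Submodule.finrank_lt_finrank_of_lt hlt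
  exact absurd (hn (max n (a + 1))) (not_le.mpr h1)

/-- The set of the orders of the nonzero elements of a space of power series. -/
theorem exists_orders (U : Submodule ℝ (PowerSeries ℝ)) [Module.Finite ℝ U] :
    ∃ A : Finset ℕ, A.card = Module.finrank ℝ U ∧
      ∀ a : ℕ, a ∈ A ↔ ∃ w ∈ U, PowerSeries.order w = (a : ℕ∞) := by
  classical
  obtain ⟨n, hn⟩ := exists_firstC_injective U
  set ω : Fin n → ℤ := fun i => -((i : ℕ) : ℤ) with hω
  have hωi : Function.Injective ω := by
    intro i j hij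
    apply Fin.ext
    simp only [hω] at hij
    omega
  refine ⟨(lead ω (LinearMap.range (firstC U n))).map Fin.valEmbedding, ?_, ?_⟩
  · rw [Finset.card_map, card_lead ω hωi, LinearMap.finrank_range_of_inj hn]
  · intro a
    rw [Finset.mem_map]
    constructor
    · rintro ⟨q, hq, rfl⟩
      obtain ⟨v, ⟨w, rfl⟩, h0, hz⟩ := mem_lead.mp hq
      refine ⟨w, w.2, ?_⟩
      change PowerSeries.order (w : PowerSeries ℝ) = ((q : ℕ) : ℕ∞)
      rw [PowerSeries.order_eq_nat]
      refine ⟨h0, fun i hi => ?_⟩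
      exact hz ⟨i, hi.trans q.2⟩ (by simp only [hω]; omega)
    · rintro ⟨w, hw, ho⟩
      rw [PowerSeries.order_eq_nat] at ho
      have han : a < n := by
        by_contra hna
        have h1 : (⟨w, hw⟩ : U) ∈ LinearMap.ker (firstC U n) := by
          rw [firstC_mem_ker]
          exact fun i hi => ho.2 i (by omega)
        rw [LinearMap.ker_eq_bot.mpr hn] at h1
        have h2 : (⟨w, hw⟩ : U) = 0 := (Submodule.mem_bot ℝ).mp h1
        have h3 : w = 0 := congrArg Subtype.val h2
        apply ho.1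
        rw [h3, map_zero]
      refine ⟨⟨a, han⟩, ?_, rfl⟩
      refine mem_lead.mpr ⟨firstC U n ⟨w, hw⟩, ⟨_, rfl⟩, ho.1, ?_⟩
      intro r hr
      simp only [hω] at hr
      exact ho.2 r (by omega)

open Pointwise in
/-- The orders of products. -/
theorem orders_add {U V W : Submodule ℝ (PowerSeries ℝ)} {A B S : Finset ℕ}
    (hA : ∀ a : ℕ, a ∈ A ↔ ∃ w ∈ U, PowerSeries.order w = (a : ℕ∞))
    (hB : ∀ a : ℕ, a ∈ B ↔ ∃ w ∈ V, PowerSeries.order w = (a : ℕ∞))
    (hS : ∀ a : ℕ, a ∈ S ↔ ∃ w ∈ W, PowerSeries.order w = (a : ℕ∞))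
    (hUV : ∀ u ∈ U, ∀ v ∈ V, u * v ∈ W) (h1 : 1 ≤ A.card) (h2 : 1 ≤ B.card) :
    A.card + B.card ≤ S.card + 1 := by
  classical
  have hAne : A.Nonempty := Finset.card_pos.1 h1
  have hBne : B.Nonempty := Finset.card_pos.1 h2
  have h3 := cauchy_davenport_add_of_linearOrder_isCancelAdd hAne hBne
  have h4 : A + B ⊆ S := by
    intro x hx
    obtain ⟨a, ha, b, hb, rfl⟩ := Finset.mem_add.1 hx
    obtain ⟨u, hu, hu'⟩ := (hA a).1 ha
    obtain ⟨v, hv, hv'⟩ := (hB b).1 hb
    refine (hS (a + b)).2 ⟨u * v, hUV u hu v hv, ?_⟩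
    rw [PowerSeries.order_mul, hu', hv']
    push_cast
    rfl
  have h5 := Finset.card_le_card h4
  omega

end Pool.MP_70e04f_ag.Nine
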