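import Pool.Agent.Lib_MP_70e04f_nine.Defs

/-!
# The polynomial change of coordinates and initial monomials (piece PHIA)

PAPER PROOFS. `phi_vanish`: `phi P lam η` maps the ideal of the point `phiPt P lam η p` into the
ideal of `p` because `eval p (phi P lam η F) = eval (phiPt P lam η p) F` (compare on `C` and on the
variables), hence also the powers (`Ideal.map_pow`; compare `psi_mem_pow_aux` in
`Lib_MP_70e04f_add/Psi.lean`).

`InitMon.mul`: the coefficient of `mon a b` in `H * H'` is a sum over `(a1, b1) + (a2, b2) = (a, b)`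
(`MvPolynomial.coeff_mul`); if `a + N0 b ≤` the weight of `q + q'` and both coefficients are not zero
then the weights are at least, hence equal to, those of `q`, `q'`, so `(a1, b1) = q`,
`(a2, b2) = q'`.
-/

namespace Pool.MP_70e04f_ag.Nine

open MvPolynomial Pool.MP_70e04f_ag.Hex Pool.MP_70e04f_ag.Add

lemma phiA_eval (P : Fin 2 → ℝ) (lam : ℝ) (η : Polynomial ℝ) (p : Fin 2 → ℝ)
    (F : MvPolynomial (Fin 2) ℝ) :
    MvPolynomial.eval p (phi P lam η F) = MvPolynomial.eval (phiPt P lam η p) F := by
  have hη : (aeval p : MvPolynomial (Fin 2) ℝ →ₐ[ℝ] ℝ)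
      (Polynomial.aeval (X 0 : MvPolynomial (Fin 2) ℝ) η) = η.eval (p 0) := by
    rw [← Polynomial.aeval_algHom_apply, aeval_X, Polynomial.coe_aeval_eq_eval]
  have h : ((aeval p : MvPolynomial (Fin 2) ℝ →ₐ[ℝ] ℝ)).comp (phi P lam η) =
      aeval (phiPt P lam η p) := by
    apply MvPolynomial.algHom_ext
    intro i
    fin_cases i
    · show aeval p (phi P lam η (X 0)) = aeval (phiPt P lam η p) (X 0)
      unfold phi phiPt
      rw [aeval_X, aeval_X]
      simp only [Matrix.cons_val_zero, map_add, map_mul, hη, aeval_X, MvPolynomial.aeval_C,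
        Algebra.algebraMap_self, RingHom.id_apply]
    · show aeval p (phi P lam η (X 1)) = aeval (phiPt P lam η p) (X 1)
      unfold phi phiPt
      rw [aeval_X, aeval_X]
      show aeval p (C (P 1) + (Polynomial.aeval (X 0) η + X 1)) = P 1 + (η.eval (p 0) + p 1)
      simp only [map_add, hη, aeval_X, MvPolynomial.aeval_C,
        Algebra.algebraMap_self, RingHom.id_apply]
  have h2 := DFunLike.congr_fun h F
  rw [← MvPolynomial.coe_aeval_eq_eval, ← MvPolynomial.coe_aeval_eq_eval]
  exact h2

theorem phi_vanish {P : Fin 2 → ℝ} {lam : ℝ} {η : Polynomial ℝ} {p : Fin 2 → ℝ} {m : ℕ}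
    {F : MvPolynomial (Fin 2) ℝ} (h : F ∈ pt (phiPt P lam η p) ^ m) :
    phi P lam η F ∈ pt p ^ m := by
  refine psi_mem_pow_aux (f := phi P lam η) ?_ m h
  intro G hG
  rw [RingHom.mem_ker] at hG ⊢
  rw [phiA_eval, hG]

theorem InitMon.mul {N0 : ℕ} {q q' : ℕ × ℕ} {H H' : MvPolynomial (Fin 2) ℝ}
    (h : InitMon N0 q H) (h' : InitMon N0 q' H') :
    InitMon N0 (q.1 + q'.1, q.2 + q'.2) (H * H') := by
  classical
  have key : ∀ a b : ℕ, a + N0 * b ≤ (q.1 + q'.1) + N0 * (q.2 + q'.2) →
      ∀ x ∈ Finset.HasAntidiagonal.antidiagonal (mon a b), coeff x.1 H * coeff x.2 H' ≠ 0 →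
        x = (mon q.1 q.2, mon q'.1 q'.2) := by
    intro a b hab x hx hne
    rw [Finset.HasAntidiagonal.mem_antidiagonal] at hx
    have h1 : coeff x.1 H ≠ 0 := left_ne_zero_of_mul hne
    have h2 : coeff x.2 H' ≠ 0 := right_ne_zero_of_mul hne
    have e1 : x.1 = mon (x.1 0) (x.1 1) := (mon_eta x.1).symm
    have e2 : x.2 = mon (x.2 0) (x.2 1) := (mon_eta x.2).symm
    have s0 : x.1 0 + x.2 0 = a := by
      have := DFunLike.congr_fun hx 0
      rw [Finsupp.add_apply, mon_zero'] at this
      exact this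
    have s1 : x.1 1 + x.2 1 = b := by
      have := DFunLike.congr_fun hx 1
      rw [Finsupp.add_apply, mon_one'] at this
      exact this
    have hle : N0 * b = N0 * x.1 1 + N0 * x.2 1 := by rw [← s1, Nat.mul_add]
    have hle2 : N0 * (q.2 + q'.2) = N0 * q.2 + N0 * q'.2 := Nat.mul_add _ _ _
    by_cases c1 : ((x.1 0, x.1 1) : ℕ × ℕ) = q
    · by_cases c2 : ((x.2 0, x.2 1) : ℕ × ℕ) = q'
      · apply Prod.ext
        · show x.1 = mon q.1 q.2
          rw [← c1]; exact e1
        · show x.2 = mon q'.1 q'.2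
          rw [← c2]; exact e2
      · exfalso
        have w2 : ¬ (x.2 0 + N0 * x.2 1 ≤ q'.1 + N0 * q'.2) := by
          intro hc
          apply h2
          rw [e2]
          exact h'.2 _ _ c2 hc
        have : x.1 0 + N0 * x.1 1 = q.1 + N0 * q.2 := by rw [← c1]
        omega
    · exfalso
      have w1 : ¬ (x.1 0 + N0 * x.1 1 ≤ q.1 + N0 * q.2) := by
        intro hc
        apply h1
        rw [e1]
        exact h.2 _ _ c1 hc
      have w2 : q'.1 + N0 * q'.2 ≤ x.2 0 + N0 * x.2 1 := by
        by_contra hc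
        push Not at hc
        apply h2
        rw [e2]
        apply h'.2 _ _ _ hc.le
        intro hcc
        rw [← hcc] at hc
        exact lt_irrefl _ hc
      omega
  constructor
  · show coeff (mon (q.1 + q'.1) (q.2 + q'.2)) (H * H') ≠ 0
    rw [MvPolynomial.coeff_mul, Finset.sum_eq_single (mon q.1 q.2, mon q'.1 q'.2)]
    · exact mul_ne_zero h.1 h'.1
    · intro x hx hne
      by_contra hc
      exact hne (key _ _ le_rfl x hx hc)
    · intro hc
      exfalso
      apply hc
      rw [Finset.HasAntidiagonal.mem_antidiagonal]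
      ext i
      fin_cases i
      · show mon q.1 q.2 0 + mon q'.1 q'.2 0 = mon (q.1 + q'.1) (q.2 + q'.2) 0
        rw [mon_zero', mon_zero', mon_zero']
      · show mon q.1 q.2 1 + mon q'.1 q'.2 1 = mon (q.1 + q'.1) (q.2 + q'.2) 1
        rw [mon_one', mon_one', mon_one']
  · intro a b hne hab
    rw [MvPolynomial.coeff_mul]
    apply Finset.sum_eq_zero
    intro x hx
    by_contra hc
    have hx2 := key a b hab x hx hc
    apply hne
    rw [Finset.HasAntidiagonal.mem_antidiagonal, hx2] at hx
    have s0 : q.1 + q'.1 = a := by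
      have := DFunLike.congr_fun hx 0
      rw [Finsupp.add_apply, mon_zero', mon_zero', mon_zero'] at this
      exact this
    have s1 : q.2 + q'.2 = b := by
      have := DFunLike.congr_fun hx 1
      rw [Finsupp.add_apply, mon_one', mon_one', mon_one'] at this
      exact this
    rw [s0, s1]

/-- Powers of the curve times a polynomial. -/
theorem InitMon.pow_mul {N0 a : ℕ} {H G : MvPolynomial (Fin 2) ℝ} (h : InitMon N0 (0, 1) H)
    (h' : InitMon N0 (a, 0) G) (j : ℕ) : InitMon N0 (a, j) (H ^ j * G) := by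
  induction j with
  | zero => simpa using h'
  | succ j ih =>
    have h1 := h.mul ih
    rw [pow_succ, mul_comm (H ^ j), mul_assoc]
    simpa [add_comm] using h1

end Pool.MP_70e04f_ag.Nine
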