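import Pool.Agent.Lib_MP_70e04f_nine.PhiA

/-!
# The initial monomials after the change of coordinates (piece PHIB)

PAPER PROOFS. (1) Putting `X 1 = 0` in `phi P lam η G` one gets `br P lam η G` with the polynomial
`η`: `coeff (mon a 0) (phi P lam η G) = PowerSeries.coeff a (br P lam (η : PowerSeries ℝ) G)`
(compare `coeff_mon_zero` in `Lib_MP_70e04f_add/Step.lean`; both sides are coefficients of values of
algebra homomorphisms, to be compared on the variables). (2) `br P lam η G` and `br P lam η' G` are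
congruent modulo `X ^ n` if `η`, `η'` are (induction on `G`, or algebra homomorphisms to the quotient
by `Ideal.span {X ^ n}`); `η` and `trunc n η` are congruent modulo `X ^ n`.

`init_phi_curve`: put `η0 = trunc n η`. By (1), (2) the coefficient of `mon a 0` in
`phi P lam η0 f` is that of `br P lam η f = 0` for `a < n`; the exponents of weight `≤ N0`
different from `(0, 1)` are `(a, 0)` with `a ≤ N0 < n`, and `(a, b)` with `b ≥ 2`, or `b = 1`, `a ≥ 1`
have larger weight (`1 ≤ N0`). The coefficient of `mon 0 1` is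
`eval 0 (pderiv 1 (phi P lam η0 f)) = lam * eval P (pderiv 0 f) + eval P (pderiv 1 f)` by the chain
rule, as `η0.eval 0 = 0`.

`init_phi_mem`: the exponents of weight `≤ a` are `(a', 0)` with `a' ≤ a` as `a < N0`, and
the coefficients of `br P lam η0 G` in degrees `≤ a < n` are those of `br P lam η G`, which vanish
below `a`, and not at `a` (`PowerSeries.order_eq_nat`).
-/

namespace Pool.MP_70e04f_ag.Nine

open MvPolynomial Pool.MP_70e04f_ag.Hex Pool.MP_70e04f_ag.Add

lemma phiB_phi_X0 (P : Fin 2 → ℝ) (lam : ℝ) (η : Polynomial ℝ) :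
    phi P lam η (X 0) = C (P 0) + X 0 + C lam * (Polynomial.aeval (X 0) η + X 1) := by
  unfold phi
  rw [aeval_X]
  rfl

lemma phiB_phi_X1 (P : Fin 2 → ℝ) (lam : ℝ) (η : Polynomial ℝ) :
    phi P lam η (X 1) = C (P 1) + (Polynomial.aeval (X 0) η + X 1) := by
  unfold phi
  rw [aeval_X]
  rfl

lemma phiB_br_X0 (P : Fin 2 → ℝ) (lam : ℝ) (η : PowerSeries ℝ) :
    br P lam η (X 0) = PowerSeries.C (P 0) + PowerSeries.X + PowerSeries.C lam * η := by
  unfold br
  rw [aeval_X]
  rfl

lemma phiB_br_X1 (P : Fin 2 → ℝ) (lam : ℝ) (η : PowerSeries ℝ) :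
    br P lam η (X 1) = PowerSeries.C (P 1) + η := by
  unfold br
  rw [aeval_X]
  rfl

/-- the coefficients of the powers of `X 1` -/
lemma phiB_coeff_zero_mon (c : ℕ) (K : MvPolynomial (Fin 2) ℝ) :
    coeff (mon 0 c) K = (aeval ![(0 : Polynomial ℝ), Polynomial.X] K).coeff c := by
  induction K using MvPolynomial.induction_on' with
  | monomial s r =>
    rw [coeff_monomial, aeval_monomial, Finsupp.prod_fintype _ _ (fun i => pow_zero _),
      Fin.prod_univ_two]
    simp only [Matrix.cons_val_zero, Matrix.cons_val_one]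
    by_cases h1 : s 0 = 0
    · rw [h1, pow_zero, one_mul]
      simp only [Polynomial.algebraMap_eq, Polynomial.coeff_C_mul, Polynomial.coeff_X_pow]
      by_cases h0 : s 1 = c
      · rw [if_pos, if_pos h0.symm, mul_one]
        rw [← mon_eta s, h0, h1]
      · rw [if_neg, if_neg (fun h => h0 h.symm), mul_zero]
        intro h
        apply h0
        rw [h, mon_one']
    · rw [zero_pow h1, zero_mul, mul_zero, Polynomial.coeff_zero, if_neg]
      intro h
      apply h1
      rw [h, mon_zero']
  | add p q hp hq =>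
    rw [coeff_add, map_add, Polynomial.coeff_add, hp, hq]

lemma phiB_aeval_zero (P : Fin 2 → ℝ) (lam : ℝ) (η : Polynomial ℝ)
    (G : MvPolynomial (Fin 2) ℝ) :
    ((aeval ![(Polynomial.X : Polynomial ℝ), 0] (phi P lam η G) : Polynomial ℝ) : PowerSeries ℝ) =
      br P lam (η : PowerSeries ℝ) G := by
  have hη : (aeval ![(Polynomial.X : Polynomial ℝ), 0] : MvPolynomial (Fin 2) ℝ →ₐ[ℝ] Polynomial ℝ)
      (Polynomial.aeval (X 0 : MvPolynomial (Fin 2) ℝ) η) = η := by
    rw [← Polynomial.aeval_algHom_apply, aeval_X]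
    show Polynomial.aeval (Polynomial.X : Polynomial ℝ) η = η
    exact Polynomial.aeval_X_left_apply η
  induction G using MvPolynomial.induction_on with
  | C a =>
    have h1 : phi P lam η (C a) = C a := by
      rw [← MvPolynomial.algebraMap_eq, AlgHom.commutes]
    have h2 : br P lam (η : PowerSeries ℝ) (C a) = PowerSeries.C a := by
      rw [← MvPolynomial.algebraMap_eq, AlgHom.commutes]
      rfl
    rw [h1, h2, MvPolynomial.aeval_C, Polynomial.algebraMap_eq, Polynomial.coe_C]
  | add p q hp hq =>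
    rw [map_add, map_add, Polynomial.coe_add, hp, hq, map_add]
  | mul_X p i hp =>
    rw [map_mul, map_mul, Polynomial.coe_mul, hp, map_mul]
    congr 1
    fin_cases i
    · show ((aeval ![(Polynomial.X : Polynomial ℝ), 0] (phi P lam η (X 0)) : Polynomial ℝ) :
        PowerSeries ℝ) = br P lam (η : PowerSeries ℝ) (X 0)
      rw [phiB_phi_X0, phiB_br_X0]
      simp only [map_add, map_mul, hη, aeval_X, MvPolynomial.aeval_C, Polynomial.algebraMap_eq]
      show ((Polynomial.C (P 0) + Polynomial.X + Polynomial.C lam * (η + 0) : Polynomial ℝ) :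
        PowerSeries ℝ) = _
      rw [add_zero, Polynomial.coe_add, Polynomial.coe_add, Polynomial.coe_mul, Polynomial.coe_C,
        Polynomial.coe_C, Polynomial.coe_X]
    · show ((aeval ![(Polynomial.X : Polynomial ℝ), 0] (phi P lam η (X 1)) : Polynomial ℝ) :
        PowerSeries ℝ) = br P lam (η : PowerSeries ℝ) (X 1)
      rw [phiB_phi_X1, phiB_br_X1]
      simp only [map_add, hη, aeval_X, MvPolynomial.aeval_C, Polynomial.algebraMap_eq]
      show ((Polynomial.C (P 1) + (η + 0) : Polynomial ℝ) : PowerSeries ℝ) = _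
      rw [add_zero, Polynomial.coe_add, Polynomial.coe_C]

lemma phiB_one (P : Fin 2 → ℝ) (lam : ℝ) (η : Polynomial ℝ) (a : ℕ)
    (G : MvPolynomial (Fin 2) ℝ) :
    coeff (mon a 0) (phi P lam η G) = PowerSeries.coeff a (br P lam (η : PowerSeries ℝ) G) := by
  rw [coeff_mon_zero, ← phiB_aeval_zero, Polynomial.coeff_coe]

lemma phiB_two (P : Fin 2 → ℝ) (lam : ℝ) {η η' : PowerSeries ℝ} {n : ℕ}
    (h : (PowerSeries.X : PowerSeries ℝ) ^ n ∣ η - η') (G : MvPolynomial (Fin 2) ℝ) :
    (PowerSeries.X : PowerSeries ℝ) ^ n ∣ br P lam η G - br P lam η' G := by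
  induction G using MvPolynomial.induction_on with
  | C a =>
    have h2 : ∀ ζ : PowerSeries ℝ, br P lam ζ (C a) = PowerSeries.C a := by
      intro ζ
      rw [← MvPolynomial.algebraMap_eq, AlgHom.commutes]
      rfl
    rw [h2, h2, sub_self]
    exact dvd_zero _
  | add p q hp hq =>
    rw [map_add, map_add]
    have : br P lam η p + br P lam η q - (br P lam η' p + br P lam η' q) =
      (br P lam η p - br P lam η' p) + (br P lam η q - br P lam η' q) := by ring
    rw [this]
    exact dvd_add hp hq
  | mul_X p i hp =>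
    rw [map_mul, map_mul]
    have hi : (PowerSeries.X : PowerSeries ℝ) ^ n ∣ br P lam η (X i) - br P lam η' (X i) := by
      fin_cases i
      · show (PowerSeries.X : PowerSeries ℝ) ^ n ∣ br P lam η (X 0) - br P lam η' (X 0)
        rw [phiB_br_X0, phiB_br_X0]
        have : PowerSeries.C (P 0) + PowerSeries.X + PowerSeries.C lam * η -
            (PowerSeries.C (P 0) + PowerSeries.X + PowerSeries.C lam * η') =
            PowerSeries.C lam * (η - η') := by ring
        rw [this]
        exact Dvd.dvd.mul_left h _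
      · show (PowerSeries.X : PowerSeries ℝ) ^ n ∣ br P lam η (X 1) - br P lam η' (X 1)
        rw [phiB_br_X1, phiB_br_X1]
        have : PowerSeries.C (P 1) + η - (PowerSeries.C (P 1) + η') = η - η' := by ring
        rw [this]
        exact h
    have : br P lam η p * br P lam η (X i) - br P lam η' p * br P lam η' (X i) =
        (br P lam η p - br P lam η' p) * br P lam η (X i) +
        br P lam η' p * (br P lam η (X i) - br P lam η' (X i)) := by ring
    rw [this]
    exact dvd_add (Dvd.dvd.mul_right hp _) (Dvd.dvd.mul_left hi _)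

lemma phiB_coeff (P : Fin 2 → ℝ) (lam : ℝ) (η : PowerSeries ℝ) {n a : ℕ} (ha : a < n)
    (G : MvPolynomial (Fin 2) ℝ) :
    coeff (mon a 0) (phi P lam (PowerSeries.trunc n η) G) =
      PowerSeries.coeff a (br P lam η G) := by
  rw [phiB_one]
  have h : (PowerSeries.X : PowerSeries ℝ) ^ n ∣
      ((PowerSeries.trunc n η : Polynomial ℝ) : PowerSeries ℝ) - η := by
    rw [PowerSeries.X_pow_dvd_iff]
    intro m hm
    rw [map_sub, Polynomial.coeff_coe, PowerSeries.coeff_trunc, if_pos hm, sub_self]
  have h2 := phiB_two P lam h G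
  rw [PowerSeries.X_pow_dvd_iff] at h2
  have h3 := h2 a ha
  rw [map_sub, sub_eq_zero] at h3
  exact h3

/-- chain rule in one variable -/
lemma phiB_chain (P : Fin 2 → ℝ) (lam : ℝ) (f : MvPolynomial (Fin 2) ℝ) :
    (aeval ![(Polynomial.C (P 0) + Polynomial.C lam * Polynomial.X : Polynomial ℝ),
        Polynomial.C (P 1) + Polynomial.X] f).coeff 0 = MvPolynomial.eval P f ∧
    (aeval ![(Polynomial.C (P 0) + Polynomial.C lam * Polynomial.X : Polynomial ℝ),
        Polynomial.C (P 1) + Polynomial.X] f).coeff 1 =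
      lam * MvPolynomial.eval P (pderiv 0 f) + MvPolynomial.eval P (pderiv 1 f) := by
  induction f using MvPolynomial.induction_on with
  | C a =>
    rw [MvPolynomial.aeval_C, Polynomial.algebraMap_eq, pderiv_C, pderiv_C]
    simp [Polynomial.coeff_C]
  | add p q hp hq =>
    rw [map_add, Polynomial.coeff_add, Polynomial.coeff_add, hp.1, hp.2, hq.1, hq.2, map_add,
      map_add, map_add, map_add, map_add]
    exact ⟨rfl, by ring⟩
  | mul_X p i hp =>
    rw [map_mul, Polynomial.mul_coeff_zero, Polynomial.mul_coeff_one, hp.1, hp.2, map_mul,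
      pderiv_mul, pderiv_mul, map_add, map_add, map_mul, map_mul, map_mul, map_mul]
    have e : ∀ i : Fin 2, (aeval ![(Polynomial.C (P 0) + Polynomial.C lam * Polynomial.X :
        Polynomial ℝ), Polynomial.C (P 1) + Polynomial.X] (X i : MvPolynomial (Fin 2) ℝ) : Polynomial ℝ).coeff 0 = P i ∧
        (aeval ![(Polynomial.C (P 0) + Polynomial.C lam * Polynomial.X :
        Polynomial ℝ), Polynomial.C (P 1) + Polynomial.X] (X i : MvPolynomial (Fin 2) ℝ) : Polynomial ℝ).coeff 1 =
        lam * MvPolynomial.eval P (pderiv 0 (X i : MvPolynomial (Fin 2) ℝ)) + MvPolynomial.eval P (pderiv 1 (X i : MvPolynomial (Fin 2) ℝ)) := by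
      intro i
      fin_cases i
      · have e0 : (aeval ![(Polynomial.C (P 0) + Polynomial.C lam * Polynomial.X : Polynomial ℝ),
          Polynomial.C (P 1) + Polynomial.X] (X 0 : MvPolynomial (Fin 2) ℝ) : Polynomial ℝ) =
          Polynomial.C (P 0) + Polynomial.C lam * Polynomial.X := by rw [aeval_X]; rfl
        show (aeval ![(Polynomial.C (P 0) + Polynomial.C lam * Polynomial.X : Polynomial ℝ),
          Polynomial.C (P 1) + Polynomial.X] (X 0 : MvPolynomial (Fin 2) ℝ) : Polynomial ℝ).coeff 0 = P 0 ∧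
          (aeval ![(Polynomial.C (P 0) + Polynomial.C lam * Polynomial.X : Polynomial ℝ),
          Polynomial.C (P 1) + Polynomial.X] (X 0 : MvPolynomial (Fin 2) ℝ) : Polynomial ℝ).coeff 1 =
          lam * MvPolynomial.eval P (pderiv 0 (X 0 : MvPolynomial (Fin 2) ℝ)) + MvPolynomial.eval P (pderiv 1 (X 0 : MvPolynomial (Fin 2) ℝ))
        rw [e0, pderiv_X_self, pderiv_X_of_ne (by decide)]
        simp [Polynomial.coeff_C]
      · have e0 : (aeval ![(Polynomial.C (P 0) + Polynomial.C lam * Polynomial.X : Polynomial ℝ),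
          Polynomial.C (P 1) + Polynomial.X] (X 1 : MvPolynomial (Fin 2) ℝ) : Polynomial ℝ) =
          Polynomial.C (P 1) + Polynomial.X := by rw [aeval_X]; rfl
        show (aeval ![(Polynomial.C (P 0) + Polynomial.C lam * Polynomial.X : Polynomial ℝ),
          Polynomial.C (P 1) + Polynomial.X] (X 1 : MvPolynomial (Fin 2) ℝ) : Polynomial ℝ).coeff 0 = P 1 ∧
          (aeval ![(Polynomial.C (P 0) + Polynomial.C lam * Polynomial.X : Polynomial ℝ),
          Polynomial.C (P 1) + Polynomial.X] (X 1 : MvPolynomial (Fin 2) ℝ) : Polynomial ℝ).coeff 1 =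
          lam * MvPolynomial.eval P (pderiv 0 (X 1 : MvPolynomial (Fin 2) ℝ)) + MvPolynomial.eval P (pderiv 1 (X 1 : MvPolynomial (Fin 2) ℝ))
        rw [e0, pderiv_X_self, pderiv_X_of_ne (by decide)]
        simp [Polynomial.coeff_C]
    rw [(e i).1, (e i).2, MvPolynomial.eval_X]
    exact ⟨rfl, by ring⟩

lemma phiB_coeff_one (P : Fin 2 → ℝ) (lam : ℝ) {η : Polynomial ℝ} (hη : η.coeff 0 = 0)
    (f : MvPolynomial (Fin 2) ℝ) :
    coeff (mon 0 1) (phi P lam η f) =
      lam * MvPolynomial.eval P (pderiv 0 f) + MvPolynomial.eval P (pderiv 1 f) := by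
  rw [← (phiB_chain P lam f).2, phiB_coeff_zero_mon]
  congr 1
  have hη2 : (aeval ![(0 : Polynomial ℝ), Polynomial.X] : MvPolynomial (Fin 2) ℝ →ₐ[ℝ] Polynomial ℝ)
      (Polynomial.aeval (X 0 : MvPolynomial (Fin 2) ℝ) η) = 0 := by
    rw [← Polynomial.aeval_algHom_apply, aeval_X]
    show Polynomial.aeval (0 : Polynomial ℝ) η = 0
    rw [← Polynomial.coeff_zero_eq_aeval_zero', hη, map_zero]
  have h : ((aeval ![(0 : Polynomial ℝ), Polynomial.X] :
      MvPolynomial (Fin 2) ℝ →ₐ[ℝ] Polynomial ℝ)).comp (phi P lam η) =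
      aeval ![(Polynomial.C (P 0) + Polynomial.C lam * Polynomial.X : Polynomial ℝ),
        Polynomial.C (P 1) + Polynomial.X] := by
    apply MvPolynomial.algHom_ext
    intro i
    fin_cases i
    · show aeval ![(0 : Polynomial ℝ), Polynomial.X] (phi P lam η (X 0)) = aeval _ (X 0)
      rw [phiB_phi_X0, aeval_X]
      simp only [map_add, map_mul, hη2, aeval_X, MvPolynomial.aeval_C, Polynomial.algebraMap_eq]
      show Polynomial.C (P 0) + 0 + Polynomial.C lam * (0 + Polynomial.X) =
        Polynomial.C (P 0) + Polynomial.C lam * Polynomial.X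
      rw [add_zero, zero_add]
    · show aeval ![(0 : Polynomial ℝ), Polynomial.X] (phi P lam η (X 1)) = aeval _ (X 1)
      rw [phiB_phi_X1, aeval_X]
      simp only [map_add, map_mul, hη2, aeval_X, MvPolynomial.aeval_C, Polynomial.algebraMap_eq]
      show Polynomial.C (P 1) + (0 + Polynomial.X) = Polynomial.C (P 1) + Polynomial.X
      rw [zero_add]
  exact DFunLike.congr_fun h f

/-- The initial monomial of the curve. -/
theorem init_phi_curve {P : Fin 2 → ℝ} {lam : ℝ} {η : PowerSeries ℝ} {n N0 : ℕ}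
    {f : MvPolynomial (Fin 2) ℝ} (hη : PowerSeries.constantCoeff η = 0) (h : br P lam η f = 0)
    (hd : lam * MvPolynomial.eval P (pderiv 0 f) + MvPolynomial.eval P (pderiv 1 f) ≠ 0)
    (hn : N0 < n) (hN0 : 1 ≤ N0) :
    InitMon N0 (0, 1) (phi P lam (PowerSeries.trunc n η) f) := by
  constructor
  · show coeff (mon 0 1) (phi P lam (PowerSeries.trunc n η) f) ≠ 0
    rw [phiB_coeff_one]
    · exact hd
    · rw [PowerSeries.coeff_trunc, if_pos (by omega), PowerSeries.coeff_zero_eq_constantCoeff_apply,
        hη]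
  · intro a b hne hab
    have hab' : a + N0 * b ≤ 0 + N0 * 1 := hab
    rcases Nat.lt_or_ge b 1 with hb | hb
    · obtain rfl : b = 0 := by omega
      rw [phiB_coeff P lam η (by omega), h, map_zero]
    · rcases hb.eq_or_lt with hb1 | hb1
      · obtain rfl : b = 1 := hb1.symm
        exfalso
        apply hne
        have : a = 0 := by omega
        rw [this]
      · exfalso
        have : N0 * 2 ≤ N0 * b := Nat.mul_le_mul_left _ hb1
        omega

/-- The initial monomial of a polynomial which does not vanish on the curve. -/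
theorem init_phi_mem {P : Fin 2 → ℝ} {lam : ℝ} {η : PowerSeries ℝ} {n N0 a : ℕ}
    {G : MvPolynomial (Fin 2) ℝ} (h : PowerSeries.order (br P lam η G) = (a : ℕ∞)) (hn : a < n)
    (hN0 : a < N0) : InitMon N0 (a, 0) (phi P lam (PowerSeries.trunc n η) G) := by
  rw [PowerSeries.order_eq_nat] at h
  constructor
  · show coeff (mon a 0) (phi P lam (PowerSeries.trunc n η) G) ≠ 0
    rw [phiB_coeff P lam η hn]
    exact h.1
  · intro a' b hne hab
    have hab' : a' + N0 * b ≤ a + N0 * 0 := hab
    rcases Nat.eq_zero_or_pos b with hb | hb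
    · subst hb
      have ha' : a' < a := by
        rcases Nat.lt_or_ge a' a with h1 | h1
        · exact h1
        · exfalso
          apply hne
          have : a' = a := by omega
          rw [this]
      rw [phiB_coeff P lam η (by omega)]
      exact h.2 a' ha'
    · exfalso
      have : N0 * 1 ≤ N0 * b := Nat.mul_le_mul_left _ hb
      omega

end Pool.MP_70e04f_ag.Nine
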