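import Pool.Agent.Lib_MP_70e04f_ag.Cert

/-!
# Real polynomials all of whose roots are positive (piece POSROOT)

Let `v = (∏ t, (X - C (e t)) ^ c t) * (X - C 1) ^ s`, `e t > 1`, `e` injective.

PAPER PROOFS. `coeff_prod_pos`: by induction on the number of factors: if `a = coeff 0`,
`b = coeff 1` of `v` and `x > 0` then those of `v * (X - C x)` are `- x * a`, `a - x * b`, with product
`- x * a ^ 2 + x ^ 2 * a * b < 0` if `a ≠ 0` and `a * b ≤ 0`. (State it for a product over a multiset
or list of positive numbers.)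

`natDegree_eq_zero_of_dvd`: let `p ∣ v`, `p.coeff 1 = 0`, and suppose `natDegree p ≥ 1`. The
multiset `p.roots` is contained in `v.roots`, `p` splits (a divisor of a product of linear
factors), so `natDegree p = ∑ t, rootMultiplicity (e t) p + rootMultiplicity 1 p`. The support of
`p` is contained in `range (natDegree p + 1)` without `1`, so it has at most `natDegree p`
elements. By `row_zero` (Descartes, `Lib_MP_70e04f_ag/Cert.lean`) `p = 0`, a contradiction.
(Another way: `p` is a constant times a product of `natDegree p ≥ 1` factors `X - C x`, `x > 0`,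
and `coeff_prod_pos` for this product gives `coeff 1 p ≠ 0`.)
-/

namespace Pool.MP_70e04f_ag.Nine

open Polynomial

/-- The product of linear factors with positive roots. -/
noncomputable def posProd {τ : Type*} [Fintype τ] (e : τ → ℝ) (c : τ → ℕ) (s : ℕ) :
    Polynomial ℝ :=
  (∏ t, (X - C (e t)) ^ c t) * (X - C 1) ^ s

/-- Coefficients of a product of linear factors with positive roots. -/
lemma posRoot_multiset (S : Multiset ℝ) (hS : ∀ x ∈ S, 0 < x) :
    (S.map (fun x => X - C x)).prod.coeff 0 ≠ 0 ∧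
    (S.map (fun x => X - C x)).prod.coeff 0 * (S.map (fun x => X - C x)).prod.coeff 1 ≤ 0 ∧
    (S ≠ 0 →
      (S.map (fun x => X - C x)).prod.coeff 0 * (S.map (fun x => X - C x)).prod.coeff 1 < 0) := by
  induction S using Multiset.induction_on with
  | empty =>
    refine ⟨by simp, by simp [coeff_one], fun h => absurd rfl h⟩
  | cons x S ih =>
    obtain ⟨h1, h2, _⟩ := ih (fun y hy => hS y (Multiset.mem_cons_of_mem hy))
    have hx : 0 < x := hS x (Multiset.mem_cons_self x S)
    set p : Polynomial ℝ := (S.map (fun x => X - C x)).prod with hp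
    have e0 : ((x ::ₘ S).map (fun x => X - C x)).prod = (X - C x) * p := by
      rw [Multiset.map_cons, Multiset.prod_cons]
    have e1 : ((X - C x) * p).coeff 0 = - x * p.coeff 0 := by
      rw [sub_mul, coeff_sub, coeff_C_mul, mul_coeff_zero]
      simp
    have e2 : ((X - C x) * p).coeff 1 = p.coeff 0 - x * p.coeff 1 := by
      rw [sub_mul, coeff_sub, coeff_C_mul]
      have : (X * p).coeff 1 = p.coeff 0 := coeff_X_mul p 0
      rw [this]
    have e3 : ((X - C x) * p).coeff 0 * ((X - C x) * p).coeff 1 < 0 := by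
      rw [e1, e2]
      have h3 : 0 < x * p.coeff 0 ^ 2 := by positivity
      have h4 : x ^ 2 * (p.coeff 0 * p.coeff 1) ≤ 0 :=
        mul_nonpos_of_nonneg_of_nonpos (by positivity) h2
      nlinarith
    rw [e0]
    refine ⟨?_, e3.le, fun _ => e3⟩
    intro h0
    rw [h0, zero_mul] at e3
    exact lt_irrefl _ e3

lemma posProd_eq {τ : Type*} [Fintype τ] (e : τ → ℝ) (c : τ → ℕ) (s : ℕ) :
    posProd e c s =
      ((∑ t, Multiset.replicate (c t) (e t) + Multiset.replicate s 1).map
        (fun x => X - C x)).prod := by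
  unfold posProd
  rw [Multiset.map_add, Multiset.prod_add, Multiset.map_replicate, Multiset.prod_replicate]
  congr 1
  have h1 : (∑ t, Multiset.replicate (c t) (e t)).map (fun x : ℝ => (X - C x : Polynomial ℝ)) =
      ∑ t, (Multiset.replicate (c t) (e t)).map (fun x : ℝ => (X - C x : Polynomial ℝ)) :=
    map_sum (Multiset.mapAddMonoidHom (fun x : ℝ => (X - C x : Polynomial ℝ))) _ _
  rw [h1, Multiset.prod_sum]
  refine Finset.prod_congr rfl (fun t _ => ?_)
  rw [Multiset.map_replicate, Multiset.prod_replicate]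

lemma posRoot_pos {τ : Type*} [Fintype τ] {e : τ → ℝ} (he1 : ∀ t, 1 < e t) (c : τ → ℕ)
    (s : ℕ) : ∀ x ∈ (∑ t, Multiset.replicate (c t) (e t) + Multiset.replicate s 1), 0 < x := by
  intro x hx
  rw [Multiset.mem_add] at hx
  rcases hx with hx | hx
  · rw [Multiset.mem_sum] at hx
    obtain ⟨t, _, ht⟩ := hx
    rw [Multiset.eq_of_mem_replicate ht]
    linarith [he1 t]
  · rw [Multiset.eq_of_mem_replicate hx]
    exact one_pos

theorem natDegree_posProd {τ : Type*} [Fintype τ] (e : τ → ℝ) (c : τ → ℕ) (s : ℕ) :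
    (posProd e c s).natDegree = ∑ t, c t + s := by
  unfold posProd
  rw [natDegree_mul, natDegree_prod, natDegree_pow, natDegree_X_sub_C, mul_one]
  · congr 1
    refine Finset.sum_congr rfl (fun t _ => ?_)
    rw [natDegree_pow, natDegree_X_sub_C, mul_one]
  · exact fun t _ => pow_ne_zero _ (X_sub_C_ne_zero _)
  · exact Finset.prod_ne_zero_iff.2 (fun t _ => pow_ne_zero _ (X_sub_C_ne_zero _))
  · exact pow_ne_zero _ (X_sub_C_ne_zero _)

theorem coeff_posProd {τ : Type*} [Fintype τ] {e : τ → ℝ} (he1 : ∀ t, 1 < e t) (c : τ → ℕ)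
    (s : ℕ) (hs : 1 ≤ ∑ t, c t + s) :
    (posProd e c s).coeff 0 * (posProd e c s).coeff 1 < 0 := by
  have h1 := (posRoot_multiset _ (posRoot_pos he1 c s)).2.2
  rw [← posProd_eq] at h1
  apply h1
  intro h0
  have h2 := natDegree_posProd e c s
  rw [posProd_eq, h0] at h2
  simp at h2
  omega

theorem natDegree_eq_zero_of_dvd {τ : Type*} [Fintype τ] {e : τ → ℝ}
    (he : Function.Injective e) (he1 : ∀ t, 1 < e t) {c : τ → ℕ} {s : ℕ} {p : Polynomial ℝ}
    (hp : p ∣ posProd e c s) (h1 : p.coeff 1 = 0) : p.natDegree = 0 := by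
  have hv0 : posProd e c s ≠ 0 := by
    unfold posProd
    exact mul_ne_zero (Finset.prod_ne_zero_iff.2 (fun t _ => pow_ne_zero _ (X_sub_C_ne_zero _)))
      (pow_ne_zero _ (X_sub_C_ne_zero _))
  have hsp : (posProd e c s).Splits := by
    rw [posProd_eq]
    apply Splits.multisetProd
    intro f hf
    rw [Multiset.mem_map] at hf
    obtain ⟨x, _, rfl⟩ := hf
    exact Splits.X_sub_C x
  have hp0 : p ≠ 0 := ne_zero_of_dvd_ne_zero hv0 hp
  have hps : p.Splits := hsp.of_dvd hv0 hp
  have hroots : ∀ x ∈ p.roots, 0 < x := by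
    intro x hx
    have h2 : x ∈ (posProd e c s).roots := Multiset.mem_of_le (roots.le_of_dvd hv0 hp) hx
    rw [posProd_eq, roots_multiset_prod_X_sub_C] at h2
    exact posRoot_pos he1 c s x h2
  by_contra hdeg
  have h3 := (posRoot_multiset p.roots hroots).2.2 (hps.roots_ne_zero hdeg)
  have h4 := hps.eq_prod_roots
  have h5 : p.coeff 1 = p.leadingCoeff * (p.roots.map (fun x => X - C x)).prod.coeff 1 := by
    conv_lhs => rw [h4]
    rw [coeff_C_mul]
  rw [h1] at h5
  have h6 : (p.roots.map (fun x => X - C x)).prod.coeff 1 = 0 := by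
    rcases mul_eq_zero.1 h5.symm with h7 | h7
    · exact absurd (leadingCoeff_eq_zero.1 h7) hp0
    · exact h7
  rw [h6, mul_zero] at h3
  exact lt_irrefl _ h3

end Pool.MP_70e04f_ag.Nine
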