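import Pool.Agent.Lib_MP_70e04f_nine.Defs

/-!
# Making the curve transversal to the vertical direction (piece SHEAR)

PAPER PROOF. `shear P lam` is an automorphism (inverse `aeval ![X 0 - C (P 0) - C lam * (X 1 - C
(P 1)), X 1 - C (P 1)]`), so it preserves irreducibility; it does not raise the total degree. Its
value at the origin is the value at `P`, and by the chain rule (check it on products and on the
variables, or `MvPolynomial.induction_on`)
`eval 0 (pderiv 1 (shear P lam F)) = lam * eval P (pderiv 0 F) + eval P (pderiv 1 F)`.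
If `totalDegree f ≤ k` then `coeff (mon 0 k) (shear P lam f) = ∑ a ≤ k, coeff (mon a (k - a)) f *
lam ^ a`, a polynomial in `lam` whose constant coefficient is `coeff (mon 0 k) f ≠ 0`. The
polynomials `T * eval P (pderiv 0 f) + eval P (pderiv 1 f)` and this one in `T` are not zero, so their
product does not vanish at some real `lam`.
-/

namespace Pool.MP_70e04f_ag.Nine

open MvPolynomial Pool.MP_70e04f_ag.Hex Pool.MP_70e04f_ag.Add

lemma shear_X0 (P : Fin 2 → ℝ) (lam : ℝ) :
    shear P lam (X 0) = C (P 0) + X 0 + C lam * X 1 := by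
  unfold shear
  rw [aeval_X]
  rfl

lemma shear_X1 (P : Fin 2 → ℝ) (lam : ℝ) : shear P lam (X 1) = C (P 1) + X 1 := by
  unfold shear
  rw [aeval_X]
  rfl

lemma shear_C (P : Fin 2 → ℝ) (lam r : ℝ) : shear P lam (C r) = C r := by
  unfold shear
  rw [aeval_C]
  rfl

/-- The inverse of the shear. -/
noncomputable def shearInv (P : Fin 2 → ℝ) (lam : ℝ) :
    MvPolynomial (Fin 2) ℝ →ₐ[ℝ] MvPolynomial (Fin 2) ℝ :=
  aeval ![X 0 - C (P 0) - C lam * (X 1 - C (P 1)), X 1 - C (P 1)]

lemma shearInv_X0 (P : Fin 2 → ℝ) (lam : ℝ) :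
    shearInv P lam (X 0) = X 0 - C (P 0) - C lam * (X 1 - C (P 1)) := by
  unfold shearInv
  rw [aeval_X]
  rfl

lemma shearInv_X1 (P : Fin 2 → ℝ) (lam : ℝ) : shearInv P lam (X 1) = X 1 - C (P 1) := by
  unfold shearInv
  rw [aeval_X]
  rfl

lemma shearInv_C (P : Fin 2 → ℝ) (lam r : ℝ) : shearInv P lam (C r) = C r := by
  unfold shearInv
  rw [aeval_C]
  rfl

lemma shearInv_shear (P : Fin 2 → ℝ) (lam : ℝ) (F : MvPolynomial (Fin 2) ℝ) :
    shearInv P lam (shear P lam F) = F := by
  have h : (shearInv P lam).comp (shear P lam) = AlgHom.id ℝ _ := by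
    apply MvPolynomial.algHom_ext
    intro i
    fin_cases i
    · show shearInv P lam (shear P lam (X 0)) = X 0
      rw [shear_X0, map_add, map_add, map_mul, shearInv_X0, shearInv_X1, shearInv_C, shearInv_C]
      ring
    · show shearInv P lam (shear P lam (X 1)) = X 1
      rw [shear_X1, map_add, shearInv_X1, shearInv_C]
      ring
  exact DFunLike.congr_fun h F

lemma shear_shearInv (P : Fin 2 → ℝ) (lam : ℝ) (F : MvPolynomial (Fin 2) ℝ) :
    shear P lam (shearInv P lam F) = F := by
  have h : (shear P lam).comp (shearInv P lam) = AlgHom.id ℝ _ := by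
    apply MvPolynomial.algHom_ext
    intro i
    fin_cases i
    · show shear P lam (shearInv P lam (X 0)) = X 0
      rw [shearInv_X0, map_sub, map_sub, map_mul, map_sub, shear_X0, shear_X1, shear_C, shear_C,
        shear_C]
      ring
    · show shear P lam (shearInv P lam (X 1)) = X 1
      rw [shearInv_X1, map_sub, shear_X1, shear_C]
      ring
  exact DFunLike.congr_fun h F

theorem shear_bijective (P : Fin 2 → ℝ) (lam : ℝ) : Function.Bijective (shear P lam) :=
  ⟨Function.LeftInverse.injective (shearInv_shear P lam),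
    Function.RightInverse.surjective (shear_shearInv P lam)⟩

/-- The shear as a sum. -/
lemma shear_eq_sum (P : Fin 2 → ℝ) (lam : ℝ) (F : MvPolynomial (Fin 2) ℝ) :
    shear P lam F = ∑ d ∈ F.support, C (coeff d F) *
      ((C (P 0) + X 0 + C lam * X 1) ^ d 0 * (C (P 1) + X 1) ^ d 1) := by
  unfold shear
  rw [aeval_def, eval₂_eq']
  refine Finset.sum_congr rfl (fun d _ => ?_)
  rw [Fin.prod_univ_two]
  rfl

theorem totalDegree_shear_le (P : Fin 2 → ℝ) (lam : ℝ) (F : MvPolynomial (Fin 2) ℝ) :
    (shear P lam F).totalDegree ≤ F.totalDegree := by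
  rw [shear_eq_sum]
  refine (totalDegree_finsetSum _ _).trans (Finset.sup_le (fun d hd => ?_))
  have h0 : (C (P 0) + X 0 + C lam * X 1 : MvPolynomial (Fin 2) ℝ).totalDegree ≤ 1 := by
    refine (totalDegree_add _ _).trans (max_le ((totalDegree_add _ _).trans (max_le ?_ ?_)) ?_)
    · rw [totalDegree_C]; exact Nat.zero_le _
    · rw [totalDegree_X]
    · refine (totalDegree_mul _ _).trans ?_
      rw [totalDegree_C, totalDegree_X]
  have h1 : (C (P 1) + X 1 : MvPolynomial (Fin 2) ℝ).totalDegree ≤ 1 := by
    refine (totalDegree_add _ _).trans (max_le ?_ ?_)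
    · rw [totalDegree_C]; exact Nat.zero_le _
    · rw [totalDegree_X]
  have h2 : d 0 + d 1 ≤ F.totalDegree := by
    have h3 := le_totalDegree hd
    rwa [Finsupp.sum_fintype _ _ (fun _ => rfl), Fin.sum_univ_two] at h3
  calc _ ≤ (C (coeff d F) : MvPolynomial (Fin 2) ℝ).totalDegree +
        ((C (P 0) + X 0 + C lam * X 1 : MvPolynomial (Fin 2) ℝ) ^ d 0 *
          (C (P 1) + X 1) ^ d 1).totalDegree := totalDegree_mul _ _
    _ ≤ 0 + (((C (P 0) + X 0 + C lam * X 1 : MvPolynomial (Fin 2) ℝ) ^ d 0).totalDegree +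
          ((C (P 1) + X 1 : MvPolynomial (Fin 2) ℝ) ^ d 1).totalDegree) :=
        add_le_add (totalDegree_C _).le (totalDegree_mul _ _)
    _ ≤ 0 + (d 0 * 1 + d 1 * 1) := by
        refine add_le_add le_rfl (add_le_add ?_ ?_)
        · exact (totalDegree_pow _ _).trans (Nat.mul_le_mul_left _ h0)
        · exact (totalDegree_pow _ _).trans (Nat.mul_le_mul_left _ h1)
    _ ≤ F.totalDegree := by omega

theorem eval_shear (P : Fin 2 → ℝ) (lam : ℝ) (F : MvPolynomial (Fin 2) ℝ) :
    MvPolynomial.eval 0 (shear P lam F) = MvPolynomial.eval P F := by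
  have h : (MvPolynomial.eval (0 : Fin 2 → ℝ)).comp
      (shear P lam : MvPolynomial (Fin 2) ℝ →+* MvPolynomial (Fin 2) ℝ) =
      MvPolynomial.eval P := by
    apply MvPolynomial.ringHom_ext
    · intro r
      simp [shear]
    · intro i
      fin_cases i
      · show MvPolynomial.eval 0 (shear P lam (X 0)) = _
        rw [shear_X0]
        simp
      · show MvPolynomial.eval 0 (shear P lam (X 1)) = _
        rw [shear_X1]
        simp
  exact congrArg (fun ψ : MvPolynomial (Fin 2) ℝ →+* ℝ => ψ F) h

theorem pderiv_shear (P : Fin 2 → ℝ) (lam : ℝ) (F : MvPolynomial (Fin 2) ℝ) :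
    MvPolynomial.eval 0 (pderiv 1 (shear P lam F)) =
      lam * MvPolynomial.eval P (pderiv 0 F) + MvPolynomial.eval P (pderiv 1 F) := by
  induction F using MvPolynomial.induction_on with
  | C r =>
    simp only [shear_C, pderiv_C]
    simp
  | add p q hp hq =>
    rw [map_add, map_add, map_add, map_add, map_add, map_add, map_add, hp, hq]
    ring
  | mul_X p i hp =>
    rw [map_mul, pderiv_mul, pderiv_mul, pderiv_mul, map_add, map_mul, map_mul, hp, eval_shear,
      eval_shear, map_add, map_mul, map_mul, map_add, map_mul, map_mul]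
    fin_cases i
    · have h1 : pderiv 1 (shear P lam (X 0)) = C lam := by
        rw [shear_X0, map_add, map_add, pderiv_C, pderiv_mul, pderiv_C, pderiv_X_self,
          pderiv_X_of_ne (by decide)]
        simp
      simp only [Fin.zero_eta, Fin.isValue, h1, pderiv_X_self, eval_X, eval_C,
        pderiv_X_of_ne (show (0 : Fin 2) ≠ 1 by decide), map_one, map_zero]
      ring
    · have h1 : pderiv 1 (shear P lam (X 1)) = 1 := by
        rw [shear_X1, map_add, pderiv_C, pderiv_X_self, zero_add]
      simp only [Fin.mk_one, Fin.isValue, h1, pderiv_X_self, eval_X,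
        pderiv_X_of_ne (show (1 : Fin 2) ≠ 0 by decide), map_one, map_zero]
      ring

/-- The coefficients of the restriction to the line `X 0 = 0`. -/
lemma coeff_mon_zero_left (c : ℕ) (K : MvPolynomial (Fin 2) ℝ) :
    coeff (mon 0 c) K = (aeval ![0, (Polynomial.X : Polynomial ℝ)] K).coeff c := by
  induction K using MvPolynomial.induction_on' with
  | monomial s r =>
    rw [coeff_monomial, aeval_monomial, Finsupp.prod_fintype _ _ (fun i => pow_zero _),
      Fin.prod_univ_two]
    simp only [Matrix.cons_val_zero, Matrix.cons_val_one]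
    by_cases h1 : s 0 = 0
    · rw [h1, pow_zero, one_mul]
      simp only [Polynomial.algebraMap_eq, Polynomial.coeff_C_mul, Polynomial.coeff_X_pow]
      by_cases h0 : s 1 = c
      · rw [if_pos, if_pos h0.symm, mul_one]
        rw [← mon_eta s, h0, h1]
      · rw [if_neg, if_neg (fun h => h0 h.symm), mul_zero]
        intro h
        apply h0
        rw [h, mon_one']
    · rw [zero_pow h1, zero_mul, mul_zero, Polynomial.coeff_zero, if_neg]
      intro h
      apply h1
      rw [h, mon_zero']
  | add p q hp hq =>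
    rw [coeff_add, map_add, Polynomial.coeff_add, hp, hq]

lemma coeff_two_lin (p0 p1 lam : ℝ) (a b k : ℕ) (h : a + b ≤ k) :
    ((Polynomial.C p0 + Polynomial.C lam * Polynomial.X) ^ a *
      (Polynomial.C p1 + Polynomial.X) ^ b : Polynomial ℝ).coeff k =
      if a + b = k then lam ^ a else 0 := by
  have d0 : (Polynomial.C p0 + Polynomial.C lam * Polynomial.X : Polynomial ℝ).natDegree ≤ 1 := by
    refine (Polynomial.natDegree_add_le _ _).trans (max_le ?_ ?_)
    · rw [Polynomial.natDegree_C]; exact Nat.zero_le _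
    · exact (Polynomial.natDegree_C_mul_le _ _).trans Polynomial.natDegree_X_le
  have d1 : (Polynomial.C p1 + Polynomial.X : Polynomial ℝ).natDegree ≤ 1 := by
    refine (Polynomial.natDegree_add_le _ _).trans (max_le ?_ ?_)
    · rw [Polynomial.natDegree_C]; exact Nat.zero_le _
    · exact Polynomial.natDegree_X_le
  have e0 : ((Polynomial.C p0 + Polynomial.C lam * Polynomial.X : Polynomial ℝ) ^ a).natDegree
      ≤ a := by
    have := Polynomial.natDegree_pow_le_of_le a d0
    rwa [mul_one] at this
  have e1 : ((Polynomial.C p1 + Polynomial.X : Polynomial ℝ) ^ b).natDegree ≤ b := by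
    have := Polynomial.natDegree_pow_le_of_le b d1
    rwa [mul_one] at this
  split_ifs with hk
  · rw [← hk, Polynomial.coeff_mul_add_eq_of_natDegree_le e0 e1]
    have f0 := Polynomial.coeff_pow_of_natDegree_le (m := a) (n := 1) d0
    have f1 := Polynomial.coeff_pow_of_natDegree_le (m := b) (n := 1) d1
    rw [mul_one] at f0 f1
    rw [f0, f1]
    simp
  · apply Polynomial.coeff_eq_zero_of_natDegree_lt
    refine lt_of_le_of_lt Polynomial.natDegree_mul_le ?_
    omega

/-- A good shear. -/
theorem exists_shear {k : ℕ} {f : MvPolynomial (Fin 2) ℝ} {P : Fin 2 → ℝ}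
    (hdeg : f.totalDegree ≤ k) (htop : coeff (mon 0 k) f ≠ 0)
    (hsm : MvPolynomial.eval P (pderiv 0 f) ≠ 0 ∨ MvPolynomial.eval P (pderiv 1 f) ≠ 0) :
    ∃ lam : ℝ, lam * MvPolynomial.eval P (pderiv 0 f) + MvPolynomial.eval P (pderiv 1 f) ≠ 0 ∧
      coeff (mon 0 k) (shear P lam f) ≠ 0 := by
  classical
  set u : ℝ := MvPolynomial.eval P (pderiv 0 f) with hu
  set v : ℝ := MvPolynomial.eval P (pderiv 1 f) with hv
  set Q : Polynomial ℝ := ∑ d ∈ f.support,
    if d 0 + d 1 = k then Polynomial.C (coeff d f) * Polynomial.X ^ d 0 else 0 with hQ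
  have hcoef : ∀ lam : ℝ, coeff (mon 0 k) (shear P lam f) = Q.eval lam := by
    intro lam
    rw [coeff_mon_zero_left, shear_eq_sum, map_sum, Polynomial.finsetSum_coeff, hQ,
      Polynomial.eval_finsetSum]
    refine Finset.sum_congr rfl (fun d hd => ?_)
    have h2 : d 0 + d 1 ≤ k := by
      have h3 := le_totalDegree hd
      rw [Finsupp.sum_fintype _ _ (fun _ => rfl), Fin.sum_univ_two] at h3
      exact h3.trans hdeg
    have h4 : aeval ![0, (Polynomial.X : Polynomial ℝ)] (C (coeff d f) *
        ((C (P 0) + X 0 + C lam * X 1) ^ d 0 * (C (P 1) + X 1) ^ d 1) :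
          MvPolynomial (Fin 2) ℝ) = Polynomial.C (coeff d f) *
        ((Polynomial.C (P 0) + Polynomial.C lam * Polynomial.X) ^ d 0 *
          (Polynomial.C (P 1) + Polynomial.X) ^ d 1) := by
      rw [map_mul, map_mul, map_pow, map_pow, map_add, map_add, map_add, map_mul, aeval_C,
        aeval_C, aeval_C, aeval_C, aeval_X, aeval_X]
      simp only [Matrix.cons_val_zero, Matrix.cons_val_one, Polynomial.algebraMap_eq, add_zero]
    rw [h4, Polynomial.coeff_C_mul, coeff_two_lin _ _ _ _ _ _ h2]
    split_ifs
    · simp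
    · simp
  have hQ0 : Q ≠ 0 := by
    intro h0
    apply htop
    have h1 : Q.coeff 0 = 0 := by rw [h0]; simp
    rw [hQ, Polynomial.finsetSum_coeff] at h1
    have h2 : ∑ d ∈ f.support, (if d 0 + d 1 = k then
        Polynomial.C (coeff d f) * Polynomial.X ^ d 0 else (0 : Polynomial ℝ)).coeff 0 =
        ∑ d ∈ f.support, if d = mon 0 k then coeff d f else 0 := by
      refine Finset.sum_congr rfl (fun d _ => ?_)
      by_cases h3 : d = mon 0 k
      · rw [if_pos h3, h3, mon_zero', mon_one', zero_add, if_pos rfl]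
        simp
      · rw [if_neg h3]
        split_ifs with h4
        · rw [Polynomial.coeff_C_mul, Polynomial.coeff_X_pow, if_neg, mul_zero]
          intro h5
          apply h3
          rw [← mon_eta d, ← h5]
          rw [← h5, zero_add] at h4
          rw [h4]
        · simp
    rw [h2, Finset.sum_ite_eq'] at h1
    by_contra h3
    rw [if_pos (mem_support_iff.2 h3)] at h1
    exact h3 h1
  set R : Polynomial ℝ := Polynomial.X * Polynomial.C u + Polynomial.C v with hR
  have hR0 : R ≠ 0 := by
    intro h0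
    have h1 : R.coeff 0 = 0 := by rw [h0]; simp
    have h2 : R.coeff 1 = 0 := by rw [h0]; simp
    rw [hR] at h1 h2
    rw [Polynomial.coeff_add, Polynomial.coeff_C_zero] at h1
    rw [Polynomial.coeff_add, Polynomial.coeff_mul_C, Polynomial.coeff_X_one] at h2
    simp only [Polynomial.mul_coeff_zero, Polynomial.coeff_X_zero, zero_mul, zero_add] at h1
    rw [Polynomial.coeff_C, if_neg one_ne_zero, one_mul, add_zero] at h2
    rcases hsm with h | h
    · exact h h2
    · exact h h1
  by_contra hcon
  push Not at hcon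
  have hall : Q * R = 0 := by
    apply Polynomial.funext
    intro lam
    rw [Polynomial.eval_mul, Polynomial.eval_zero]
    by_cases h1 : lam * u + v = 0
    · have : R.eval lam = 0 := by
        rw [hR]
        simp only [Polynomial.eval_add, Polynomial.eval_mul, Polynomial.eval_X, Polynomial.eval_C]
        exact h1
      rw [this, mul_zero]
    · rw [← hcoef lam, hcon lam h1, zero_mul]
  rcases mul_eq_zero.1 hall with h | h
  · exact hQ0 h
  · exact hR0 h

end Pool.MP_70e04f_ag.Nine
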