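import Pool.Agent.Lib_MP_70e04f_nine.Defs

/-!
# The order of vanishing is additive (piece VAL)

PAPER PROOF of `mem_pow_sub`. Let `I = pt p`. After the translation `shift p` (`mem_ker_pow_iff` in
`Lib_MP_70e04f_ag/Poly.lean`: `F ∈ I ^ m` iff all coefficients `coeff (mon a b) (shift p F)` with
`a + b < m` vanish; `shift p` is a ring homomorphism) the claim says: if `F`, `G` are nonzero
polynomials of orders `a`, `b` (least total degree of a monomial), then `F * G` has order
exactly `a + b`. This is `MvPowerSeries.order_mul` (no zero divisors), or the product of the lowest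
homogeneous components is not zero. So with `ord f ≤ c` and `m ≤ ord (f * G) = ord f + ord G` one
gets `m - c ≤ ord G`.
-/

namespace Pool.MP_70e04f_ag.Nine

open MvPolynomial Pool.MP_70e04f_ag.Hex Pool.MP_70e04f_ag.Add

/-- Membership in a power of the maximal ideal of a point, by the order of the translated
polynomial as a power series. -/
theorem mem_pt_pow_iff_le_order {p : Fin 2 → ℝ} {F : MvPolynomial (Fin 2) ℝ} {m : ℕ} :
    F ∈ pt p ^ m ↔ (m : ℕ∞) ≤ MvPowerSeries.order (shift p F : MvPowerSeries (Fin 2) ℝ) := by
  rw [mem_ker_pow_iff]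
  constructor
  · intro h
    apply MvPowerSeries.nat_le_order
    intro d hd
    rw [MvPolynomial.coeff_coe]
    have h1 := h (d 0, d 1) (mem_tri.2 (by rw [← mon_eta d, degree_mon] at hd; exact hd))
    simpa only [mon_eta] using h1
  · intro h q hq
    have h1 : ((mon q.1 q.2).degree : ℕ∞) <
        MvPowerSeries.order (shift p F : MvPowerSeries (Fin 2) ℝ) := by
      refine lt_of_lt_of_le ?_ h
      rw [degree_mon]
      exact_mod_cast mem_tri.1 hq
    have h2 := MvPowerSeries.coeff_of_lt_order h1
    rwa [MvPolynomial.coeff_coe] at h2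

/-- If `f` does not vanish to order `c + 1` and `f * G` vanishes to order `m` then `G` vanishes to
order `m - c`. -/
theorem mem_pow_sub {p : Fin 2 → ℝ} {f G : MvPolynomial (Fin 2) ℝ} {c m : ℕ}
    (hf : f ∉ pt p ^ (c + 1)) (h : f * G ∈ pt p ^ m) : G ∈ pt p ^ (m - c) := by
  rw [mem_pt_pow_iff_le_order] at hf h ⊢
  rw [map_mul, MvPolynomial.coe_mul, MvPowerSeries.order_mul] at h
  rw [not_le] at hf
  generalize MvPowerSeries.order (shift p f : MvPowerSeries (Fin 2) ℝ) = a at hf h
  generalize MvPowerSeries.order (shift p G : MvPowerSeries (Fin 2) ℝ) = b at h ⊢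
  cases b with
  | top => exact le_top
  | coe b =>
    cases a with
    | top => exact absurd hf (not_lt.2 le_top)
    | coe a =>
      have h1 : a < c + 1 := by exact_mod_cast hf
      have h2 : m ≤ a + b := by exact_mod_cast h
      have h3 : m - c ≤ b := by omega
      exact_mod_cast h3

end Pool.MP_70e04f_ag.Nine
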